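import Pool.Agent.Lib.MP_c77da8_nt.CS.Defs

/-!
# CS-CntA: numbers `n` with `p ∣ A i * n - B i` for all `p ∈ D i`

Copy `CG/Cnt.lean` (`cnt`, `cnt_one`) with `A i * n - B i` in place of `A i * n - 1` and `rhoA A B` in place of `rho A`.
`p ∣ A i * n - B i ↔ A i * n ≡ B i [MOD p]` as `B i ≤ A i * N ≤ A i * n`.  Compatible case: choose `c p` with `A i * c p ≡ B i [MOD p]` for one
(hence every) `i` with `p ∈ D i`: `A i * c ≡ B i`, `A i * B j ≡ A j * B i` give `A i * (A j * c) ≡ A j * B i ≡ A i * B j`, cancel `A i`.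
Incompatible case: `A i * n ≡ B i`, `A j * n ≡ B j` give `A i * B j ≡ A i * A j * n ≡ A j * B i`.
-/

set_option autoImplicit false

namespace Pool.CS

open Finset Pool.CG Pool.CL

private theorem CntA_mod_dvd {p a b n : ℕ} (h : b ≤ a * n) :
    p ∣ a * n - b ↔ a * n ≡ b [MOD p] := by
  constructor
  · intro hd
    exact ((Nat.modEq_iff_dvd' h).2 hd).symm
  · intro hm
    exact (Nat.modEq_iff_dvd' h).1 hm.symm

/-- elements of a residue class in `[N, 2N)` -/
private theorem CntA_class {Q : ℕ} (hQ : 0 < Q) (v N : ℕ) :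
    |(((Ico N (2 * N)).filter fun n => n ≡ v [MOD Q]).card : ℝ) - (N : ℝ) / (Q : ℝ)| ≤ 1 := by
  have h := Nat.Ico_filter_modEq_card N (2 * N) hQ v
  set c := ((Ico N (2 * N)).filter fun n => n ≡ v [MOD Q]).card with hc
  set A : ℚ := (((2 * N : ℕ) : ℚ) - (v : ℚ)) / (Q : ℚ) with hA
  set B : ℚ := ((N : ℚ) - (v : ℚ)) / (Q : ℚ) with hB
  have hAB : A - B = (N : ℚ) / (Q : ℚ) := by
    rw [hA, hB, ← sub_div]
    push_cast
    ring
  have hnn : (0 : ℚ) ≤ (N : ℚ) / (Q : ℚ) := by positivity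
  have h1 := Int.le_ceil A
  have h2 := Int.ceil_lt_add_one A
  have h3 := Int.le_ceil B
  have h4 := Int.ceil_lt_add_one B
  have h5 : (0 : ℤ) ≤ ⌈A⌉ - ⌈B⌉ := by
    have : (-1 : ℚ) < ((⌈A⌉ - ⌈B⌉ : ℤ) : ℚ) := by
      push_cast
      linarith
    have h6 : (-1 : ℤ) < ⌈A⌉ - ⌈B⌉ := by exact_mod_cast this
    omega
  rw [max_eq_left h5] at h
  have h7 : (c : ℚ) = (⌈A⌉ : ℚ) - (⌈B⌉ : ℚ) := by exact_mod_cast congrArg (fun z : ℤ => (z : ℚ)) h
  have h8 : |(c : ℚ) - (N : ℚ) / (Q : ℚ)| ≤ 1 := by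
    rw [h7, abs_le]
    constructor <;> linarith
  have h9 : ((|(c : ℚ) - (N : ℚ) / (Q : ℚ)| : ℚ) : ℝ) ≤ ((1 : ℚ) : ℝ) := by exact_mod_cast h8
  push_cast at h9
  exact h9

private theorem CntA_prime {w R : ℕ} (p : {p // p ∈ Pr w R}) : p.1.Prime := by
  have h := p.2
  unfold Pr at h
  exact (mem_filter.1 h).2.1

theorem cntA (w R : ℕ) (I : Type) [Fintype I] [DecidableEq I] (A B : I → ℕ)
    (hcop : ∀ i, ∀ p ∈ Pr w R, ¬ p ∣ A i) (N : ℕ) (hN : 1 ≤ N) (hB : ∀ i, B i ≤ A i * N)
    (D : I → Finset {p // p ∈ Pr w R}) :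
    |(((Ico N (2 * N)).filter fun n => ∀ i, ∀ p ∈ D i, p.1 ∣ A i * n - B i).card : ℝ) / N -
      ∏ p : {p // p ∈ Pr w R}, rhoA A B p.1 (univ.filter fun i => p ∈ D i)| ≤ 1 / (N : ℝ) := by
  classical
  have hN0 : (0 : ℝ) < (N : ℝ) := by exact_mod_cast hN
  have hmem : ∀ n ∈ Ico N (2 * N), (∀ i, ∀ p ∈ D i, p.1 ∣ A i * n - B i) ↔
      ∀ p : {p // p ∈ Pr w R}, ∀ i, p ∈ D i → A i * n ≡ B i [MOD p.1] := by
    intro n hn
    have hn1 : ∀ i, B i ≤ A i * n := fun i =>
      (hB i).trans (Nat.mul_le_mul_left _ (mem_Ico.1 hn).1)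
    constructor
    · intro h p i hp
      exact (CntA_mod_dvd (hn1 i)).1 (h i p hp)
    · intro h i p hp
      exact (CntA_mod_dvd (hn1 i)).2 (h p i hp)
  rw [filter_congr hmem]
  by_cases hgood : ∀ p : {p // p ∈ Pr w R}, ∀ i j, p ∈ D i → p ∈ D j →
      A i * B j ≡ A j * B i [MOD p.1]
  · -- the compatible case
    have hex : ∀ p : {p // p ∈ Pr w R}, ∃ c : ℕ, ∀ i, p ∈ D i → A i * c ≡ B i [MOD p.1] := by
      intro p
      by_cases hp : ∃ i, p ∈ D i
      · obtain ⟨i, hi⟩ := hp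
        have hcp : Nat.Coprime (A i) p.1 :=
          ((Nat.Prime.coprime_iff_not_dvd (CntA_prime p)).2 (hcop i p.1 p.2)).symm
        obtain ⟨c, hc⟩ := Nat.exists_mul_mod_eq_one_of_coprime hcp (CntA_prime p).one_lt
        have hc' : A i * c ≡ 1 [MOD p.1] := by
          unfold Nat.ModEq
          rw [hc.2, Nat.mod_eq_of_lt (CntA_prime p).one_lt]
        have hc2 : A i * (c * B i) ≡ B i [MOD p.1] := by
          have h1 := hc'.mul_right (B i)
          rw [one_mul, mul_assoc] at h1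
          exact h1
        refine ⟨c * B i, fun j hj => ?_⟩
        have hcp' : Nat.gcd p.1 (A i) = 1 :=
          (Nat.Prime.coprime_iff_not_dvd (CntA_prime p)).2 (hcop i p.1 p.2)
        refine Nat.ModEq.cancel_left_of_coprime hcp' ?_
        have h2 : A j * (A i * (c * B i)) ≡ A j * B i [MOD p.1] := hc2.mul_left _
        have h3 : A i * (A j * (c * B i)) = A j * (A i * (c * B i)) := by ring
        rw [h3]
        exact h2.trans (hgood p j i hj hi)
      · exact ⟨0, fun i hi => absurd ⟨i, hi⟩ hp⟩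
    choose c hc using hex
    have hpp : Set.Pairwise ((univ : Finset {p // p ∈ Pr w R}) : Set {p // p ∈ Pr w R})
        (Function.onFun Nat.Coprime fun p : {p // p ∈ Pr w R} => p.1) := by
      intro p _ q _ hpq
      exact (Nat.coprime_primes (CntA_prime p) (CntA_prime q)).2 fun h => hpq (Subtype.ext h)
    obtain ⟨n0, hn0⟩ := Nat.chineseRemainderOfFinset c (fun p : {p // p ∈ Pr w R} => p.1) univ
      (fun p _ => (CntA_prime p).ne_zero) hpp
    set PP : Finset {p // p ∈ Pr w R} := univ.filter fun p => ∃ i, p ∈ D i with hPP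
    set Q : ℕ := ∏ p ∈ PP, p.1 with hQ
    have hQ0 : 0 < Q := prod_pos fun p _ => (CntA_prime p).pos
    have hiff : ∀ n ∈ Ico N (2 * N), (∀ p : {p // p ∈ Pr w R}, ∀ i, p ∈ D i →
        A i * n ≡ B i [MOD p.1]) ↔ n ≡ n0 [MOD Q] := by
      intro n _
      constructor
      · intro h
        have h1 : ∀ p ∈ PP, ((p.1 : ℕ) : ℤ) ∣ (n0 : ℤ) - (n : ℤ) := by
          intro p hp
          obtain ⟨i, hi⟩ := (mem_filter.1 hp).2
          have h2 : A i * n ≡ A i * n0 [MOD p.1] :=
            (h p i hi).trans ((((hn0 p (mem_univ p)).mul_left (A i)).trans (hc p i hi)).symm)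
          have hcp : Nat.gcd p.1 (A i) = 1 :=
            (Nat.Prime.coprime_iff_not_dvd (CntA_prime p)).2 (hcop i p.1 p.2)
          exact Nat.modEq_iff_dvd.1 (Nat.ModEq.cancel_left_of_coprime hcp h2)
        have h3 : (((Q : ℕ) : ℤ)) ∣ (n0 : ℤ) - (n : ℤ) := by
          rw [hQ, Nat.cast_prod]
          refine Finset.prod_dvd_of_coprime ?_ h1
          intro p _ q _ hpq
          exact Nat.isCoprime_iff_coprime.2
            ((Nat.coprime_primes (CntA_prime p) (CntA_prime q)).2 fun h => hpq (Subtype.ext h))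
        exact Nat.modEq_iff_dvd.2 h3
      · intro h p i hi
        have hp : p ∈ PP := mem_filter.2 ⟨mem_univ p, i, hi⟩
        have h1 : n ≡ n0 [MOD p.1] := h.of_dvd (dvd_prod_of_mem _ hp)
        exact ((h1.trans (hn0 p (mem_univ p))).mul_left (A i)).trans (hc p i hi)
    rw [filter_congr hiff]
    have hprod : ∏ p : {p // p ∈ Pr w R}, rhoA A B p.1 (univ.filter fun i => p ∈ D i) =
        1 / (Q : ℝ) := by
      have h1 : ∀ p : {p // p ∈ Pr w R}, rhoA A B p.1 (univ.filter fun i => p ∈ D i) =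
          if p ∈ PP then 1 / (p.1 : ℝ) else 1 := by
        intro p
        unfold rhoA
        by_cases hp : p ∈ PP
        · obtain ⟨i, hi⟩ := (mem_filter.1 hp).2
          rw [if_pos hp, if_neg, if_pos]
          · intro i hi j hj
            exact hgood p i j (mem_filter.1 hi).2 (mem_filter.1 hj).2
          · intro h0
            have : i ∈ (∅ : Finset I) := by
              rw [← h0]
              exact mem_filter.2 ⟨mem_univ i, hi⟩
            exact notMem_empty i this
        · rw [if_neg hp, if_pos]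
          refine filter_eq_empty_iff.2 fun i _ hi => hp ?_
          exact mem_filter.2 ⟨mem_univ p, i, hi⟩
      rw [prod_congr rfl fun p _ => h1 p, ← prod_filter, hQ, Nat.cast_prod, filter_mem_eq_inter,
        univ_inter, prod_div_distrib, prod_const_one]
    rw [hprod]
    have hcl := CntA_class hQ0 n0 N
    have e : (((Ico N (2 * N)).filter fun n => n ≡ n0 [MOD Q]).card : ℝ) / N - 1 / (Q : ℝ) =
        ((((Ico N (2 * N)).filter fun n => n ≡ n0 [MOD Q]).card : ℝ) - (N : ℝ) / (Q : ℝ)) / N := by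
      have hQr : (Q : ℝ) ≠ 0 := by exact_mod_cast hQ0.ne'
      field_simp
    rw [e, abs_div, abs_of_pos hN0]
    exact div_le_div_of_nonneg_right hcl hN0.le
  · -- no solutions
    push Not at hgood
    obtain ⟨p, i, j, hi, hj, hij⟩ := hgood
    have hempty : ((Ico N (2 * N)).filter fun n => ∀ p : {p // p ∈ Pr w R}, ∀ i, p ∈ D i →
        A i * n ≡ B i [MOD p.1]) = ∅ := by
      refine filter_eq_empty_iff.2 fun n _ h => hij ?_
      have h1 := (h p i hi).mul_left (A j)
      have h2 := (h p j hj).mul_left (A i)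
      have h3 : A i * (A j * n) = A j * (A i * n) := by ring
      rw [h3] at h2
      exact h2.symm.trans h1
    have hz : rhoA A B p.1 (univ.filter fun i => p ∈ D i) = 0 := by
      unfold rhoA
      rw [if_neg, if_neg]
      · intro h
        exact hij (h i (mem_filter.2 ⟨mem_univ i, hi⟩) j (mem_filter.2 ⟨mem_univ j, hj⟩))
      · intro h0
        have : i ∈ (∅ : Finset I) := by
          rw [← h0]
          exact mem_filter.2 ⟨mem_univ i, hi⟩
        exact notMem_empty i this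
    rw [hempty, prod_eq_zero (mem_univ p) hz, card_empty]
    simp

theorem cntA_one (w R A B N : ℕ) (hcop : ∀ p ∈ Pr w R, ¬ p ∣ A) (hN : 1 ≤ N) (hB : B ≤ A * N)
    (D : Finset {p // p ∈ Pr w R}) :
    (((Ico N (2 * N)).filter fun n => ∀ p ∈ D, p.1 ∣ A * n - B).card : ℝ) / N ≤
      1 / (nm (vp w R) D : ℝ) + 1 / (N : ℝ) := by
  classical
  have h := cntA w R Unit (fun _ => A) (fun _ => B) (fun _ => hcop) N hN (fun _ => hB) (fun _ => D)
  have e1 : ((Ico N (2 * N)).filter fun n => ∀ _ : Unit, ∀ p ∈ D, p.1 ∣ A * n - B) =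
      (Ico N (2 * N)).filter fun n => ∀ p ∈ D, p.1 ∣ A * n - B := by
    refine filter_congr fun n _ => ?_
    constructor
    · intro h
      exact h ()
    · intro h _
      exact h
  have e2 : ∏ p : {p // p ∈ Pr w R}, rhoA (fun _ : Unit => A) (fun _ : Unit => B) p.1 (univ.filter fun _ => p ∈ D) =
      1 / (nm (vp w R) D : ℝ) := by
    have h1 : ∀ p : {p // p ∈ Pr w R}, rhoA (fun _ : Unit => A) (fun _ : Unit => B) p.1 (univ.filter fun _ => p ∈ D) =
        if p ∈ D then 1 / (p.1 : ℝ) else 1 := by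
      intro p
      unfold rhoA
      by_cases hp : p ∈ D
      · rw [if_pos hp, if_neg, if_pos]
        · intro i _ j _
          exact Nat.ModEq.refl _
        · intro h0
          have : () ∈ (∅ : Finset Unit) := by
            rw [← h0]
            exact mem_filter.2 ⟨mem_univ _, hp⟩
          exact notMem_empty _ this
      · rw [if_neg hp, if_pos]
        exact filter_eq_empty_iff.2 fun _ _ h => hp h
    rw [prod_congr rfl fun p _ => h1 p, ← prod_filter, filter_mem_eq_inter,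
        univ_inter, prod_div_distrib, prod_const_one]
    unfold nm vp
    rw [Nat.cast_prod]
  rw [e2] at h
  simp only [e1] at h
  have h2 := (abs_le.1 h).2
  linarith

end Pool.CS
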