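import Pool.Agent.Lib.MP_c77da8_nt.CS.OneH

/-!
# CS-CntPH: many `h` for many primes `p`
-/

set_option autoImplicit false

namespace Pool.CS

open Finset Pool.CG Pool.CL

/-- the `h` which belong to the prime `p` -/
def HPs {k : ℕ} (q Y : ℕ) (ρ : Fin (k + 2) → ℕ) (p : ℕ) : Set ℕ :=
  {h | 1 ≤ h ∧ h ≤ Y ∧ h ≡ 1 [MOD q] ∧ ∃ n, p = ρ 0 * n - h ∧ ∀ a, (ρ a * n - h).Prime}

theorem HPs_fin {k : ℕ} (q Y : ℕ) (ρ : Fin (k + 2) → ℕ) (p : ℕ) : (HPs q Y ρ p).Finite :=
  (Set.finite_Iic Y).subset fun _ hp => hp.2.1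

private theorem log_le_sqrt' (x : ℝ) (hx : 1 ≤ x) : Real.log x ≤ √x := by
  obtain ⟨u, hu⟩ : ∃ u : ℝ, u = √(√x) := ⟨_, rfl⟩
  have h0 : 0 < √x := Real.sqrt_pos.2 (by linarith)
  have hu0 : 0 < u := by rw [hu]; exact Real.sqrt_pos.2 h0
  have h1 : u ^ 2 = √x := by rw [hu]; exact Real.sq_sqrt h0.le
  have h2 : u ^ 4 = x := by
    calc u ^ 4 = (u ^ 2) ^ 2 := by ring
      _ = x := by rw [h1]; exact Real.sq_sqrt (by linarith)
  have h3 : Real.log x = 4 * Real.log u := by
    rw [← h2, Real.log_pow]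
    norm_num
  have h4 := Real.log_le_sub_one_of_pos hu0
  rw [h3, ← h1]
  nlinarith [sq_nonneg (u - 2)]

/-- Chebyshev -/
theorem pi_le4 (X : ℕ) (hX : 2 ≤ X) : ((Nat.primeCounting X : ℕ) : ℝ) ≤ 4 * X / Real.log X := by
  have hX1 : (2 : ℝ) ≤ X := by exact_mod_cast hX
  have h := Chebyshev.pi_le_log4_mul_div (x := (X : ℝ)) (by linarith)
  rw [Nat.floor_natCast] at h
  refine h.trans ?_
  have hl : 0 < Real.log X := Real.log_pos (by linarith)
  have h1 : Real.log √(X : ℝ) = Real.log X / 2 := Real.log_sqrt (by linarith)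
  have h2 : Real.log 4 ≤ 3 / 2 := by
    have : Real.log 4 = 2 * Real.log 2 := by
      rw [show (4 : ℝ) = 2 ^ 2 by norm_num, Real.log_pow]
      norm_num
    rw [this]
    linarith [Real.log_two_lt_d9]
  have h3 : √(X : ℝ) ≤ X / Real.log X := by
    rw [le_div_iff₀ hl]
    calc √(X : ℝ) * Real.log X ≤ √(X : ℝ) * √(X : ℝ) :=
          mul_le_mul_of_nonneg_left (log_le_sqrt' _ (by linarith)) (Real.sqrt_nonneg _)
      _ = X := Real.mul_self_sqrt (by linarith)
  rw [h1]
  have h4 : Real.log 4 * X / (Real.log X / 2) ≤ 3 * X / Real.log X := by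
    rw [div_div_eq_mul_div]
    refine div_le_div_of_nonneg_right ?_ hl.le
    nlinarith
  calc Real.log 4 * X / (Real.log X / 2) + √(X : ℝ) ≤ 3 * X / Real.log X + X / Real.log X := add_le_add h4 h3
    _ = 4 * X / Real.log X := by ring

private theorem lr_inj {W c N M : ℕ} [NeZero N] [NeZero M] (hW : 1 ≤ W) (hc : 1 ≤ c) (hM : M ≤ N)
    (z z' : ZZ N M) (h2 : z.2 = z'.2) (h : LR W c N M z = LR W c N M z') : z = z' := by
  have hle : ∀ y : ZZ N M, W * y.2.val + 1 ≤ W * c * (N + y.1.val) := by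
    intro y
    have h1 : y.2.val < M := ZMod.val_lt _
    have h3 : W * (y.2.val + 1) ≤ W * (c * (N + y.1.val)) := by
      refine Nat.mul_le_mul_left _ ?_
      calc y.2.val + 1 ≤ N := by omega
        _ ≤ 1 * (N + y.1.val) := by omega
        _ ≤ c * (N + y.1.val) := Nat.mul_le_mul_right _ hc
    calc W * y.2.val + 1 ≤ W * y.2.val + W := by omega
      _ = W * (y.2.val + 1) := by ring
      _ ≤ W * (c * (N + y.1.val)) := h3
      _ = W * c * (N + y.1.val) := by ring
  have h4 := hle z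
  have h5 := hle z'
  unfold LR at h
  rw [← h2] at h h5
  have h6 : W * c * (N + z.1.val) = W * c * (N + z'.1.val) := by omega
  have h7 : N + z.1.val = N + z'.1.val := Nat.eq_of_mul_eq_mul_left (Nat.mul_pos hW hc) h6
  exact Prod.ext (ZMod.val_injective N (by omega)) h2

private theorem pt_mem {N M H : ℕ} [NeZero N] [NeZero M] (x : Pt (bx N M H)) :
    (x : ZZ N M).1 = 0 ∧ 1 ≤ (x : ZZ N M).2.val ∧ (x : ZZ N M).2.val ≤ H := (mem_filter.1 x.2).2

private theorem sR_pos {k N M H : ℕ} [NeZero N] [NeZero M] (x : Fin (k + 2) → Pt (bx N M H)) : 1 ≤ sR x := by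
  unfold sR
  exact (pt_mem (x 0)).2.1.trans (Finset.single_le_sum (f := fun l => ((x l : ZZ N M).2.val)) (fun _ _ => Nat.zero_le _)
    (mem_univ 0))

/-- the number of the vectors against the number of their sums -/
private theorem sR_card {k N M H : ℕ} [NeZero N] [NeZero M] (hH : H < M) (T : Finset (Fin (k + 2) → Pt (bx N M H))) :
    T.card ≤ H ^ (k + 1) * (T.image sR).card := by
  classical
  refine Finset.card_le_mul_card_image _ _ fun v _ => ?_
  have h1 : (T.filter fun x => sR x = v).card ≤ Fintype.card (Fin (k + 1) → Pt (bx N M H)) := by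
    rw [← Finset.card_univ]
    refine Finset.card_le_card_of_injOn (fun x l => x l.succ) (fun _ _ => mem_coe.2 (mem_univ _)) ?_
    intro x hx x' hx' hxx
    have e1 := (mem_filter.1 (mem_coe.1 hx)).2
    have e2 := (mem_filter.1 (mem_coe.1 hx')).2
    have e3 : sR x = sR x' := e1.trans e2.symm
    have e4 : ∀ l : Fin (k + 1), x l.succ = x' l.succ := fun l => congrFun hxx l
    unfold sR at e3
    rw [Fin.sum_univ_succ (fun l => ((x l : ZZ N M).2.val)), Fin.sum_univ_succ (fun l => ((x' l : ZZ N M).2.val))] at e3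
    have e5 : ∑ l : Fin (k + 1), ((x l.succ : ZZ N M).2.val) = ∑ l : Fin (k + 1), ((x' l.succ : ZZ N M).2.val) :=
      Finset.sum_congr rfl fun l _ => by rw [e4 l]
    have e6 : (x 0 : ZZ N M).2.val = (x' 0 : ZZ N M).2.val := by omega
    have e7 : x 0 = x' 0 := by
      apply Subtype.ext
      exact Prod.ext ((pt_mem (x 0)).1.trans (pt_mem (x' 0)).1.symm) (ZMod.val_injective M e6)
    funext l
    refine Fin.cases e7 (fun l => e4 l) l
  refine h1.trans (le_of_eq ?_)
  rw [Fintype.card_fun, Fintype.card_fin, Fintype.card_coe, bx_card N M H hH]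

theorem count_ph (k t : ℕ) (ht : 1 ≤ t) : ∃ (C : ℝ) (N0 : ℕ), 1 ≤ C ∧ ∀ N ≥ N0, ∀ (w q cm M E H : ℕ) [NeZero N] [NeZero M],
    1 ≤ w → 1 ≤ q → 1 ≤ cm → M ≤ N → 1 ≤ H → H < M → ∀ ρ : Fin (k + 2) → ℕ, (∀ a, 1 ≤ ρ a ∧ ρ a ≤ cm) →
    (∀ a, |(ρ 0 : ℤ) - ρ a| * ((k + 2) * H : ℕ) ≤ (E : ℤ)) → ∀ b c1 : ℝ, 0 < b → 0 < c1 →
    c1 ≤ av (fun z : ZZ N M => open Classical in
      if b ≤ GR (H := H) (fun j => fR w (Rt t N) (q * Wp w) (ρ j) N M E) ρ z then
        fR w (Rt t N) (q * Wp w) (ρ 0) N M E z else 0) →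
    c1 / (2 * C) * N / Real.log N ≤ (({p : ℕ | p ≤ 2 * (q * Wp w) * cm * N ∧ p.Prime ∧
      c1 / (16 * C * (q * Wp w : ℕ) * cm) * M * b / ((k + 2) * (C * Real.log N) ^ (k + 1)) ≤
        (((HPs q (1 + q * Wp w * (M + ρ 0 * ((k + 2) * H))) ρ p).ncard : ℕ) : ℝ)}.ncard : ℕ) : ℝ) := by
  obtain ⟨C, hC, hV⟩ := VV_le
  obtain ⟨N0, hN0⟩ := Rt_facts t ht
  have hC0 : 0 < C := by linarith
  refine ⟨C, max N0 3, hC, ?_⟩
  intro N hN w q cm M E H _ _ hw hq hcm hMN hH1 hHM ρ hρ hE b c1 hb hc1 hav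
  classical
  obtain ⟨hR3, -, -, -, hlog, -⟩ := hN0 N ((le_max_left _ _).trans hN)
  have hN3 : 3 ≤ N := (le_max_right _ _).trans hN
  have hR1 : (1 : ℝ) < (Rt t N : ℝ) := by exact_mod_cast (by omega : 1 < Rt t N)
  have hlN : 0 < Real.log N := lt_of_lt_of_le (Real.log_pos hR1) hlog
  obtain ⟨V, hVdef⟩ : ∃ V : ℝ, V = C * Real.log N := ⟨_, rfl⟩
  have hV0 : 0 < V := by rw [hVdef]; positivity
  have hVV : VV (vp w (Rt t N)) (Rt t N) ≤ V := by
    rw [hVdef]
    exact (hV w (Rt t N) hw (by omega)).trans (mul_le_mul_of_nonneg_left hlog hC0.le)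
  obtain ⟨W, hW⟩ : ∃ W : ℕ, W = q * Wp w := ⟨_, rfl⟩
  have hW1 : 1 ≤ W := by
    rw [hW]
    have h : 1 ≤ Wp w := by
      unfold Wp
      exact Nat.succ_le_of_lt (Finset.prod_pos fun p hp => (mem_filter.1 hp).2.pos)
    exact Nat.mul_pos hq h
  set f : Fin (k + 2) → ZZ N M → ℝ := fun j => fR w (Rt t N) (q * Wp w) (ρ j) N M E with hf
  have hfn : ∀ a z, 0 ≤ f a z := fun a z => fR_nonneg _ _ _ _ _ _ _ z
  have hN1 : (0 : ℝ) < (N : ℝ) := by exact_mod_cast Nat.pos_of_ne_zero (NeZero.ne N)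
  have hM1 : (0 : ℝ) < (M : ℝ) := by exact_mod_cast Nat.pos_of_ne_zero (NeZero.ne M)
  have hHr : (0 : ℝ) < (H : ℝ) := by exact_mod_cast hH1
  have hWr : (1 : ℝ) ≤ W := by exact_mod_cast hW1
  have hcmr : (1 : ℝ) ≤ cm := by exact_mod_cast hcm
  -- the good points
  set S : Finset (ZZ N M) := univ.filter fun z => f 0 z ≠ 0 ∧ b ≤ GR (H := H) f ρ z with hS
  have hcardS : c1 * (N * M) ≤ S.card * V := by
    have h1 : ∑ z : ZZ N M, (if b ≤ GR (H := H) f ρ z then f 0 z else 0) ≤ S.card * V := by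
      have h2 : ∀ z ∈ (univ : Finset (ZZ N M)), (if b ≤ GR (H := H) f ρ z then f 0 z else 0) ≤ if z ∈ S then V else 0 := by
        intro z _
        split_ifs with h3 h4 h4
        · exact (fR_VV _ _ _ _ _ _ _ z).trans hVV
        · have h5 : f 0 z = 0 := by
            by_contra h6
            exact h4 (mem_filter.2 ⟨mem_univ _, h6, h3⟩)
          exact le_of_eq h5
        · exact hV0.le
        · exact le_rfl
      refine (Finset.sum_le_sum h2).trans (le_of_eq ?_)
      rw [← Finset.sum_filter, filter_mem_eq_inter, univ_inter, sum_const, nsmul_eq_mul]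
    have hcz : (Fintype.card (ZZ N M) : ℝ) = N * M := by
      rw [Fintype.card_prod, ZMod.card, ZMod.card]
      push_cast
      ring
    have h2 : c1 ≤ (∑ z : ZZ N M, (if b ≤ GR (H := H) f ρ z then f 0 z else 0)) / (N * M) := by
      rw [← hcz]
      refine hav.trans (le_of_eq ?_)
      unfold av
      congr 1
    rw [le_div_iff₀ (by positivity)] at h2
    exact h2.trans h1
  -- the sums of the vectors at a point
  obtain ⟨Sz, hSz⟩ : ∃ Sz : ZZ N M → Finset ℕ, ∀ z, Sz z = (univ.filter fun x : Fin (k + 2) → Pt (bx N M H) =>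
      ∀ a ∈ univ.erase 0, f a (z + ((ρ 0 : ℤ) - (ρ a : ℤ)) • SR x) ≠ 0).image sR := ⟨_, fun _ => rfl⟩
  have hSzc : ∀ z ∈ S, b * H ≤ (Sz z).card * V ^ (k + 1) := by
    intro z hz
    have h1 := (mem_filter.1 hz).2.2
    unfold GR av at h1
    have hcx : (Fintype.card (Fin (k + 2) → Pt (bx N M H)) : ℝ) = (H : ℝ) ^ (k + 2) := by
      rw [Fintype.card_fun, Fintype.card_fin, Fintype.card_coe, bx_card N M H hHM]
      push_cast
      ring
    rw [hcx, le_div_iff₀ (by positivity)] at h1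
    have h2 : ∑ x : Fin (k + 2) → Pt (bx N M H), ∏ a ∈ univ.erase 0, f a (z + ((ρ 0 : ℤ) - (ρ a : ℤ)) • SR x) ≤
        ((univ.filter fun x : Fin (k + 2) → Pt (bx N M H) =>
          ∀ a ∈ univ.erase 0, f a (z + ((ρ 0 : ℤ) - (ρ a : ℤ)) • SR x) ≠ 0).card : ℝ) * V ^ (k + 1) := by
      have h3 : ∀ x ∈ (univ : Finset (Fin (k + 2) → Pt (bx N M H))),
          ∏ a ∈ univ.erase 0, f a (z + ((ρ 0 : ℤ) - (ρ a : ℤ)) • SR x) ≤
          if ∀ a ∈ univ.erase 0, f a (z + ((ρ 0 : ℤ) - (ρ a : ℤ)) • SR x) ≠ 0 then V ^ (k + 1) else 0 := by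
        intro x _
        split_ifs with h4
        · calc ∏ a ∈ univ.erase 0, f a (z + ((ρ 0 : ℤ) - (ρ a : ℤ)) • SR x) ≤ ∏ _a ∈ (univ : Finset (Fin (k + 2))).erase 0, V :=
                prod_le_prod (fun a _ => hfn a _) fun a _ => (fR_VV _ _ _ _ _ _ _ _).trans hVV
            _ = V ^ (k + 1) := by
                rw [prod_const, card_erase_of_mem (mem_univ _), card_univ, Fintype.card_fin]
                rfl
        · push Not at h4
          obtain ⟨a, ha, ha0⟩ := h4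
          exact le_of_eq (Finset.prod_eq_zero ha ha0)
      refine (Finset.sum_le_sum h3).trans (le_of_eq ?_)
      rw [← Finset.sum_filter, sum_const, nsmul_eq_mul]
    have h3 := sR_card hHM (univ.filter fun x : Fin (k + 2) → Pt (bx N M H) =>
          ∀ a ∈ univ.erase 0, f a (z + ((ρ 0 : ℤ) - (ρ a : ℤ)) • SR x) ≠ 0)
    rw [← hSz z] at h3
    have h4 : ((univ.filter fun x : Fin (k + 2) → Pt (bx N M H) =>
          ∀ a ∈ univ.erase 0, f a (z + ((ρ 0 : ℤ) - (ρ a : ℤ)) • SR x) ≠ 0).card : ℝ) ≤ H ^ (k + 1) * (Sz z).card := by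
      exact_mod_cast h3
    have h5 : (H : ℝ) ^ (k + 1) * (b * H) ≤ (H : ℝ) ^ (k + 1) * ((Sz z).card * V ^ (k + 1)) := by
      calc (H : ℝ) ^ (k + 1) * (b * H) = b * (H : ℝ) ^ (k + 2) := by ring
        _ ≤ _ := h1.trans h2
        _ ≤ (H ^ (k + 1) * (Sz z).card) * V ^ (k + 1) := mul_le_mul_of_nonneg_right h4 (by positivity)
        _ = _ := by ring
    exact le_of_mul_le_mul_left h5 (by positivity)
  -- the shifts of the points over `p`
  have hmemS : ∀ z ∈ S, (LR W (ρ 0) N M z).Prime ∧ E ≤ z.2.val ∧ z.2.val + E < M := by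
    intro z hz
    have h1 := (mem_filter.1 hz).2.1
    by_contra h2
    apply h1
    simp only [hf]
    unfold fR
    rw [← hW, if_neg h2]
  have hkey : ∀ z ∈ S, ∀ s ∈ Sz z,
      1 + q * Wp w * (z.2.val + ρ 0 * s) ∈ HPs q (1 + q * Wp w * (M + ρ 0 * ((k + 2) * H))) ρ (LR W (ρ 0) N M z) ∧
      1 ≤ s ∧ s ≤ (k + 2) * H := by
    intro z hz s hs
    rw [hSz z, mem_image] at hs
    obtain ⟨x, hx, rfl⟩ := hs
    have hx2 := (mem_filter.1 hx).2
    have hz2 := hmemS z hz
    have hs1 := sR_le x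
    refine ⟨⟨by omega, ?_, ?_, q * Wp w * (N + z.1.val + sR x), ?_, fun a => ?_⟩, sR_pos x, hs1⟩
    · refine Nat.add_le_add_left (Nat.mul_le_mul_left _ (Nat.add_le_add ?_ (Nat.mul_le_mul_left _ hs1))) _
      exact (ZMod.val_lt z.2).le
    · unfold Nat.ModEq
      rw [mul_assoc q, Nat.add_mul_mod_self_left]
    · unfold LR
      rw [← hW]
      have e1 : ρ 0 * (W * (N + z.1.val + sR x)) = W * ρ 0 * (N + z.1.val) + W * (ρ 0 * sR x) := by ring
      have e2 : 1 + W * (z.2.val + ρ 0 * sR x) = W * z.2.val + 1 + W * (ρ 0 * sR x) := by ring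
      rw [e1, e2, Nat.add_sub_add_right]
    · refine ext_explicit w (Rt t N) q N M E H hq hMN ρ (fun a => (hρ a).1) hE z x hz2.2 a ?_
      by_cases ha : a = 0
      · subst ha
        rw [sub_self, zero_smul, add_zero]
        exact (mem_filter.1 hz).2.1
      · exact hx2 a (mem_erase.2 ⟨ha, mem_univ _⟩)
  obtain ⟨Y, hY⟩ : ∃ Y : ℕ, Y = 1 + q * Wp w * (M + ρ 0 * ((k + 2) * H)) := ⟨_, rfl⟩
  rw [← hY] at hkey ⊢
  have hfib : ∀ p : ℕ, ((S.filter fun z => LR W (ρ 0) N M z = p).card : ℝ) * (b * H) ≤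
      ((k + 2 : ℕ) * H) * ((HPs q Y ρ p).ncard : ℕ) * V ^ (k + 1) := by
    intro p
    obtain ⟨Sp, hSp⟩ : ∃ Sp : Finset (ZZ N M), Sp = S.filter fun z => LR W (ρ 0) N M z = p := ⟨_, rfl⟩
    rw [← hSp]
    have h1 : (Sp.sigma fun z => Sz z).card ≤ ((k + 2) * H) *
        ((Sp.sigma fun z => Sz z).image fun y : (Σ _ : ZZ N M, ℕ) => 1 + q * Wp w * (y.1.2.val + ρ 0 * y.2)).card := by
      refine Finset.card_le_mul_card_image _ _ fun v _ => ?_
      have hIc : (Icc 1 ((k + 2) * H)).card = (k + 2) * H := by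
        rw [Nat.card_Icc]
        omega
      refine le_trans ?_ (le_of_eq hIc)
      refine Finset.card_le_card_of_injOn (fun y => y.2) ?_ ?_
      · intro y hy
        have h2 := (mem_filter.1 (mem_coe.1 hy)).1
        rw [mem_sigma] at h2
        have h3 : y.1 ∈ S := by
          have := h2.1
          rw [hSp] at this
          exact (mem_filter.1 this).1
        have h4 := (hkey y.1 h3 y.2 h2.2).2
        exact mem_coe.2 (mem_Icc.2 h4)
      · intro y hy y' hy' hyy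
        have g1 := mem_filter.1 (mem_coe.1 hy)
        have g2 := mem_filter.1 (mem_coe.1 hy')
        have g3 : y.2 = y'.2 := hyy
        have g4 : 1 + q * Wp w * (y.1.2.val + ρ 0 * y.2) = 1 + q * Wp w * (y'.1.2.val + ρ 0 * y'.2) := g1.2.trans g2.2.symm
        have g5 : y.1.2.val + ρ 0 * y.2 = y'.1.2.val + ρ 0 * y'.2 :=
          Nat.eq_of_mul_eq_mul_left (by rw [← hW]; exact hW1) (Nat.add_left_cancel g4)
        rw [g3] at g5
        have g6 : y.1.2 = y'.1.2 := ZMod.val_injective M (by omega)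
        have g7 := (mem_sigma.1 g1.1).1
        have g8 := (mem_sigma.1 g2.1).1
        rw [hSp] at g7 g8
        have g9 : y.1 = y'.1 := lr_inj hW1 (hρ 0).1 hMN _ _ g6 ((mem_filter.1 g7).2.trans (mem_filter.1 g8).2.symm)
        rcases y with ⟨y1, y2⟩
        rcases y' with ⟨y1', y2'⟩
        simp only at g9 g3
        subst g9
        subst g3
        rfl
    have h2 : ((Sp.sigma fun z => Sz z).image fun y : (Σ _ : ZZ N M, ℕ) => 1 + q * Wp w * (y.1.2.val + ρ 0 * y.2)).card ≤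
        (HPs q Y ρ p).ncard := by
      rw [← Set.ncard_coe_finset]
      refine Set.ncard_le_ncard ?_ (HPs_fin q Y ρ p)
      intro v hv
      rw [mem_coe, mem_image] at hv
      obtain ⟨y, hy, rfl⟩ := hv
      rw [mem_sigma] at hy
      have h3 := hy.1
      rw [hSp] at h3
      have h4 := (hkey y.1 (mem_filter.1 h3).1 y.2 hy.2).1
      rw [(mem_filter.1 h3).2] at h4
      exact h4
    have h3 : (Sp.card : ℝ) * (b * H) ≤ ((Sp.sigma fun z => Sz z).card : ℝ) * V ^ (k + 1) := by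
      rw [card_sigma]
      push_cast
      rw [Finset.sum_mul, ← nsmul_eq_mul]
      refine Finset.card_nsmul_le_sum _ _ _ fun z hz => ?_
      rw [hSp] at hz
      exact hSzc z (mem_filter.1 hz).1
    refine h3.trans (mul_le_mul_of_nonneg_right ?_ (by positivity))
    have h4 := h1.trans (Nat.mul_le_mul_left _ h2)
    exact_mod_cast h4
  -- the primes with many points
  obtain ⟨c', hc'⟩ : ∃ c' : ℝ, c' = c1 / (16 * C * (q * Wp w : ℕ) * cm) := ⟨_, rfl⟩
  rw [← hc']
  have hc'0 : 0 < c' := by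
    rw [hc', ← hW]
    positivity
  obtain ⟨X, hX⟩ : ∃ X : ℕ, X = 2 * (q * Wp w) * cm * N := ⟨_, rfl⟩
  rw [← hX]
  have hNX : N ≤ X := by
    rw [hX, ← hW]
    exact Nat.le_mul_of_pos_left _ (Nat.mul_pos (Nat.mul_pos two_pos hW1) hcm)
  set I : Finset ℕ := S.image (LR W (ρ 0) N M) with hI
  have hIX : ∀ p ∈ I, p ≤ X ∧ p.Prime := by
    intro p hp
    rw [hI, mem_image] at hp
    obtain ⟨z, hz, rfl⟩ := hp
    refine ⟨?_, (hmemS z hz).1⟩
    rw [hX, ← hW]
    unfold LR
    have h3 : z.1.val < N := ZMod.val_lt _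
    calc W * ρ 0 * (N + z.1.val) - (W * z.2.val + 1) ≤ W * ρ 0 * (N + z.1.val) := Nat.sub_le _ _
      _ ≤ W * cm * (2 * N) := Nat.mul_le_mul (Nat.mul_le_mul_left _ (hρ 0).2) (by omega)
      _ = 2 * W * cm * N := by ring
  have hIπ : (I.card : ℝ) ≤ 4 * X / Real.log X := by
    refine le_trans ?_ (pi_le4 X (by omega))
    rw [Nat.primeCounting, Nat.primeCounting', Nat.count_eq_card_filter_range]
    have h1 : I ⊆ (range (X + 1)).filter Nat.Prime := fun p hp =>
      mem_filter.2 ⟨mem_range.2 (Nat.lt_succ_of_le (hIX p hp).1), (hIX p hp).2⟩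
    exact_mod_cast card_le_card h1
  set T : ℕ → ℕ := fun p => (S.filter fun z => LR W (ρ 0) N M z = p).card with hT
  have hTM : ∀ p, T p ≤ M := by
    intro p
    have h1 : ((S.filter fun z => LR W (ρ 0) N M z = p).image Prod.snd).card = T p := by
      refine Finset.card_image_of_injOn fun z hz z' hz' hzz => ?_
      have e1 := (mem_filter.1 (mem_coe.1 hz)).2
      have e2 := (mem_filter.1 (mem_coe.1 hz')).2
      exact lr_inj hW1 (hρ 0).1 hMN z z' hzz (e1.trans e2.symm)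
    rw [← h1]
    calc ((S.filter fun z => LR W (ρ 0) N M z = p).image Prod.snd).card ≤ (univ : Finset (ZMod M)).card :=
          card_le_card (subset_univ _)
      _ = M := by rw [card_univ, ZMod.card]
  have hST : (S.card : ℝ) = ∑ p ∈ I, (T p : ℝ) := by
    rw [Finset.card_eq_sum_card_image (LR W (ρ 0) N M) S]
    push_cast
    rfl
  set P : Finset ℕ := I.filter fun p => c' * M ≤ T p with hP
  have hsplit : (S.card : ℝ) ≤ P.card * M + I.card * (c' * M) := by
    rw [hST]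
    have h1 : ∀ p ∈ I, (T p : ℝ) ≤ (if c' * M ≤ T p then (M : ℝ) else 0) + c' * M := by
      intro p _
      have h2 : (T p : ℝ) ≤ M := by exact_mod_cast hTM p
      have h3 : 0 ≤ c' * M := by positivity
      split_ifs with h4
      · linarith
      · push Not at h4
        linarith
    refine (Finset.sum_le_sum h1).trans (le_of_eq ?_)
    rw [sum_add_distrib, ← Finset.sum_filter, sum_const, sum_const, nsmul_eq_mul, nsmul_eq_mul]
  have hPc : c1 / (2 * C) * N / Real.log N ≤ P.card := by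
    have hlX : Real.log N ≤ Real.log X := Real.log_le_log hN1 (by exact_mod_cast hNX)
    have h1 : (I.card : ℝ) * c' ≤ c1 / (2 * C) * N / Real.log N := by
      have h2 : (4 * X / Real.log X : ℝ) ≤ 4 * X / Real.log N :=
        div_le_div_of_nonneg_left (by positivity) hlN hlX
      have h3 := mul_le_mul_of_nonneg_right (hIπ.trans h2) hc'0.le
      refine h3.trans (le_of_eq ?_)
      rw [hc', hX, ← hW]
      push_cast
      field_simp
      ring
    have h2 : c1 * N / V ≤ P.card + I.card * c' := by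
      rw [div_le_iff₀ hV0]
      have h3 : M * (c1 * N) ≤ M * ((P.card + I.card * c') * V) := by
        calc M * (c1 * N) = c1 * (N * M) := by ring
          _ ≤ S.card * V := hcardS
          _ ≤ (P.card * M + I.card * (c' * M)) * V := mul_le_mul_of_nonneg_right hsplit hV0.le
          _ = _ := by ring
      exact le_of_mul_le_mul_left h3 hM1
    have h3 : c1 * N / V = 2 * (c1 / (2 * C) * N / Real.log N) := by
      rw [hVdef]
      field_simp
    linarith
  refine hPc.trans ?_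
  have hsub : (P : Set ℕ) ⊆ {p : ℕ | p ≤ X ∧ p.Prime ∧
      c' * M * b / ((k + 2) * (C * Real.log N) ^ (k + 1)) ≤ (((HPs q Y ρ p).ncard : ℕ) : ℝ)} := by
    intro p hp
    have h1 := mem_filter.1 (mem_coe.1 hp)
    refine ⟨(hIX p h1.1).1, (hIX p h1.1).2, ?_⟩
    rw [← hVdef, div_le_iff₀ (by positivity)]
    have h2 := hfib p
    have h3 : c' * M * (b * H) ≤ (T p : ℝ) * (b * H) := mul_le_mul_of_nonneg_right h1.2 (by positivity)
    have h4 : H * (c' * M * b) ≤ H * (((HPs q Y ρ p).ncard : ℕ) * ((k + 2) * V ^ (k + 1))) := by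
      calc (H : ℝ) * (c' * M * b) = c' * M * (b * H) := by ring
        _ ≤ _ := h3.trans h2
        _ = _ := by
            push_cast
            ring
    exact le_of_mul_le_mul_left h4 hHr
  have hfin : {p : ℕ | p ≤ X ∧ p.Prime ∧
      c' * M * b / ((k + 2) * (C * Real.log N) ^ (k + 1)) ≤ (((HPs q Y ρ p).ncard : ℕ) : ℝ)}.Finite :=
    (Set.finite_Iic X).subset fun p hp => hp.1
  have h1 := Set.ncard_le_ncard hsub hfin
  rw [Set.ncard_coe_finset] at h1
  exact_mod_cast h1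

end Pool.CS
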