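import Pool.Agent.Lib.MP_c77da8_nt.CS.TestR
import Pool.Agent.Lib.MP_c77da8_nt.CL.GoodY
import Pool.Agent.Lib.MP_c77da8_nt.CG.Count

/-!
# CS-CntR: the counting lemma for row-dependent functions, averaged over the base point

Copy `CL/CntL.lean` with the row functions `ν j`, `f j`, `g j` in place of `ν`, `f`, `g` and `y + ∑ l, a j l • (x l : G)` in place of
`y + b • psi j (cv x)`; `Ind j`: `a j j = 0`, so `x ↦ F (y + ∑ l, a j l • x l)` does not depend on `x j`.  `av_phiR` in place of `av_phiL`.
Constants as there: `Pool.CG.count (Fin (k+2)) (k+2) (e'/4)` gives `η₁, ε₁`; `lfav_good` gives `η`; `ε = ε₁ (e'/4) / (2 (k + 2))`.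
-/

set_option autoImplicit false

namespace Pool.CS

open Finset Pool.CG Pool.CL

private theorem cntr_ind {G : Type} [AddCommGroup G] [Fintype G] {k : ℕ} {D : Finset G} (α : Fin (k + 2) → ℤ)
    (j : Fin (k + 2)) (hα : α j = 0) (F : G → ℝ) (y : G) :
    Ind j (fun x : Fin (k + 2) → Pt D => F (y + ∑ l, α l • (x l : G))) := by
  classical
  intro x v
  show F (y + ∑ l, α l • ((Function.update x j v l : Pt D) : G)) = F (y + ∑ l, α l • (x l : G))
  congr 2
  refine sum_congr rfl fun l _ => ?_
  by_cases hl : l = j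
  · subst hl
    rw [hα, zero_smul, zero_smul]
  · rw [Function.update_of_ne hl]

/-- the test functions of the points `y` with `P y`, and `0` at the other points -/
private theorem cntr_side {G : Type} [AddCommGroup G] [Fintype G] {k : ℕ} {D : Finset G} (α : Fin (k + 2) → ℤ)
    (j : Fin (k + 2)) (F : G → ℝ) (ε : ℝ)
    (hε : ∀ u : G → Fin (k + 2) → (Fin (k + 2) → Pt D) → ℝ, GoodL u →
        |av (fun z : G => F z * phiR α j u z)| ≤ ε)
    (U : G → Fin (k + 2) → (Fin (k + 2) → Pt D) → ℝ) (hU : GoodL U) (P : G → Prop) :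
    |av (fun y : G => open Classical in if P y then av (fun x : Fin (k + 2) → Pt D =>
      F (y + ∑ l, α l • (x l : G)) * ∏ i ∈ univ.erase j, U y i x) else 0)| ≤ ε := by
  classical
  have hne : (univ.erase j : Finset (Fin (k + 2))).Nonempty := by
    rw [← Finset.card_pos, Finset.card_erase_of_mem (mem_univ j), card_univ, Fintype.card_fin]
    omega
  let u : G → Fin (k + 2) → (Fin (k + 2) → Pt D) → ℝ := fun y i x => if P y then U y i x else 0
  have hu : GoodL u := by
    refine ⟨fun y i x => ?_, fun y i => ?_⟩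
    · by_cases h : P y
      · simp only [u, h, if_true]
        exact hU.1 y i x
      · simp only [u, h, if_false]
        exact ⟨le_refl 0, zero_le_one⟩
    · intro x v
      by_cases h : P y
      · simp only [u, h, if_true]
        exact hU.2 y i x v
      · simp only [u, h, if_false]
  have h1 := hε u hu
  rw [av_phiR α j u F] at h1
  have e1 : ∀ y : G, av (fun x : Fin (k + 2) → Pt D => F (y + ∑ l, α l • (x l : G)) * ∏ i ∈ univ.erase j, u y i x) =
      if P y then av (fun x : Fin (k + 2) → Pt D =>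
        F (y + ∑ l, α l • (x l : G)) * ∏ i ∈ univ.erase j, U y i x) else 0 := by
    intro y
    by_cases h : P y
    · simp only [u, h, if_true]
    · simp only [u, h, if_false]
      have h2 : ∀ x : Fin (k + 2) → Pt D,
          F (y + ∑ l, α l • (x l : G)) * ∏ _i ∈ univ.erase j, (0 : ℝ) = 0 := by
        intro x
        obtain ⟨i, hi⟩ := hne
        rw [Finset.prod_eq_zero hi rfl, mul_zero]
      rw [av_congr h2, av_zero]
  rw [av_congr e1] at h1
  exact h1

/-- the measure of the base points where the cut norm is large -/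
private theorem cntr_bad {G : Type} [AddCommGroup G] [Fintype G] {k : ℕ} {D : Finset G} (α : Fin (k + 2) → ℤ)
    (j : Fin (k + 2)) (F : G → ℝ) (ε ε₁ : ℝ) (hε₁ : 0 < ε₁)
    (hε : ∀ u : G → Fin (k + 2) → (Fin (k + 2) → Pt D) → ℝ, GoodL u →
        |av (fun z : G => F z * phiR α j u z)| ≤ ε) :
    av (fun y : G => open Classical in
      if Cut j (fun x : Fin (k + 2) → Pt D => F (y + ∑ l, α l • (x l : G))) ε₁ then (0 : ℝ) else 1) ≤ 2 * ε / ε₁ := by
  classical
  have hex : ∀ y : G, ∃ U : Fin (k + 2) → (Fin (k + 2) → Pt D) → ℝ,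
      (∀ i x, 0 ≤ U i x ∧ U i x ≤ 1) ∧ (∀ i, Ind i (U i)) ∧
      (¬ Cut j (fun x : Fin (k + 2) → Pt D => F (y + ∑ l, α l • (x l : G))) ε₁ →
        ε₁ < |av (fun x : Fin (k + 2) → Pt D => F (y + ∑ l, α l • (x l : G)) * ∏ i ∈ univ.erase j, U i x)|) := by
    intro y
    by_cases h : Cut j (fun x : Fin (k + 2) → Pt D => F (y + ∑ l, α l • (x l : G))) ε₁
    · exact ⟨fun _ _ => 0, fun _ _ => ⟨le_refl 0, zero_le_one⟩, fun i => Ind.const i 0, fun h' => absurd h h'⟩
    · have h' := h
      unfold Cut at h'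
      push Not at h'
      obtain ⟨U, h1, h2, h3⟩ := h'
      exact ⟨U, h1, h2, fun _ => h3⟩
  choose U hU1 hU2 hU3 using hex
  have hU : GoodL U := ⟨hU1, hU2⟩
  set val : G → ℝ := fun y => av (fun x : Fin (k + 2) → Pt D =>
    F (y + ∑ l, α l • (x l : G)) * ∏ i ∈ univ.erase j, U y i x) with hval
  have hp := cntr_side α j F ε hε U hU (fun y => ε₁ < val y)
  have hn := cntr_side α j F ε hε U hU (fun y => val y < -ε₁)
  have hp1 : ε₁ * av (fun y : G => if ε₁ < val y then (1 : ℝ) else 0) ≤ ε := by
    refine le_trans ?_ ((le_abs_self _).trans hp)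
    rw [← av_const_mul]
    refine av_mono fun y => ?_
    by_cases h : ε₁ < val y
    · simp only [h, if_true, mul_one]
      exact h.le
    · simp only [h, if_false, mul_zero]
      exact le_refl 0
  have hn1 : ε₁ * av (fun y : G => if val y < -ε₁ then (1 : ℝ) else 0) ≤ ε := by
    refine le_trans ?_ ((neg_le_abs _).trans hn)
    rw [← av_const_mul, ← av_neg]
    refine av_mono fun y => ?_
    by_cases h : val y < -ε₁
    · simp only [h, if_true, mul_one]
      have h5 : val y < -ε₁ := h
      have h6 : ε₁ ≤ -val y := by linarith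
      exact h6
    · simp only [h, if_false, mul_zero, neg_zero]
      exact le_refl 0
  have hsum : av (fun y : G =>
      if Cut j (fun x : Fin (k + 2) → Pt D => F (y + ∑ l, α l • (x l : G))) ε₁ then (0 : ℝ) else 1) ≤
      av (fun y : G => (if ε₁ < val y then (1 : ℝ) else 0) + if val y < -ε₁ then (1 : ℝ) else 0) := by
    refine av_mono fun y => ?_
    by_cases h : Cut j (fun x : Fin (k + 2) → Pt D => F (y + ∑ l, α l • (x l : G))) ε₁
    · rw [if_pos h]
      have a1 : (0 : ℝ) ≤ (if ε₁ < val y then (1 : ℝ) else 0) := by split_ifs <;> norm_num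
      have a2 : (0 : ℝ) ≤ (if val y < -ε₁ then (1 : ℝ) else 0) := by split_ifs <;> norm_num
      linarith
    · rw [if_neg h]
      have h3 : ε₁ < |val y| := hU3 y h
      rcases lt_abs.1 h3 with h4 | h4
      · have a2 : (0 : ℝ) ≤ (if val y < -ε₁ then (1 : ℝ) else 0) := by split_ifs <;> norm_num
        rw [if_pos h4]
        linarith
      · have a1 : (0 : ℝ) ≤ (if ε₁ < val y then (1 : ℝ) else 0) := by split_ifs <;> norm_num
        have h5 : val y < -ε₁ := by linarith
        rw [if_pos h5]
        linarith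
  refine hsum.trans ?_
  rw [av_add, le_div_iff₀ hε₁]
  nlinarith

theorem cnt_row (k : ℕ) (e' : ℝ) (he' : 0 < e') : ∃ (η ε : ℝ), 0 < η ∧ 0 < ε ∧
    ∀ (G : Type) [AddCommGroup G] [Fintype G] [DecidableEq G] (D : Finset G) (a : Fin (k + 2) → Fin (k + 2) → ℤ)
      (ν f g : Fin (k + 2) → G → ℝ), D.Nonempty → (∀ j, a j j = 0) →
      (∀ j x, 0 ≤ f j x ∧ f j x ≤ ν j x) → (∀ j x, 0 ≤ g j x ∧ g j x ≤ 1) → LFav η (affG (D := D) ν a univ) →
      (∀ (j : Fin (k + 2)) (u : G → Fin (k + 2) → (Fin (k + 2) → Pt D) → ℝ), GoodL u →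
        |av (fun z : G => (f j z - g j z) * phiR (a j) j u z)| ≤ ε) →
      av (fun y : G => av (fun x : Fin (k + 2) → Pt D => ∏ j, g j (y + ∑ l, a j l • (x l : G)))) - e' ≤
        av (fun y : G => av (fun x : Fin (k + 2) → Pt D => ∏ j, f j (y + ∑ l, a j l • (x l : G)))) := by
  classical
  obtain ⟨η₁, ε₁, hη₁, hε₁, hcount⟩ := count (Fin (k + 2)) (k + 2) (e' / 4) (by linarith)
  obtain ⟨η, hη, hgood⟩ := lfav_good (Fin (k + 2)) η₁ (e' / 4) hη₁ (by linarith)
  have hk : (0 : ℝ) < (k : ℝ) + 2 := by positivity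
  refine ⟨η, ε₁ * (e' / 4) / (2 * ((k : ℝ) + 2)), hη, by positivity, ?_⟩
  intro G _ _ _ D a ν f g hD ha hf hg hLF hcut
  have hGn : Nonempty G := ⟨0⟩
  obtain ⟨d, hd⟩ := hD
  have hPn : Nonempty (Fin (k + 2) → Pt D) := ⟨fun _ => ⟨d, hd⟩⟩
  have haffG : ∀ (y : G) (i : Fin (k + 2)) (x : Fin (k + 2) → Pt D),
      affG (D := D) ν a univ y i x = ν i (y + ∑ l, a i l • (x l : G)) := by
    intro y i x
    unfold affG
    rw [if_pos (mem_univ i)]
  -- the bad points
  set IA : G → ℝ := fun y => if LF η₁ (affG (D := D) ν a univ y) then (0 : ℝ) else 1 with hIA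
  set IC : Fin (k + 2) → G → ℝ := fun j y =>
    if Cut j (fun x : Fin (k + 2) → Pt D => (fun z => f j z - g j z) (y + ∑ l, a j l • (x l : G))) ε₁ then (0 : ℝ)
    else 1 with hIC
  have hA : av IA ≤ e' / 4 := hgood G (Pt D) (affG (D := D) ν a univ) hLF
  have hC : ∀ j, av (IC j) ≤ e' / 4 / ((k : ℝ) + 2) := by
    intro j
    have h1 := cntr_bad (a j) j (fun z => f j z - g j z) (ε₁ * (e' / 4) / (2 * ((k : ℝ) + 2))) ε₁ hε₁
      (fun u hu => hcut j u hu)
    refine h1.trans (le_of_eq ?_)
    field_simp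
  have hIA0 : ∀ y, 0 ≤ IA y := fun y => by
    simp only [hIA]
    split_ifs <;> norm_num
  have hIC0 : ∀ j y, 0 ≤ IC j y := fun j y => by
    simp only [hIC]
    split_ifs <;> norm_num
  have hpt : ∀ y : G, av (fun x : Fin (k + 2) → Pt D => ∏ j, g j (y + ∑ l, a j l • (x l : G))) ≤
      av (fun x : Fin (k + 2) → Pt D => ∏ j, f j (y + ∑ l, a j l • (x l : G))) +
        (e' / 4 + (IA y + ∑ j, IC j y)) := by
    intro y
    have hsn : 0 ≤ ∑ j, IC j y := sum_nonneg fun j _ => hIC0 j y
    by_cases hgd : LF η₁ (affG (D := D) ν a univ y) ∧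
        ∀ j, Cut j (fun x : Fin (k + 2) → Pt D => (fun z => f j z - g j z) (y + ∑ l, a j l • (x l : G))) ε₁
    · have h1 := hcount (Pt D) (affG (D := D) ν a univ y)
        (fun j x => f j (y + ∑ l, a j l • (x l : G))) (fun j x => g j (y + ∑ l, a j l • (x l : G))) univ (by simp)
        (fun i x => by
          rw [haffG]
          exact (hf i _).1.trans (hf i _).2)
        (fun i => by
          have h2 := cntr_ind (D := D) (a i) i (ha i) (ν i) y
          intro x v
          rw [haffG, haffG]
          exact h2 x v)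
        hgd.1 (fun i => cntr_ind (a i) i (ha i) (f i) y) (fun i => cntr_ind (a i) i (ha i) (g i) y)
        (fun i x => (hf i _).1)
        (fun i x => by
          unfold nuA
          rw [if_pos (mem_univ i), haffG]
          exact (hf i _).2)
        (fun i x => hg i _) hgd.2
      have h3 := (abs_le.1 h1).1
      have h4 := hIA0 y
      linarith
    · have h5 : 1 ≤ IA y + ∑ j, IC j y := by
        by_cases hL : LF η₁ (affG (D := D) ν a univ y)
        · have h6 : ∃ j, ¬ Cut j (fun x : Fin (k + 2) → Pt D =>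
              (fun z => f j z - g j z) (y + ∑ l, a j l • (x l : G))) ε₁ := by
            by_contra hcon
            push Not at hcon
            exact hgd ⟨hL, hcon⟩
          obtain ⟨j, hj⟩ := h6
          have h7 : IC j y = 1 := by
            simp only [hIC]
            rw [if_neg hj]
          have h8 : IC j y ≤ ∑ j, IC j y := single_le_sum (fun i _ => hIC0 i y) (mem_univ j)
          have h4 := hIA0 y
          linarith
        · have h7 : IA y = 1 := by
            simp only [hIA]
            rw [if_neg hL]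
          linarith
      have h9 : av (fun x : Fin (k + 2) → Pt D => ∏ j, g j (y + ∑ l, a j l • (x l : G))) ≤ 1 :=
        av_le_of_le fun x => prod_le_one (fun i _ => (hg i _).1) (fun i _ => (hg i _).2)
      have h10 : 0 ≤ av (fun x : Fin (k + 2) → Pt D => ∏ j, f j (y + ∑ l, a j l • (x l : G))) :=
        av_nonneg fun x => prod_nonneg fun i _ => (hf i _).1
      linarith
  have hfin := av_mono hpt
  rw [av_add, av_add, av_const, av_add, av_sum] at hfin
  have hs : ∑ j : Fin (k + 2), av (IC j) ≤ e' / 4 := by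
    calc ∑ j : Fin (k + 2), av (IC j) ≤ ∑ _j : Fin (k + 2), e' / 4 / ((k : ℝ) + 2) :=
          sum_le_sum fun j _ => hC j
      _ = e' / 4 := by
          rw [sum_const, card_univ, Fintype.card_fin, nsmul_eq_mul]
          push_cast
          field_simp
  linarith

end Pool.CS
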