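import Pool.Agent.Lib.MP_c77da8_nt.CS.MajR
import Pool.Agent.Lib.MP_c77da8_nt.CG.VBd
import Pool.Agent.Lib.MP_c77da8_nt.CG.RtF

/-!
# CS-CountP: counting primes through the points of `ZZ N M`

Let `S` be the set of the `z` with `f z ≠ 0` and `Q (LR W c N M z)`.  `b ≤ av (if z ∈ S then f z else 0) ≤ VV #S/(N M)` and `VV ≤ C log R ≤ C log N`
(`VV_le`, `Rt_facts`), so `#S ≥ b N M/(C log N)`.  For fixed `z.2` the map `z.1 ↦ LR W c N M z` is injective (`M ≤ N`, no truncation), so
every value is taken at most `M` times: the number of the values `p ≤ 2 W c N` with `Q p` is at least `b N/(C log N)`.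
(`Finset.card_le_mul_card_image`.)
-/

set_option autoImplicit false

namespace Pool.CS

open Finset Pool.CG Pool.CL

private theorem CountP_inj {W c N M : ℕ} [NeZero N] [NeZero M] (hW : 1 ≤ W) (hc : 1 ≤ c) (hM : M ≤ N)
    (z z' : ZZ N M) (h2 : z.2 = z'.2) (h : LR W c N M z = LR W c N M z') : z = z' := by
  have hle : ∀ y : ZZ N M, W * y.2.val + 1 ≤ W * c * (N + y.1.val) := by
    intro y
    have h1 : y.2.val < M := ZMod.val_lt _
    have h3 : W * (y.2.val + 1) ≤ W * (c * (N + y.1.val)) := by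
      refine Nat.mul_le_mul_left _ ?_
      calc y.2.val + 1 ≤ N := by omega
        _ ≤ 1 * (N + y.1.val) := by omega
        _ ≤ c * (N + y.1.val) := Nat.mul_le_mul_right _ hc
    calc W * y.2.val + 1 ≤ W * y.2.val + W := by omega
      _ = W * (y.2.val + 1) := by ring
      _ ≤ W * (c * (N + y.1.val)) := h3
      _ = W * c * (N + y.1.val) := by ring
  have h4 := hle z
  have h5 := hle z'
  unfold LR at h
  rw [← h2] at h h5
  have h6 : W * c * (N + z.1.val) = W * c * (N + z'.1.val) := by omega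
  have h7 : N + z.1.val = N + z'.1.val := Nat.eq_of_mul_eq_mul_left (Nat.mul_pos hW hc) h6
  exact Prod.ext (ZMod.val_injective N (by omega)) h2

private theorem CountP_card {W c N M : ℕ} [NeZero N] [NeZero M] (hW : 1 ≤ W) (hc : 1 ≤ c) (hM : M ≤ N)
    (Q : ℕ → Prop) [DecidablePred Q] :
    (univ.filter fun z : ZZ N M => Q (LR W c N M z)).card ≤ M * {p : ℕ | p ≤ 2 * W * c * N ∧ Q p}.ncard := by
  classical
  set S := univ.filter fun z : ZZ N M => Q (LR W c N M z) with hS
  have h1 : S.card ≤ M * (S.image (LR W c N M)).card := by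
    refine Finset.card_le_mul_card_image _ _ fun a _ => ?_
    have h2 : ((S.filter fun z => LR W c N M z = a).image Prod.snd).card = (S.filter fun z => LR W c N M z = a).card := by
      refine Finset.card_image_of_injOn fun z hz z' hz' hzz => ?_
      have e1 := (Finset.mem_filter.1 (Finset.mem_coe.1 hz)).2
      have e2 := (Finset.mem_filter.1 (Finset.mem_coe.1 hz')).2
      exact CountP_inj hW hc hM z z' hzz (e1.trans e2.symm)
    rw [← h2]
    calc ((S.filter fun z => LR W c N M z = a).image Prod.snd).card ≤ (univ : Finset (ZMod M)).card :=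
          Finset.card_le_card (Finset.subset_univ _)
      _ = M := by rw [Finset.card_univ, ZMod.card]
  refine h1.trans (Nat.mul_le_mul_left _ ?_)
  have hfin : {p : ℕ | p ≤ 2 * W * c * N ∧ Q p}.Finite :=
    (Set.finite_Iic (2 * W * c * N)).subset fun p hp => hp.1
  rw [← Set.ncard_coe_finset]
  refine Set.ncard_le_ncard ?_ hfin
  intro p hp
  rw [Finset.mem_coe, Finset.mem_image] at hp
  obtain ⟨z, hz, rfl⟩ := hp
  refine ⟨?_, (Finset.mem_filter.1 hz).2⟩
  unfold LR
  have h3 : z.1.val < N := ZMod.val_lt _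
  calc W * c * (N + z.1.val) - (W * z.2.val + 1) ≤ W * c * (N + z.1.val) := Nat.sub_le _ _
    _ ≤ W * c * (2 * N) := Nat.mul_le_mul_left _ (by omega)
    _ = 2 * W * c * N := by ring

theorem count_p (t : ℕ) (ht : 1 ≤ t) : ∃ (C : ℝ) (N0 : ℕ), 0 < C ∧ ∀ N ≥ N0, ∀ (w W c M E : ℕ) [NeZero N] [NeZero M],
    1 ≤ w → 1 ≤ W → 1 ≤ c → M ≤ N → ∀ (Q : ℕ → Prop) (b : ℝ),
      b ≤ av (fun z : ZZ N M => open Classical in
        if Q (LR W c N M z) then fR w (Rt t N) W c N M E z else 0) →
      b / C * N / Real.log N ≤ (({p : ℕ | p ≤ 2 * W * c * N ∧ Q p}.ncard : ℕ) : ℝ) := by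
  obtain ⟨C, hC, hV⟩ := VV_le
  obtain ⟨N0, hN0⟩ := Rt_facts t ht
  refine ⟨C, N0, by linarith, ?_⟩
  intro N hN w W c M E _ _ hw hW hc hM Q b hb
  classical
  obtain ⟨hR3, -, -, -, hlog, -⟩ := hN0 N hN
  have hR1 : (1 : ℝ) < (Rt t N : ℝ) := by exact_mod_cast (by omega : 1 < Rt t N)
  have hlN : 0 < Real.log N := lt_of_lt_of_le (Real.log_pos hR1) hlog
  have hC0 : 0 < C := by linarith
  have hVV : VV (vp w (Rt t N)) (Rt t N) ≤ C * Real.log N :=
    (hV w (Rt t N) hw (by omega)).trans (mul_le_mul_of_nonneg_left hlog hC0.le)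
  have hN1 : (0 : ℝ) < (N : ℝ) := by exact_mod_cast Nat.pos_of_ne_zero (NeZero.ne N)
  have hM1 : (0 : ℝ) < (M : ℝ) := by exact_mod_cast Nat.pos_of_ne_zero (NeZero.ne M)
  set V := VV (vp w (Rt t N)) (Rt t N) with hVdef
  set S := univ.filter fun z : ZZ N M => Q (LR W c N M z) with hS
  set T := {p : ℕ | p ≤ 2 * W * c * N ∧ Q p}.ncard with hT
  have hcard : (S.card : ℝ) ≤ M * T := by
    have := CountP_card hW hc hM Q
    exact_mod_cast this
  have hsum : ∑ z : ZZ N M, (if Q (LR W c N M z) then fR w (Rt t N) W c N M E z else 0) ≤ S.card * V := by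
    rw [← Finset.sum_filter, ← nsmul_eq_mul]
    exact Finset.sum_le_card_nsmul _ _ _ fun z _ => fR_VV _ _ _ _ _ _ _ z
  have hcz : (Fintype.card (ZZ N M) : ℝ) = N * M := by
    rw [Fintype.card_prod, ZMod.card, ZMod.card]
    push_cast
    ring
  have hb' : b * (N * M) ≤ S.card * V := by
    have h1 : b ≤ (∑ z : ZZ N M, (if Q (LR W c N M z) then fR w (Rt t N) W c N M E z else 0)) / (N * M) := by
      rw [← hcz]
      refine hb.trans (le_of_eq ?_)
      unfold av
      congr 1
    rw [le_div_iff₀ (by positivity)] at h1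
    exact h1.trans hsum
  have hV0 : 0 ≤ V := by
    refine le_trans ?_ (VV_ge w (Rt t N) hw (by omega))
    exact mul_nonneg (by positivity) (Real.log_nonneg hR1.le)
  have h2 : b * (N * M) ≤ (M * T) * (C * Real.log N) :=
    hb'.trans (mul_le_mul hcard hVV hV0 (by positivity))
  have h3 : b * N ≤ T * (C * Real.log N) := by
    have : M * (b * N) ≤ M * (T * (C * Real.log N)) := by linarith
    exact le_of_mul_le_mul_left this hM1
  rw [div_mul_eq_mul_div, div_div, div_le_iff₀ (by positivity)]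
  linarith

end Pool.CS
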