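import Pool.Agent.Lib.MP_c77da8_nt.CL.Defs

/-!
# CS-Defs: chains of primes `p_(j+1) = m^d p_j + (m^d - 1) h` with one `h` (MP_c77da8_nt), definitions

Board CS-*, helper31.  Paper: `/team-store/CS_paper.md`.

Half R: a relative Szemerédi theorem for functions `f i : G → ℝ` which depend on a row index `i : ι`, with the patterns
`y + ∑_l (c l - c i) x_l` in row `i`, `x_l ∈ D` (local variables).
Half N: `G = ZMod N × ZMod M`, the row with the multiplier `c` is the number `W (c n - z) - 1`, `n = N + z.1`, `z = z.2`.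
-/

set_option autoImplicit false

namespace Pool.CS

open Finset Pool.CG Pool.CL

noncomputable section

/-! ### Half R -/

/-- the weights `ν i` at the forms `y + ∑_l a i l x_l`, `i ∈ J`; `1` for `i ∉ J` -/
def affG {G K : Type} [AddCommGroup G] [Fintype K] [DecidableEq K] {D : Finset G} (ν : K → G → ℝ) (a : K → K → ℤ)
    (J : Finset K) (y : G) (i : K) (x : K → Pt D) : ℝ :=
  if i ∈ J then ν i (y + ∑ l, a i l • (x l : G)) else 1

/-- the matrix of the pattern with the multipliers `c` -/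
def rowm {K : Type} (c : K → ℤ) (i l : K) : ℤ := c l - c i

/-- the local test function for the form with the coefficients `α`, `α j = 0` -/
def phiR {G : Type} [AddCommGroup G] {k : ℕ} {D : Finset G} (α : Fin (k + 2) → ℤ) (j : Fin (k + 2))
    (u : G → Fin (k + 2) → (Fin (k + 2) → Pt D) → ℝ) (z : G) : ℝ :=
  av (fun x : Fin (k + 2) → Pt D => ∏ i ∈ univ.erase j, u (z - ∑ l, α l • (x l : G)) i x)

/-- the coefficients `α` are allowed for the index `j` and the modulus `B` -/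
def Adm {k : ℕ} (B : ℕ) (α : Fin (k + 2) → ℤ) (j : Fin (k + 2)) : Prop :=
  α j = 0 ∧ ∀ i, i ≠ j → α i ≠ 0 ∧ α i ∣ (B : ℤ)

/-- the coefficient of the shift of the coordinate `i` -/
def er {k : ℕ} (B : ℕ) (α : Fin (k + 2) → ℤ) (j i : Fin (k + 2)) : ℤ := if i = j then 0 else (B : ℤ) / α i

/-! ### Half N: affine forms `A n - B` -/

/-- the local densities for the numbers `A i * n - B i` -/
def rhoA {I : Type} (A B : I → ℕ) (p : ℕ) (S : Finset I) : ℝ :=
  open Classical in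
  if S = ∅ then 1 else if ∀ i ∈ S, ∀ j ∈ S, A i * B j ≡ A j * B i [MOD p] then 1 / (p : ℝ) else 0

/-- the sum of `1/p` over the bad primes -/
def badA {I : Type} (A B : I → ℕ) (w R : ℕ) : ℝ :=
  open Classical in
  ∑ p ∈ (Pr w R).filter (fun p => ∃ i j, i ≠ j ∧ A i * B j ≡ A j * B i [MOD p]), 1 / (p : ℝ)

/-- the hypotheses of the linear forms estimate for random affine forms `A i ω * n - B i ω`; `D i j ω = 0` is the exceptional set -/
def AffOK {Ω I : Type} [Fintype Ω] (w H N σ : ℕ) (C P : ℝ) (A B : I → Ω → ℕ) (D : I → I → Ω → ℕ) : Prop :=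
  (∀ i ω, 1 ≤ A i ω ∧ B i ω ≤ A i ω * N) ∧ (∀ i ω (p : ℕ), p.Prime → p ∣ A i ω → p ≤ w) ∧
    ∀ i j, i ≠ j →
      (∀ ω, (D i j ω : ℝ) ≤ Real.exp ((H : ℝ) ^ σ)) ∧
      (∀ ω, D i j ω ≠ 0 → ∀ p : ℕ, p.Prime → w < p → A i ω * B j ω ≡ A j ω * B i ω [MOD p] → p ∣ D i j ω) ∧
      ((univ.filter fun ω => D i j ω = 0).card : ℝ) * P ≤ Fintype.card Ω ∧
      ∀ p : ℕ, p.Prime → w < p → ((univ.filter fun ω => D i j ω ≠ 0 ∧ p ∣ D i j ω).card : ℝ) / Fintype.card Ω ≤
        C * (1 / (orderOf (2 : ZMod p) : ℝ) + 1 / (H : ℝ))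

/-! ### Half N: the rows -/

/-- the base group -/
abbrev ZZ (N M : ℕ) : Type := ZMod N × ZMod M

/-- the number `W (c n - z) - 1`, `n = N + z.1` -/
def LR (W c N M : ℕ) (z : ZZ N M) : ℕ := W * c * (N + z.1.val) - (W * z.2.val + 1)

/-- the majorant in the row `c` -/
def nuR (w R W c N M : ℕ) (z : ZZ N M) : ℝ := nuw w R (LR W c N M z)

/-- the weighted primes in the row `c`, in the inner interval -/
def fR (w R W c N M E : ℕ) (z : ZZ N M) : ℝ :=
  open Classical in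
  if (LR W c N M z).Prime ∧ E ≤ z.2.val ∧ z.2.val + E < M then VV (vp w R) R else 0

/-- the box `{0} × {1, ..., H}` -/
def bx (N M H : ℕ) [NeZero N] [NeZero M] : Finset (ZZ N M) :=
  univ.filter fun x => x.1 = 0 ∧ 1 ≤ x.2.val ∧ x.2.val ≤ H

/-- the sample space of the systems of forms -/
abbrev OmR (N M H : ℕ) [NeZero N] [NeZero M] (J : Type) : Type := ZZ N M × (J → Pt (bx N M H))

/-- the point `y + ∑_l e_l x_l` -/
def ptR {N M H : ℕ} [NeZero N] [NeZero M] {J : Type} [Fintype J] (e : J → ℤ) (ω : OmR N M H J) : ZZ N M :=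
  ω.1 + ∑ l, e l • (ω.2 l : ZZ N M)

/-- the integer `∑_l e_l x_l` -/
def vR {N M H : ℕ} [NeZero N] [NeZero M] {J : Type} [Fintype J] (e : J → ℤ) (x : J → Pt (bx N M H)) : ℤ :=
  ∑ l, e l * ((x l : ZZ N M).2.val : ℤ)

/-- the multiplier `A = W c`, `W = q ∏_(p ≤ w) p` -/
def AR (w q c : ℕ) : ℕ := q * Wp w * c

/-- the constant `B = W z + 1` at the point `z = y + ∑_l e_l x_l` -/
def BR {N M H : ℕ} [NeZero N] [NeZero M] {J : Type} [Fintype J] (w q : ℕ) (e : J → ℤ)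
    (ω : ZMod M × (J → Pt (bx N M H))) : ℕ := q * Wp w * (ω.1 + ((vR e ω.2 : ℤ) : ZMod M)).val + 1

/-- the distance of `A B'` and `A' B`; `0` outside the inner interval -/
def DR {N M H : ℕ} [NeZero N] [NeZero M] {J : Type} [Fintype J] (w q E : ℕ) (c c' : ℕ) (e e' : J → ℤ)
    (ω : ZMod M × (J → Pt (bx N M H))) : ℕ :=
  if E ≤ ω.1.val ∧ ω.1.val + E < M then
    (AR w q c * BR w q e' ω - AR w q c' * BR w q e ω) + (AR w q c' * BR w q e ω - AR w q c * BR w q e' ω) else 0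

/-- the vector sum -/
def SR {k N M H : ℕ} [NeZero N] [NeZero M] (x : Fin (k + 2) → Pt (bx N M H)) : ZZ N M := ∑ l, (x l : ZZ N M)

/-- the weight of the patterns whose member in the row `ρ 0` is `z` -/
def GR {k N M H : ℕ} [NeZero N] [NeZero M] (f : Fin (k + 2) → ZZ N M → ℝ) (ρ : Fin (k + 2) → ℕ) (z : ZZ N M) : ℝ :=
  av (fun x : Fin (k + 2) → Pt (bx N M H) => ∏ a ∈ univ.erase 0, f a (z + ((ρ 0 : ℤ) - (ρ a : ℤ)) • SR x))

/-- the sizes: `H` is the side of the box, `E = Jn * Bc * H` bounds the shifts, `P = (log N)^(9^t + t + 1)` -/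
def SizeOK (t Jn Bc H N M : ℕ) : Prop :=
  4 * Real.log N ^ (9 ^ t + t + 1) ≤ (H : ℝ) ∧ (4 * (Jn * Bc * H) + 4) * H ≤ M ∧ M ≤ H ^ 4 ∧ M ≤ N

/-- the primes counted by the rows theorem: `p = a_0 n - h`, all `a_j n - h` prime, `h ≤ Y`, `h ≡ 1 (mod q)` -/
def GoodP {k : ℕ} (q : ℕ) (Y : ℝ) (a : Fin (k + 2) → ℕ) (p : ℕ) : Prop :=
  ∃ n h : ℕ, 1 ≤ h ∧ (h : ℝ) ≤ Y ∧ h ≡ 1 [MOD q] ∧ p = a 0 * n - h ∧ ∀ j, (a j * n - h).Prime

end

end Pool.CS
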