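import Pool.Agent.Lib.MP_c77da8_nt.CS.Defs
import Pool.Agent.Lib.MP_c77da8_nt.CG.Basic

/-!
# CS-DensR: dense rows (by helper47; the version with weights `ω` on the rows by helper31)

PROOF.  `S x = ∑ x_l`, `T = ∑ c(r l) x_l`: `∑ l, rowm (c ∘ r) a l • x l = T - c(r a) • S x`; for fixed `x` substitute `y ↦ y - T`
(`av_equiv (Equiv.addRight _)`): for every `r`
`av_y av_x ∏_a g (r a) (y + ∑ l, rowm (c ∘ r) a l • x l) = av_x av_y ∏_a g (r a) (y - c (r a) • S x)`.
For `x, y` let `J x y = {i : ι | d / 4 ≤ g i (y - c i • S x)}`.  (Unweighted.)  For fixed `x`: `∑_i g i (y - c i • S x) ≤ #J + (d/4) #ι`, its average over `y` is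
`∑_i av (g i) ≥ d #ι`; as `∑ ≤ #ι` always and `∑ ≤ (d/2) #ι` if `#J < (d/4) #ι`, the measure of the `y` with `#J x y ≥ (d/4) #ι` is `≥ d/2`.
Pigeonhole over the `2^#ι` subsets `A`: for one `A` with `#A ≥ (d/4) #ι` the measure of `{(x, y) : J x y = A}` is `≥ (d/2)/2^#ι`
(`∑_A av_x av_y [J x y = A] [#A ≥ (d/4) #ι] ≥ d/2`).  For this `A` and every `r` with values in `A`, the product is `≥ (d/4)^(k+2)` there.
-/

set_option autoImplicit false

namespace Pool.CS

open Finset Pool.CG Pool.CL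

section

variable {ι G : Type} [Fintype ι] [DecidableEq ι] [AddCommGroup G] [Fintype G]

/-- the rows with a large value -/
private noncomputable def DensR_J (d : ℝ) (c : ι → ℤ) (g : ι → G → ℝ) (S y : G) : Finset ι :=
  open Classical in univ.filter fun i => d / 4 ≤ g i (y - c i • S)

omit [DecidableEq ι] [Fintype G] in
private theorem DensR_mem {d : ℝ} {c : ι → ℤ} {g : ι → G → ℝ} {S y : G} {i : ι} :
    i ∈ DensR_J d c g S y ↔ d / 4 ≤ g i (y - c i • S) := by
  unfold DensR_J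
  rw [mem_filter]
  exact ⟨fun h => h.2, fun h => ⟨mem_univ _, h⟩⟩

open Classical in
private theorem DensR_large (d : ℝ) (hd : 0 < d) (ω : ι → ℝ) (hω : ∀ i, 0 ≤ ω i) (hω1 : 0 < ∑ i, ω i) (c : ι → ℤ)
    (g : ι → G → ℝ)
    (hg : ∀ i z, 0 ≤ g i z ∧ g i z ≤ 1) (hav : ∀ i, d ≤ av (g i)) (S : G) :
    d / 2 ≤ av (fun y : G => if d / 4 * ∑ i, ω i ≤ ∑ i ∈ DensR_J d c g S y, ω i then (1 : ℝ) else 0) := by
  have h1 : ∀ y : G, ∑ i, ω i * g i (y - c i • S) ≤ (∑ i, ω i) *
      (if d / 4 * ∑ i, ω i ≤ ∑ i ∈ DensR_J d c g S y, ω i then (1 : ℝ) else 0) +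
        d / 2 * ∑ i, ω i := by
    intro y
    have h2 : ∑ i, ω i * g i (y - c i • S) ≤ ∑ i ∈ DensR_J d c g S y, ω i + d / 4 * ∑ i, ω i := by
      have h3 : ∀ i ∈ (univ : Finset ι), ω i * g i (y - c i • S) ≤
          (if i ∈ DensR_J d c g S y then ω i else 0) + d / 4 * ω i := by
        intro i _
        have h0 := hω i
        split_ifs with hi
        · have := (hg i (y - c i • S)).2
          nlinarith [mul_nonneg hd.le h0]
        · rw [DensR_mem, not_le] at hi
          nlinarith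
      refine (sum_le_sum h3).trans (le_of_eq ?_)
      rw [sum_add_distrib, ← mul_sum, ← sum_filter, filter_mem_eq_inter, univ_inter]
    split_ifs with hP
    · have h4 : ∑ i, ω i * g i (y - c i • S) ≤ ∑ i, ω i :=
        sum_le_sum fun i _ => mul_le_of_le_one_right (hω i) (hg i (y - c i • S)).2
      have : 0 ≤ d / 2 * ∑ i, ω i := by positivity
      linarith
    · rw [not_le] at hP
      linarith
  have h5 : ∀ i, av (fun y : G => g i (y - c i • S)) = av (g i) := fun i =>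
    av_equiv (Equiv.subRight (c i • S)) (g i)
  have h6 : d * ∑ i, ω i ≤ av (fun y : G => ∑ i, ω i * g i (y - c i • S)) := by
    rw [av_sum, mul_sum]
    refine sum_le_sum fun i _ => ?_
    rw [av_const_mul, h5, mul_comm]
    exact mul_le_mul_of_nonneg_left (hav i) (hω i)
  have : Nonempty G := ⟨0⟩
  have h8 := h6.trans (av_mono h1)
  rw [av_add, av_const_mul, av_const] at h8
  have h9 : d / 2 * ∑ i, ω i ≤ (∑ i, ω i) *
      av (fun y : G => if d / 4 * ∑ i, ω i ≤ ∑ i ∈ DensR_J d c g S y, ω i then (1 : ℝ) else 0) := by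
    linarith
  rw [mul_comm (d / 2)] at h9
  exact le_of_mul_le_mul_left h9 hω1

omit [Fintype ι] [DecidableEq ι] in
private theorem DensR_shift {k : ℕ} (c : ι → ℤ) (D : Finset G) (g : ι → G → ℝ) (r : Fin (k + 2) → ι) :
    av (fun y : G => av (fun x : Fin (k + 2) → Pt D =>
      ∏ a, g (r a) (y + ∑ l, rowm (fun a => c (r a)) a l • (x l : G)))) =
    av (fun x : Fin (k + 2) → Pt D => av (fun y : G =>
      ∏ a, g (r a) (y - c (r a) • ∑ l, (x l : G)))) := by
  rw [av_comm]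
  refine av_congr fun x => ?_
  rw [← av_equiv (Equiv.addRight (∑ l, c (r l) • (x l : G))) (fun y : G =>
    ∏ a, g (r a) (y - c (r a) • ∑ l, (x l : G)))]
  refine av_congr fun y => prod_congr rfl fun a _ => ?_
  congr 1
  rw [Equiv.coe_addRight, smul_sum, add_sub_assoc, ← sum_sub_distrib]
  congr 1
  refine sum_congr rfl fun l _ => ?_
  unfold rowm
  rw [sub_smul]

end

theorem dense_row (k : ℕ) (d : ℝ) (hd : 0 < d) (ι : Type) [Fintype ι] [DecidableEq ι] (ω : ι → ℝ)
    (hω : ∀ i, 0 ≤ ω i) (hω1 : 0 < ∑ i, ω i) (c : ι → ℤ)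
    (G : Type) [AddCommGroup G] [Fintype G] [DecidableEq G] (D : Finset G) (hD : D.Nonempty) (g : ι → G → ℝ)
    (hg : ∀ i z, 0 ≤ g i z ∧ g i z ≤ 1) (hav : ∀ i, d ≤ av (g i)) :
    ∃ A : Finset ι, d / 4 * ∑ i, ω i ≤ ∑ i ∈ A, ω i ∧ ∀ r : Fin (k + 2) → ι, (∀ a, r a ∈ A) →
      (d / 4) ^ (k + 2) * (d / 2 / 2 ^ Fintype.card ι) ≤
        av (fun y : G => av (fun x : Fin (k + 2) → Pt D =>
          ∏ a, g (r a) (y + ∑ l, rowm (fun a => c (r a)) a l • (x l : G)))) := by
  classical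
  have : Nonempty (Pt D) := by
    obtain ⟨x, hx⟩ := hD
    exact ⟨⟨x, hx⟩⟩
  set h : Finset ι → ℝ := fun A => av (fun x : Fin (k + 2) → Pt D => av (fun y : G =>
    if DensR_J d c g (∑ l, (x l : G)) y = A ∧ d / 4 * ∑ i, ω i ≤ ∑ i ∈ A, ω i then (1 : ℝ) else 0)) with hh
  have h1 : ∑ A : Finset ι, h A = av (fun x : Fin (k + 2) → Pt D => av (fun y : G =>
      if d / 4 * ∑ i, ω i ≤ ∑ i ∈ DensR_J d c g (∑ l, (x l : G)) y, ω i then (1 : ℝ) else 0)) := by
    rw [hh, ← av_sum]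
    refine av_congr fun x => ?_
    rw [← av_sum]
    refine av_congr fun y => ?_
    rw [Finset.sum_eq_single (DensR_J d c g (∑ l, (x l : G)) y)]
    · refine if_congr ?_ rfl rfl
      exact ⟨fun hp => hp.2, fun hp => ⟨rfl, hp⟩⟩
    · intro A _ hA
      exact if_neg fun hp => hA hp.1.symm
    · intro hn
      exact absurd (mem_univ _) hn
  have h2 : d / 2 ≤ ∑ A : Finset ι, h A := by
    rw [h1]
    refine le_trans (le_of_eq ?_) (av_mono fun x : Fin (k + 2) → Pt D =>
      DensR_large d hd ω hω hω1 c g hg hav (∑ l, (x l : G)))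
    rw [av_const]
  obtain ⟨A, -, hA⟩ : ∃ A ∈ (univ : Finset (Finset ι)), d / 2 / 2 ^ Fintype.card ι ≤ h A := by
    refine Finset.exists_le_of_sum_le univ_nonempty ?_
    rw [sum_const, card_univ, Fintype.card_finset, nsmul_eq_mul]
    push_cast
    rw [mul_div_cancel₀ _ (by positivity)]
    exact h2
  have hc : d / 4 * ∑ i, ω i ≤ ∑ i ∈ A, ω i := by
    by_contra hn
    have h3 : h A = 0 := by
      rw [hh]
      have h4 : ∀ (x : Fin (k + 2) → Pt D), av (fun y : G =>
          if DensR_J d c g (∑ l, (x l : G)) y = A ∧ d / 4 * ∑ i, ω i ≤ ∑ i ∈ A, ω i then (1 : ℝ)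
            else 0) = 0 := by
        intro x
        refine (av_congr fun y => ?_).trans (av_zero (Ω := G))
        exact if_neg fun hp => hn hp.2
      exact (av_congr h4).trans av_zero
    rw [h3] at hA
    have : 0 < d / 2 / 2 ^ Fintype.card ι := by positivity
    linarith
  refine ⟨A, hc, fun r hr => ?_⟩
  rw [DensR_shift c D g r]
  have h5 : (d / 4) ^ (k + 2) * (d / 2 / 2 ^ Fintype.card ι) ≤ (d / 4) ^ (k + 2) * h A :=
    mul_le_mul_of_nonneg_left hA (by positivity)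
  refine h5.trans ?_
  rw [hh, ← av_const_mul]
  refine av_mono fun x => ?_
  rw [← av_const_mul]
  refine av_mono fun y => ?_
  split_ifs with hp
  · rw [mul_one]
    have h6 : ∀ a ∈ (univ : Finset (Fin (k + 2))), d / 4 ≤ g (r a) (y - c (r a) • ∑ l, (x l : G)) := by
      intro a _
      have h7 := hr a
      rw [← hp.1] at h7
      exact DensR_mem.1 h7
    have h8 := Finset.prod_le_prod (s := (univ : Finset (Fin (k + 2)))) (f := fun _ => d / 4)
      (fun _ _ => by positivity) h6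
    rw [prod_const, card_univ, Fintype.card_fin] at h8
    exact h8
  · rw [mul_zero]
    exact prod_nonneg fun a _ => (hg _ _).1

end Pool.CS
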