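import Pool.Agent.Lib.MP_c77da8_nt.CS.ValR

/-!
# CS-DrA: the distance `DR`

`DR_inner`: in the inner interval `BR w q e ω = W (y + v) + 1` as an integer (`val_add`), and the sum of the two truncated differences of natural numbers is
the absolute value of the integer difference `W c (W (y + v') + 1) - W c' (W (y + v) + 1)`.
`DR_modEq`: if `DR ≠ 0` it is the distance of the two numbers, divisible by `p` if they are congruent (`Nat.modEq_iff_dvd'`).
-/

set_option autoImplicit false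

namespace Pool.CS

open Finset Pool.CG Pool.CL

private theorem DrA_abs (X Y : ℕ) : (((X - Y) + (Y - X) : ℕ) : ℤ) = |(X : ℤ) - (Y : ℤ)| := by
  rcases le_total X Y with h | h
  · rw [Nat.sub_eq_zero_of_le h, Nat.zero_add, Nat.cast_sub h, abs_of_nonpos (by
      have : (X : ℤ) ≤ Y := by exact_mod_cast h
      linarith)]
    ring
  · rw [Nat.sub_eq_zero_of_le h, Nat.add_zero, Nat.cast_sub h, abs_of_nonneg (by
      have : (Y : ℤ) ≤ X := by exact_mod_cast h
      linarith)]

theorem DR_inner {N M H : ℕ} [NeZero N] [NeZero M] {J : Type} [Fintype J] (w q E c c' : ℕ) (e e' : J → ℤ)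
    (ω : ZMod M × (J → Pt (bx N M H))) (h : E ≤ ω.1.val ∧ ω.1.val + E < M) (hv : |vR e ω.2| ≤ (E : ℤ))
    (hv' : |vR e' ω.2| ≤ (E : ℤ)) :
    ((DR w q E c c' e e' ω : ℕ) : ℤ) =
      |((q * Wp w : ℕ) : ℤ) * ((c : ℤ) * (((q * Wp w : ℕ) : ℤ) * ((ω.1.val : ℤ) + vR e' ω.2) + 1) -
        c' * (((q * Wp w : ℕ) : ℤ) * ((ω.1.val : ℤ) + vR e ω.2) + 1))| := by
  have h1 := val_add M E ω.1 h.1 h.2 (vR e ω.2) hv
  have h2 := val_add M E ω.1 h.1 h.2 (vR e' ω.2) hv'
  unfold DR
  rw [if_pos h, DrA_abs]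
  congr 1
  unfold AR BR
  push_cast
  rw [h1, h2]
  ring

theorem DR_modEq {N M H : ℕ} [NeZero N] [NeZero M] {J : Type} [Fintype J] (w q E c c' : ℕ) (e e' : J → ℤ)
    (ω : ZMod M × (J → Pt (bx N M H))) (p : ℕ)
    (hp : AR w q c * BR w q e' ω ≡ AR w q c' * BR w q e ω [MOD p]) : p ∣ DR w q E c c' e e' ω := by
  unfold DR
  split_ifs with h
  · refine dvd_add ?_ ?_
    · rcases le_total (AR w q c * BR w q e' ω) (AR w q c' * BR w q e ω) with h1 | h1
      · rw [Nat.sub_eq_zero_of_le h1]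
        exact dvd_zero _
      · exact (Nat.modEq_iff_dvd' h1).1 hp.symm
    · rcases le_total (AR w q c * BR w q e' ω) (AR w q c' * BR w q e ω) with h1 | h1
      · exact (Nat.modEq_iff_dvd' h1).1 hp
      · rw [Nat.sub_eq_zero_of_le h1]
        exact dvd_zero _
  · exact dvd_zero _

end Pool.CS
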