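import Pool.Agent.Lib.MP_c77da8_nt.CS.Defs
import Pool.Agent.Lib.MP_c77da8_nt.CG.LfC

/-!
# CS-DrB: sizes and prime factors of `AR`, `BR`, `DR`

`Wp w ≥ 1`, its primes are `≤ w` (`Wp_prime_dvd'` of `CG/LfC.lean`).  `BR ≤ W (M - 1) + 1 ≤ W M`.
`DR ≤ AR c BR + AR c' BR ≤ 2 W cm W M ≤ 2 W² cm H^4 ≤ exp H` for `H ≥ H0(w)`.
-/

set_option autoImplicit false

namespace Pool.CS

open Finset Pool.CG Pool.CL

theorem W_pos (w q : ℕ) (hq : 1 ≤ q) : 1 ≤ q * Wp w :=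
  Nat.mul_pos hq (Wp_pos' w)

theorem W_prime (w q : ℕ) (hq : 1 ≤ q) (hqw : q ≤ w) (p : ℕ) (hp : p.Prime) (h : p ∣ q * Wp w) : p ≤ w := by
  rcases (Nat.Prime.dvd_mul hp).mp h with h | h
  · exact le_trans (Nat.le_of_dvd hq h) hqw
  · exact Wp_prime_dvd' w p hp h

theorem AR_prime (w q c : ℕ) (hq : 1 ≤ q) (hqw : q ≤ w) (hc : 1 ≤ c) (hcw : c ≤ w) (p : ℕ) (hp : p.Prime)
    (h : p ∣ AR w q c) : p ≤ w := by
  unfold AR at h
  rcases (Nat.Prime.dvd_mul hp).mp h with h | h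
  · exact W_prime w q hq hqw p hp h
  · exact le_trans (Nat.le_of_dvd hc h) hcw

private theorem DrB_BR_le' {N M H : ℕ} [NeZero N] [NeZero M] {J : Type} [Fintype J] (w q : ℕ) (hq : 1 ≤ q)
    (e : J → ℤ) (ω : ZMod M × (J → Pt (bx N M H))) : BR w q e ω ≤ q * Wp w * M := by
  unfold BR
  have h1 := W_pos w q hq
  have h2 : (ω.1 + ((vR e ω.2 : ℤ) : ZMod M)).val + 1 ≤ M := ZMod.val_lt _
  calc q * Wp w * (ω.1 + ((vR e ω.2 : ℤ) : ZMod M)).val + 1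
      ≤ q * Wp w * (ω.1 + ((vR e ω.2 : ℤ) : ZMod M)).val + q * Wp w := by omega
    _ = q * Wp w * ((ω.1 + ((vR e ω.2 : ℤ) : ZMod M)).val + 1) := by ring
    _ ≤ q * Wp w * M := Nat.mul_le_mul_left _ h2

theorem BR_le {N M H : ℕ} [NeZero N] [NeZero M] {J : Type} [Fintype J] (w q c : ℕ) (hq : 1 ≤ q) (hc : 1 ≤ c) (hMN : M ≤ N)
    (e : J → ℤ) (ω : ZMod M × (J → Pt (bx N M H))) : BR w q e ω ≤ AR w q c * N := by
  refine le_trans (DrB_BR_le' w q hq e ω) ?_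
  unfold AR
  exact Nat.mul_le_mul (Nat.le_mul_of_pos_right _ hc) hMN

private theorem DrB_exp (C : ℝ) : ∃ H0 : ℕ, ∀ H : ℕ, H0 ≤ H → C * (H : ℝ) ^ 4 ≤ Real.exp ((H : ℝ) ^ 1) := by
  have h := Real.tendsto_pow_mul_exp_neg_atTop_nhds_zero 4
  have h2 : Filter.Tendsto (fun n : ℕ => C * ((n : ℝ) ^ 4 * Real.exp (-(n : ℝ)))) Filter.atTop (nhds (C * 0)) :=
    (h.comp tendsto_natCast_atTop_atTop).const_mul C
  rw [mul_zero] at h2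
  obtain ⟨H0, hH0⟩ := Filter.eventually_atTop.mp (h2.eventually (ge_mem_nhds (show (0 : ℝ) < 1 by norm_num)))
  refine ⟨H0, fun H hH => ?_⟩
  have h3 := hH0 H hH
  have h4 : Real.exp (-(H : ℝ)) * Real.exp (H : ℝ) = 1 := by
    rw [← Real.exp_add]; simp
  have h5 := Real.exp_pos (H : ℝ)
  rw [pow_one]
  calc C * (H : ℝ) ^ 4 = (C * ((H : ℝ) ^ 4 * Real.exp (-(H : ℝ)))) * Real.exp (H : ℝ) := by
        rw [mul_assoc, mul_assoc, h4, mul_one]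
    _ ≤ 1 * Real.exp (H : ℝ) := mul_le_mul_of_nonneg_right h3 h5.le
    _ = Real.exp (H : ℝ) := one_mul _

theorem DR_le (w q cm : ℕ) (hq : 1 ≤ q) : ∃ H0 : ℕ, ∀ H ≥ H0, ∀ (N M : ℕ) [NeZero N] [NeZero M], M ≤ H ^ 4 →
    ∀ (J : Type) [Fintype J] (E c c' : ℕ), c ≤ cm → c' ≤ cm → ∀ (e e' : J → ℤ) (ω : ZMod M × (J → Pt (bx N M H))),
      ((DR w q E c c' e e' ω : ℕ) : ℝ) ≤ Real.exp ((H : ℝ) ^ 1) := by
  obtain ⟨H0, hH0⟩ := DrB_exp ((2 * (q * Wp w * cm) * (q * Wp w) : ℕ) : ℝ)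
  refine ⟨H0, ?_⟩
  intro H hH N M _ _ hM J _ E c c' hc hc' e e' ω
  refine le_trans ?_ (hH0 H hH)
  have hA : AR w q c ≤ q * Wp w * cm := Nat.mul_le_mul_left _ hc
  have hA' : AR w q c' ≤ q * Wp w * cm := Nat.mul_le_mul_left _ hc'
  have hB : BR w q e ω ≤ q * Wp w * H ^ 4 := le_trans (DrB_BR_le' w q hq e ω) (Nat.mul_le_mul_left _ hM)
  have hB' : BR w q e' ω ≤ q * Wp w * H ^ 4 := le_trans (DrB_BR_le' w q hq e' ω) (Nat.mul_le_mul_left _ hM)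
  have h1 : AR w q c * BR w q e' ω ≤ (q * Wp w * cm) * (q * Wp w * H ^ 4) := Nat.mul_le_mul hA hB'
  have h2 : AR w q c' * BR w q e ω ≤ (q * Wp w * cm) * (q * Wp w * H ^ 4) := Nat.mul_le_mul hA' hB
  have h3 : DR w q E c c' e e' ω ≤ 2 * (q * Wp w * cm) * (q * Wp w) * H ^ 4 := by
    have h4 : 2 * (q * Wp w * cm) * (q * Wp w) * H ^ 4 =
        (q * Wp w * cm) * (q * Wp w * H ^ 4) + (q * Wp w * cm) * (q * Wp w * H ^ 4) := by ring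
    rw [h4]
    unfold DR
    split_ifs
    · exact Nat.add_le_add (le_trans (Nat.sub_le _ _) h1) (le_trans (Nat.sub_le _ _) h2)
    · exact Nat.zero_le _
  exact_mod_cast h3

end Pool.CS
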