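import Pool.Agent.Lib.MP_c77da8_nt.CS.PairD
import Pool.Agent.Lib.MP_c77da8_nt.CS.DrA
import Pool.Agent.Lib.MP_c77da8_nt.CS.DrB

/-!
# CS-DrD: the distance `DR` for two points in different rows

`E = Jn Bc H`.  For every fixed `x` (second component of `ω`) and `y` in the inner interval `DR = W |c (W (y + v') + 1) - c' (W (y + v) + 1)|` (`DR_inner`); `outer_card`
and `pair_diff`: at most `2 E + 1` of the `y` have `DR = 0`; `(2E + 1) P ≤ M` since `P ≤ H/4`, `(4E + 4) H ≤ M`.  For `p > w`: `p ∤ W`,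
so `p ∣ DR ≠ 0` for at most `M/p + 1` of the `y`, and `(M/p + 1)/M ≤ 1/p + 1/H` as `H ≤ M`.
-/

set_option autoImplicit false

namespace Pool.CS

open Finset Pool.CG Pool.CL

private theorem DrD_fib {A B : Type} [Fintype A] [Fintype B] [DecidableEq B] (Q : A × B → Prop) [DecidablePred Q] (K : ℝ)
    (hK : ∀ x : B, ((univ.filter fun y : A => Q (y, x)).card : ℝ) ≤ K) :
    ((univ.filter Q).card : ℝ) ≤ K * Fintype.card B := by
  have h1 : (univ.filter Q).card = ∑ x : B, ((univ.filter Q).filter fun ω => ω.2 = x).card :=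
    Finset.card_eq_sum_card_fiberwise (f := fun ω : A × B => ω.2) (t := univ) (fun _ _ => mem_univ _)
  have h2 : ∀ x : B, ((univ.filter Q).filter fun ω => ω.2 = x).card ≤ (univ.filter fun y : A => Q (y, x)).card := by
    intro x
    refine Finset.card_le_card_of_injOn (fun ω : A × B => ω.1) ?_ ?_
    · intro ω hω
      rw [mem_coe, mem_filter, mem_filter] at hω
      rw [mem_coe, mem_filter]
      refine ⟨mem_univ _, ?_⟩
      have h3 : ω = (ω.1, x) := by
        rw [← hω.2]
      rw [← h3]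
      exact hω.1.2
    · intro ω hω ω' hω' h
      rw [mem_coe, mem_filter] at hω hω'
      exact Prod.ext h (hω.2.trans hω'.2.symm)
  rw [h1]
  push_cast
  calc ∑ x : B, (((univ.filter Q).filter fun ω => ω.2 = x).card : ℝ) ≤ ∑ _x : B, K := by
        refine Finset.sum_le_sum fun x _ => ?_
        exact le_trans (by exact_mod_cast h2 x) (hK x)
    _ = K * Fintype.card B := by
        rw [Finset.sum_const, Finset.card_univ, nsmul_eq_mul, mul_comm]

theorem dr_diff (w q Jn Bc cm H N M : ℕ) [NeZero N] [NeZero M] (P : ℝ) (hP : 1 ≤ P) (hq : 1 ≤ q) (hw : 2 * Bc + cm + q + 2 ≤ w)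
    (h1 : 4 * P ≤ (H : ℝ)) (h2 : (4 * (Jn * Bc * H) + 4) * H ≤ M) (J : Type) [Fintype J] [DecidableEq J]
    (hJ : Fintype.card J ≤ Jn) (c c' : ℕ) (hc : c ≤ cm) (hc' : c' ≤ cm) (hne : c ≠ c') (e e' : J → ℤ)
    (he : ∀ l, |e l| ≤ (Bc : ℤ)) (he' : ∀ l, |e' l| ≤ (Bc : ℤ)) :
    ((univ.filter fun ω : ZMod M × (J → Pt (bx N M H)) => DR w q (Jn * Bc * H) c c' e e' ω = 0).card : ℝ) * P ≤
        Fintype.card (ZMod M × (J → Pt (bx N M H))) ∧
      ∀ p : ℕ, p.Prime → w < p →
        ((univ.filter fun ω : ZMod M × (J → Pt (bx N M H)) => DR w q (Jn * Bc * H) c c' e e' ω ≠ 0 ∧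
          p ∣ DR w q (Jn * Bc * H) c c' e e' ω).card : ℝ) / Fintype.card (ZMod M × (J → Pt (bx N M H))) ≤
            1 / (p : ℝ) + 1 / (H : ℝ) := by
  have hHr : (4 : ℝ) ≤ (H : ℝ) := by linarith
  have hH4 : 4 ≤ H := by exact_mod_cast hHr
  have hH1 : 1 ≤ H := by omega
  have hHM : H < M := by
    have h3 : 4 * H ≤ (4 * (Jn * Bc * H) + 4) * H := Nat.mul_le_mul_right H (by omega)
    omega
  obtain ⟨E, hE⟩ : ∃ E : ℕ, E = Jn * Bc * H := ⟨_, rfl⟩
  rw [← hE] at h2 ⊢
  have hvE : ∀ x : J → Pt (bx N M H), |vR e x| ≤ (E : ℤ) := by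
    intro x
    rw [hE]
    exact vR_abs Jn Bc hJ e he x
  have hvE' : ∀ x : J → Pt (bx N M H), |vR e' x| ≤ (E : ℤ) := by
    intro x
    rw [hE]
    exact vR_abs Jn Bc hJ e' he' x
  have hout := outer_card M E
  have hW : 1 ≤ q * Wp w := W_pos w q hq
  obtain ⟨W, hWd⟩ : ∃ W : ℕ, W = q * Wp w := ⟨_, rfl⟩
  rw [← hWd] at hW
  have hcard : Fintype.card (ZMod M × (J → Pt (bx N M H))) = M * Fintype.card (J → Pt (bx N M H)) := by
    rw [Fintype.card_prod, ZMod.card]
  obtain ⟨X, hX⟩ : ∃ X : ℕ, X = Fintype.card (J → Pt (bx N M H)) := ⟨_, rfl⟩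
  rw [← hX] at hcard
  have hXpos : 0 < X := by
    rw [hX]
    have : Nonempty (Pt (bx N M H)) := (bx_nonempty N M H hH1 hHM).to_subtype
    exact Fintype.card_pos
  have hMpos : 0 < M := by omega
  have hin : ∀ (y : ZMod M) (x : J → Pt (bx N M H)), (E ≤ y.val ∧ y.val + E < M) →
      ((DR w q E c c' e e' (y, x) : ℕ) : ℤ) =
        |(W : ℤ) * ((c : ℤ) * (W * ((y.val : ℤ) + vR e' x) + 1) - c' * (W * ((y.val : ℤ) + vR e x) + 1))| := by
    intro y x hy
    rw [DR_inner w q E c c' e e' (y, x) hy (hvE x) (hvE' x), ← hWd]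
  have hinp : ∀ (y : ZMod M) (x : J → Pt (bx N M H)), DR w q E c c' e e' (y, x) ≠ 0 → (E ≤ y.val ∧ y.val + E < M) := by
    intro y x hω
    by_contra hno
    exact hω (by unfold DR; rw [if_neg hno])
  have hWz : (W : ℤ) ≠ 0 := by
    have : W ≠ 0 := by omega
    exact_mod_cast this
  have hXr : (0 : ℝ) < X := by exact_mod_cast hXpos
  have hMr : (0 : ℝ) < M := by exact_mod_cast hMpos
  constructor
  · have h3 : ((univ.filter fun ω : ZMod M × (J → Pt (bx N M H)) => DR w q E c c' e e' ω = 0).card : ℝ) ≤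
        (2 * E + 1) * Fintype.card (J → Pt (bx N M H)) := by
      refine DrD_fib _ _ ?_
      intro x
      have hsub : (univ.filter fun y : ZMod M => DR w q E c c' e e' (y, x) = 0) ⊆
          (univ.filter fun y : ZMod M => ¬ (E ≤ y.val ∧ y.val + E < M)) ∪
            (univ.filter fun y : ZMod M => (c : ℤ) * (W * ((y.val : ℤ) + vR e' x) + 1) -
              c' * (W * ((y.val : ℤ) + vR e x) + 1) = 0) := by
        intro y hy
        rw [mem_filter] at hy
        rw [mem_union, mem_filter, mem_filter]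
        by_cases hi : E ≤ y.val ∧ y.val + E < M
        · right
          refine ⟨mem_univ _, ?_⟩
          have h4 := hin y x hi
          rw [hy.2] at h4
          have h5 : (W : ℤ) * ((c : ℤ) * (W * ((y.val : ℤ) + vR e' x) + 1) - c' * (W * ((y.val : ℤ) + vR e x) + 1)) = 0 := by
            rw [← abs_eq_zero, ← h4]
            rfl
          exact (mul_eq_zero.1 h5).resolve_left hWz
        · left
          exact ⟨mem_univ _, hi⟩
      have h4 := (card_le_card hsub).trans (card_union_le _ _)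
      have h5 := (pair_diff M W c c' cm hW hc hc' hne (vR e x) (vR e' x)).1
      have h6 := (Nat.cast_le (α := ℝ)).2 h4
      refine h6.trans ?_
      push_cast
      linarith
    rw [← hX] at h3
    have hP0 : 0 ≤ P := by linarith
    have h2r : (4 * (E : ℝ) + 4) * H ≤ M := by exact_mod_cast h2
    have hE0 : (0 : ℝ) ≤ E := Nat.cast_nonneg _
    rw [hcard]
    push_cast
    have h4 : (2 * (E : ℝ) + 1) * P ≤ M := by
      have h5 : (2 * (E : ℝ) + 1) * (4 * P) ≤ (2 * E + 1) * H := mul_le_mul_of_nonneg_left h1 (by positivity)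
      nlinarith
    calc ((univ.filter fun ω : ZMod M × (J → Pt (bx N M H)) => DR w q E c c' e e' ω = 0).card : ℝ) * P ≤ ((2 * E + 1) * X) * P :=
          mul_le_mul_of_nonneg_right h3 hP0
      _ = ((2 * E + 1) * P) * X := by ring
      _ ≤ M * X := mul_le_mul_of_nonneg_right h4 hXr.le
  · intro p hp hwp
    have hpW : ¬ p ∣ W := by
      intro hdv
      rw [hWd] at hdv
      have := W_prime w q hq (by omega) p hp hdv
      omega
    have hpi : Prime (p : ℤ) := Nat.prime_iff_prime_int.1 hp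
    have h3 : ((univ.filter fun ω : ZMod M × (J → Pt (bx N M H)) => DR w q E c c' e e' ω ≠ 0 ∧
        p ∣ DR w q E c c' e e' ω).card : ℝ) ≤ ((M : ℝ) / p + 1) * Fintype.card (J → Pt (bx N M H)) := by
      refine DrD_fib _ _ ?_
      intro x
      have hsub : (univ.filter fun y : ZMod M => DR w q E c c' e e' (y, x) ≠ 0 ∧ p ∣ DR w q E c c' e e' (y, x)) ⊆
          (univ.filter fun y : ZMod M => (p : ℤ) ∣ (c : ℤ) * (W * ((y.val : ℤ) + vR e' x) + 1) -
              c' * (W * ((y.val : ℤ) + vR e x) + 1)) := by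
        intro y hy
        rw [mem_filter] at hy ⊢
        refine ⟨mem_univ _, ?_⟩
        have h4 := hin y x (hinp y x hy.2.1)
        have h5 : (p : ℤ) ∣ (W : ℤ) * ((c : ℤ) * (W * ((y.val : ℤ) + vR e' x) + 1) - c' * (W * ((y.val : ℤ) + vR e x) + 1)) := by
          rw [← dvd_abs, ← h4]
          exact_mod_cast hy.2.2
        rcases hpi.dvd_or_dvd h5 with h6 | h6
        · exact absurd (by exact_mod_cast h6) hpW
        · exact h6
      have h5 := (pair_diff M W c c' cm hW hc hc' hne (vR e x) (vR e' x)).2 p hp (by omega) hpW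
      exact le_trans (by exact_mod_cast card_le_card hsub) h5
    rw [← hX] at h3
    have hp0 : (0 : ℝ) < p := by exact_mod_cast hp.pos
    have hH0 : (0 : ℝ) < H := by exact_mod_cast hH1
    rw [hcard, div_le_iff₀ (by exact_mod_cast Nat.mul_pos hMpos hXpos)]
    refine h3.trans ?_
    push_cast
    have h4 : (1 : ℝ) ≤ M * (1 / H) := by
      rw [mul_one_div, le_div_iff₀ hH0, one_mul]
      exact_mod_cast hHM.le
    have h5 : (M : ℝ) / p + 1 ≤ (1 / p + 1 / H) * M := by
      have h6 : (M : ℝ) / p = (1 / p) * M := by ring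
      rw [h6, add_mul]
      linarith
    calc ((M : ℝ) / p + 1) * X ≤ ((1 / p + 1 / H) * M) * X := mul_le_mul_of_nonneg_right h5 hXr.le
      _ = (1 / p + 1 / H) * (M * X) := by ring

end Pool.CS
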