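import Pool.Agent.Lib.MP_c77da8_nt.CS.Defs

/-!
# CS-ValR: representatives of the points `y + ∑ e_l x_l`

`bx_card`: `x ↦ x.2.val` is a bijection from `bx N M H` to `{1, ..., H}` (`H < M`).
`vR_abs`: `0 ≤ x.2.val ≤ H`.  `ptR_snd`: in `bx` the first coordinate is `0`; `(x.2.val : ZMod M) = x.2` (`ZMod.natCast_zmod_val`).
`val_add`: for `E ≤ y.val`, `y.val + E < M`, `|v| ≤ E`: `((y + v : ZMod M).val : ℤ) = y.val + v` (`ZMod.val_intCast`, `Int.emod_eq_of_lt`).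
-/

set_option autoImplicit false

namespace Pool.CS

open Finset Pool.CG Pool.CL

theorem bx_card (N M H : ℕ) [NeZero N] [NeZero M] (hH : H < M) : (bx N M H).card = H := by
  classical
  have h : (bx N M H).card = (Finset.Icc 1 H).card := by
    refine Finset.card_nbij' (fun x => x.2.val) (fun n => ((0 : ZMod N), (n : ZMod M))) ?_ ?_ ?_ ?_
    · intro x hx
      have hx' : x.1 = 0 ∧ 1 ≤ x.2.val ∧ x.2.val ≤ H := by simpa [bx] using hx
      simpa using hx'.2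
    · intro n hn
      have hn' : 1 ≤ n ∧ n ≤ H := by simpa using hn
      have hv : ((n : ZMod M)).val = n := ZMod.val_natCast_of_lt (by omega)
      simp [bx, hv, hn']
    · intro x hx
      have hx' : x.1 = 0 ∧ 1 ≤ x.2.val ∧ x.2.val ≤ H := by simpa [bx] using hx
      ext1
      · exact hx'.1.symm
      · exact ZMod.natCast_zmod_val x.2
    · intro n hn
      have hn' : 1 ≤ n ∧ n ≤ H := by simpa using hn
      exact ZMod.val_natCast_of_lt (by omega)
  rw [h, Nat.card_Icc]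
  omega

private theorem ValR_mem {N M H : ℕ} [NeZero N] [NeZero M] (x : Pt (bx N M H)) :
    (x : ZZ N M).1 = 0 ∧ (x : ZZ N M).2.val ≤ H := by
  have h' : (x : ZZ N M).1 = 0 ∧ 1 ≤ (x : ZZ N M).2.val ∧ (x : ZZ N M).2.val ≤ H :=
    (Finset.mem_filter.1 x.2).2
  exact ⟨h'.1, h'.2.2⟩

theorem bx_nonempty (N M H : ℕ) [NeZero N] [NeZero M] (h1 : 1 ≤ H) (hH : H < M) : (bx N M H).Nonempty := by
  rw [← Finset.card_pos, bx_card N M H hH]
  omega

theorem vR_abs {N M H : ℕ} [NeZero N] [NeZero M] {J : Type} [Fintype J] (Jn Bc : ℕ) (hJ : Fintype.card J ≤ Jn)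
    (e : J → ℤ) (he : ∀ l, |e l| ≤ (Bc : ℤ)) (x : J → Pt (bx N M H)) : |vR e x| ≤ ((Jn * Bc * H : ℕ) : ℤ) := by
  unfold vR
  calc |∑ l, e l * ((x l : ZZ N M).2.val : ℤ)| ≤ ∑ l, |e l * ((x l : ZZ N M).2.val : ℤ)| :=
        Finset.abs_sum_le_sum_abs _ _
    _ ≤ ∑ _l : J, (Bc : ℤ) * (H : ℤ) := by
        refine Finset.sum_le_sum fun l _ => ?_
        rw [abs_mul, Nat.abs_cast]
        have h1 := (ValR_mem (x l)).2
        have h2 : (((x l : ZZ N M).2.val : ℕ) : ℤ) ≤ (H : ℤ) := by exact_mod_cast h1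
        exact mul_le_mul (he l) h2 (by positivity) (by positivity)
    _ = (Fintype.card J : ℤ) * ((Bc : ℤ) * (H : ℤ)) := by
        rw [Finset.sum_const, Finset.card_univ, nsmul_eq_mul]
    _ ≤ ((Jn * Bc * H : ℕ) : ℤ) := by
        push_cast
        rw [mul_assoc]
        have h3 : (Fintype.card J : ℤ) ≤ (Jn : ℤ) := by exact_mod_cast hJ
        exact mul_le_mul_of_nonneg_right h3 (by positivity)

theorem ptR_eq {N M H : ℕ} [NeZero N] [NeZero M] {J : Type} [Fintype J] (e : J → ℤ) (ω : OmR N M H J) :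
    ptR e ω = (ω.1.1, ω.1.2 + ((vR e ω.2 : ℤ) : ZMod M)) := by
  unfold ptR vR
  ext1
  · rw [Prod.fst_add, Prod.fst_sum]
    have h : ∑ l, (e l • (ω.2 l : ZZ N M)).1 = 0 := by
      refine Finset.sum_eq_zero fun l _ => ?_
      rw [Prod.smul_fst, (ValR_mem (ω.2 l)).1, smul_zero]
    rw [h, add_zero]
  · rw [Prod.snd_add, Prod.snd_sum]
    have h : ∑ l, (e l • (ω.2 l : ZZ N M)).2 =
        ((∑ l, e l * ((ω.2 l : ZZ N M).2.val : ℤ) : ℤ) : ZMod M) := by
      rw [Int.cast_sum]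
      refine Finset.sum_congr rfl fun l _ => ?_
      rw [Prod.smul_snd, Int.cast_mul, Int.cast_natCast, ZMod.natCast_zmod_val, zsmul_eq_mul]
    rw [h]

theorem val_add (M E : ℕ) [NeZero M] (y : ZMod M) (h1 : E ≤ y.val) (h2 : y.val + E < M) (v : ℤ) (hv : |v| ≤ (E : ℤ)) :
    ((y + ((v : ℤ) : ZMod M)).val : ℤ) = (y.val : ℤ) + v := by
  have h3 := abs_le.1 hv
  have h4 : y + ((v : ℤ) : ZMod M) = (((y.val : ℤ) + v : ℤ) : ZMod M) := by
    rw [Int.cast_add, Int.cast_natCast, ZMod.natCast_zmod_val]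
  rw [h4, ZMod.val_intCast]
  refine Int.emod_eq_of_lt ?_ ?_
  · have : (E : ℤ) ≤ (y.val : ℤ) := by exact_mod_cast h1
    linarith [h3.1]
  · have : (y.val : ℤ) + (E : ℤ) < (M : ℤ) := by exact_mod_cast h2
    linarith [h3.2]

end Pool.CS
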