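import Pool.Agent.Lib.MP_c77da8_nt.CS.UniR
import Pool.Agent.Lib.MP_c77da8_nt.CS.ValR

/-!
# CS-PairD: two points in different rows; the outer interval

`outer_card`: the `y : ZMod M` with `y.val < E` or `y.val + E ≥ M` are at most `2 E`.
`pair_diff`: for fixed integers `v, v'` and `c ≠ c'`: `c (W (y + v') + 1) - c' (W (y + v) + 1) = W (c - c') y + const`; `y.val` runs through
`{0, ..., M - 1}`; `uni_dvd` with `s = 0`, `H = M`: `p ∤ W (c - c')` (`p ∤ W` and `0 < |c - c'| ≤ cm < p`), and `uni_zero`.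
(The `y : ZMod M` are counted through the injection `y ↦ y.val`.)
-/

set_option autoImplicit false

namespace Pool.CS

open Finset Pool.CG Pool.CL

private theorem PairD_card (M : ℕ) [NeZero M] (P : ℕ → Prop) [DecidablePred P] (Q : ZMod M → Prop) [DecidablePred Q]
    (s : Finset ℕ) (h : ∀ y : ZMod M, Q y → P y.val ∧ y.val ∈ s) :
    (univ.filter Q).card ≤ (s.filter P).card := by
  refine Finset.card_le_card_of_injOn (fun y : ZMod M => y.val) ?_ ?_
  · intro y hy
    have hy' : Q y := by simpa using hy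
    have := h y hy'
    simp only [Finset.coe_filter, Set.mem_setOf_eq]
    exact ⟨this.2, this.1⟩
  · intro y _ y' _ hyy
    exact ZMod.val_injective M hyy

theorem outer_card (M E : ℕ) [NeZero M] :
    ((univ.filter fun y : ZMod M => ¬ (E ≤ y.val ∧ y.val + E < M)).card : ℝ) ≤ 2 * E := by
  have h : (univ.filter fun y : ZMod M => ¬ (E ≤ y.val ∧ y.val + E < M)).card ≤
      ((range E ∪ Finset.Ico (M - E) M).filter fun _ => True).card := by
    refine PairD_card M (fun _ => True) _ _ ?_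
    intro y hy
    have hlt := ZMod.val_lt y
    refine ⟨trivial, ?_⟩
    rw [Finset.mem_union, Finset.mem_range, Finset.mem_Ico]
    by_cases h1 : y.val < E
    · exact Or.inl h1
    · right
      have h2 : ¬ (y.val + E < M) := fun h3 => hy ⟨by omega, h3⟩
      omega
  have h2 : ((range E ∪ Finset.Ico (M - E) M).filter fun _ => True).card ≤ 2 * E := by
    rw [Finset.filter_true_of_mem (fun _ _ => trivial)]
    refine (Finset.card_union_le _ _).trans ?_
    rw [Finset.card_range, Nat.card_Ico]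
    omega
  exact_mod_cast h.trans h2

theorem pair_diff (M W c c' cm : ℕ) [NeZero M] (hW : 1 ≤ W) (hc : c ≤ cm) (hc' : c' ≤ cm) (hne : c ≠ c') (v v' : ℤ) :
    ((univ.filter fun y : ZMod M => (c : ℤ) * (W * ((y.val : ℤ) + v') + 1) - c' * (W * ((y.val : ℤ) + v) + 1) = 0).card : ℝ) ≤ 1 ∧
      ∀ p : ℕ, p.Prime → cm < p → ¬ p ∣ W →
        ((univ.filter fun y : ZMod M =>
          (p : ℤ) ∣ (c : ℤ) * (W * ((y.val : ℤ) + v') + 1) - c' * (W * ((y.val : ℤ) + v) + 1)).card : ℝ) ≤ (M : ℝ) / p + 1 := by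
  have hcc : (c : ℤ) - c' ≠ 0 := by
    intro h
    apply hne
    omega
  have ha : (W : ℤ) * ((c : ℤ) - c') ≠ 0 := mul_ne_zero (by exact_mod_cast (by omega : W ≠ 0)) hcc
  have hexp : ∀ y : ZMod M, (c : ℤ) * (W * ((y.val : ℤ) + v') + 1) - c' * (W * ((y.val : ℤ) + v) + 1) =
      (W : ℤ) * ((c : ℤ) - c') * ((y.val : ℕ) : ℤ) + ((c : ℤ) * (W * v' + 1) - c' * (W * v + 1)) := by
    intro y
    ring
  constructor
  · have h1 : (univ.filter fun y : ZMod M =>
        (c : ℤ) * (W * ((y.val : ℤ) + v') + 1) - c' * (W * ((y.val : ℤ) + v) + 1) = 0).card ≤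
        ((range M).filter fun x : ℕ => (W : ℤ) * ((c : ℤ) - c') * (x : ℤ) +
          ((c : ℤ) * (W * v' + 1) - c' * (W * v + 1)) = 0).card := by
      refine PairD_card M _ _ _ ?_
      intro y hy
      exact ⟨by rw [← hexp]; exact hy, Finset.mem_range.mpr (ZMod.val_lt y)⟩
    have h2 := h1.trans (uni_zero _ ((c : ℤ) * (W * v' + 1) - c' * (W * v + 1)) ha (range M))
    exact_mod_cast h2
  · intro p hp hpc hpW
    have hpa : ¬ (p : ℤ) ∣ (W : ℤ) * ((c : ℤ) - c') := by
      intro hd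
      rcases (Nat.prime_iff_prime_int.mp hp).dvd_or_dvd hd with h1 | h1
      · exact hpW (by exact_mod_cast h1)
      · apply hcc
        refine Int.eq_zero_of_abs_lt_dvd h1 ?_
        rw [abs_lt]
        constructor <;> omega
    have h1 : (univ.filter fun y : ZMod M =>
        (p : ℤ) ∣ (c : ℤ) * (W * ((y.val : ℤ) + v') + 1) - c' * (W * ((y.val : ℤ) + v) + 1)).card ≤
        ((Finset.Ico 0 (0 + M)).filter fun x : ℕ => (p : ℤ) ∣ (W : ℤ) * ((c : ℤ) - c') * (x : ℤ) +
          ((c : ℤ) * (W * v' + 1) - c' * (W * v + 1))).card := by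
      refine PairD_card M _ _ _ ?_
      intro y hy
      refine ⟨by rw [← hexp]; exact hy, Finset.mem_Ico.mpr ⟨Nat.zero_le _, ?_⟩⟩
      rw [Nat.zero_add]
      exact ZMod.val_lt y
    have h2 := uni_dvd p hp _ ((c : ℤ) * (W * v' + 1) - c' * (W * v + 1)) hpa 0 M
    refine le_trans ?_ h2
    exact_mod_cast h1

end Pool.CS
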