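import Pool.Agent.Lib.MP_c77da8_nt.CS.PairS
import Pool.Agent.Lib.MP_c77da8_nt.CS.PairD
import Pool.Agent.Lib.MP_c77da8_nt.CS.DrA
import Pool.Agent.Lib.MP_c77da8_nt.CS.DrB

/-!
# CS-DrS: the distance `DR` for two points in the same row

`E = Jn Bc H`.  In the inner interval `DR = W² c |v' - v|` (`DR_inner`, `c' = c`), so `DR = 0` iff `v = v'` (inner), and for `p > w` (`w ≥ 2 Bc, q, cm`):
`p ∣ DR` iff `p ∣ v' - v`.  The number of the `ω` with `DR ω = 0` is at most `2 E #X + M #X / H` (`outer_card`, `pair_same`), `#Ω = M #X`;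
times `P`: `2 E P/M ≤ 1/8` and `P/H ≤ 1/4` (`P ≤ H/4`, `(4E + 4) H ≤ M`).
-/

set_option autoImplicit false

namespace Pool.CS

open Finset Pool.CG Pool.CL

private theorem DrS_fst {A B : Type} [Fintype A] [Fintype B] (Q : A → Prop) [DecidablePred Q] :
    (univ.filter fun ω : A × B => Q ω.1).card = (univ.filter Q).card * Fintype.card B := by
  have h : (univ.filter fun ω : A × B => Q ω.1) = (univ.filter Q) ×ˢ (univ : Finset B) := by
    ext ω
    simp only [mem_filter, mem_univ, true_and, mem_product, and_true]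
  rw [h, card_product, card_univ]

private theorem DrS_snd {A B : Type} [Fintype A] [Fintype B] (Q : B → Prop) [DecidablePred Q] :
    (univ.filter fun ω : A × B => Q ω.2).card = Fintype.card A * (univ.filter Q).card := by
  have h : (univ.filter fun ω : A × B => Q ω.2) = (univ : Finset A) ×ˢ (univ.filter Q) := by
    ext ω
    simp only [mem_filter, mem_univ, true_and, mem_product]
  rw [h, card_product, card_univ]

theorem dr_same (w q Jn Bc cm H N M : ℕ) [NeZero N] [NeZero M] (P : ℝ) (hP : 1 ≤ P) (hq : 1 ≤ q) (hw : 2 * Bc + cm + q + 2 ≤ w)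
    (h1 : 4 * P ≤ (H : ℝ)) (h2 : (4 * (Jn * Bc * H) + 4) * H ≤ M) (J : Type) [Fintype J] [DecidableEq J]
    (hJ : Fintype.card J ≤ Jn) (c : ℕ) (hc : 1 ≤ c) (hc' : c ≤ cm) (e e' : J → ℤ) (he : ∀ l, |e l| ≤ (Bc : ℤ))
    (he' : ∀ l, |e' l| ≤ (Bc : ℤ)) (hne : e ≠ e') :
    ((univ.filter fun ω : ZMod M × (J → Pt (bx N M H)) => DR w q (Jn * Bc * H) c c e e' ω = 0).card : ℝ) * P ≤
        Fintype.card (ZMod M × (J → Pt (bx N M H))) ∧
      ∀ p : ℕ, p.Prime → w < p →
        ((univ.filter fun ω : ZMod M × (J → Pt (bx N M H)) => DR w q (Jn * Bc * H) c c e e' ω ≠ 0 ∧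
          p ∣ DR w q (Jn * Bc * H) c c e e' ω).card : ℝ) / Fintype.card (ZMod M × (J → Pt (bx N M H))) ≤
            1 / (p : ℝ) + 1 / (H : ℝ) := by
  have hHr : (4 : ℝ) ≤ (H : ℝ) := by linarith
  have hH4 : 4 ≤ H := by exact_mod_cast hHr
  have hH1 : 1 ≤ H := by omega
  have hHM : H < M := by
    have h3 : 4 * H ≤ (4 * (Jn * Bc * H) + 4) * H := Nat.mul_le_mul_right H (by omega)
    omega
  obtain ⟨E, hE⟩ : ∃ E : ℕ, E = Jn * Bc * H := ⟨_, rfl⟩
  rw [← hE] at h2 ⊢
  have hvE : ∀ ω : ZMod M × (J → Pt (bx N M H)), |vR e ω.2| ≤ (E : ℤ) := by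
    intro ω
    rw [hE]
    exact vR_abs Jn Bc hJ e he ω.2
  have hvE' : ∀ ω : ZMod M × (J → Pt (bx N M H)), |vR e' ω.2| ≤ (E : ℤ) := by
    intro ω
    rw [hE]
    exact vR_abs Jn Bc hJ e' he' ω.2
  obtain ⟨hz, hd⟩ := pair_same N M H Bc hH1 hHM J e e' he he' hne
  have hout := outer_card M E
  have hW : 1 ≤ q * Wp w := W_pos w q hq
  obtain ⟨W, hWd⟩ : ∃ W : ℕ, W = q * Wp w := ⟨_, rfl⟩
  rw [← hWd] at hW
  have hcard : Fintype.card (ZMod M × (J → Pt (bx N M H))) = M * Fintype.card (J → Pt (bx N M H)) := by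
    rw [Fintype.card_prod, ZMod.card]
  obtain ⟨X, hX⟩ : ∃ X : ℕ, X = Fintype.card (J → Pt (bx N M H)) := ⟨_, rfl⟩
  rw [← hX] at hz hd hcard
  have hXpos : 0 < X := by
    rw [hX]
    have : Nonempty (Pt (bx N M H)) := (bx_nonempty N M H hH1 hHM).to_subtype
    exact Fintype.card_pos
  have hMpos : 0 < M := by omega
  have hin : ∀ ω : ZMod M × (J → Pt (bx N M H)), (E ≤ ω.1.val ∧ ω.1.val + E < M) →
      ((DR w q E c c e e' ω : ℕ) : ℤ) = |(W : ℤ) * W * c * (vR e' ω.2 - vR e ω.2)| := by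
    intro ω hω
    rw [DR_inner w q E c c e e' ω hω (hvE ω) (hvE' ω), ← hWd]
    congr 1
    ring
  have hinp : ∀ ω : ZMod M × (J → Pt (bx N M H)), DR w q E c c e e' ω ≠ 0 → (E ≤ ω.1.val ∧ ω.1.val + E < M) := by
    intro ω hω
    by_contra hno
    exact hω (by unfold DR; rw [if_neg hno])
  have hWz : (W : ℤ) ≠ 0 := by
    have : W ≠ 0 := by omega
    exact_mod_cast this
  have hcz : (c : ℤ) ≠ 0 := by
    have : c ≠ 0 := by omega
    exact_mod_cast this
  constructor
  · have hsub : (univ.filter fun ω : ZMod M × (J → Pt (bx N M H)) => DR w q E c c e e' ω = 0) ⊆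
        (univ.filter fun ω : ZMod M × (J → Pt (bx N M H)) => ¬ (E ≤ ω.1.val ∧ ω.1.val + E < M)) ∪
          (univ.filter fun ω : ZMod M × (J → Pt (bx N M H)) => vR e ω.2 = vR e' ω.2) := by
      intro ω hω
      rw [mem_filter] at hω
      rw [mem_union, mem_filter, mem_filter]
      by_cases hi : E ≤ ω.1.val ∧ ω.1.val + E < M
      · right
        refine ⟨mem_univ _, ?_⟩
        have h3 := hin ω hi
        rw [hω.2] at h3
        have h4 : (W : ℤ) * W * c * (vR e' ω.2 - vR e ω.2) = 0 := by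
          rw [← abs_eq_zero, ← h3]
          rfl
        have h5 : vR e' ω.2 - vR e ω.2 = 0 := by
          rcases mul_eq_zero.1 h4 with h6 | h6
          · rcases mul_eq_zero.1 h6 with h7 | h7
            · exact absurd (mul_self_eq_zero.1 h7) hWz
            · exact absurd h7 hcz
          · exact h6
        linarith
      · left
        exact ⟨mem_univ _, hi⟩
    have h3 := card_le_card hsub
    have h4 := h3.trans (card_union_le _ _)
    rw [DrS_fst (A := ZMod M) (B := J → Pt (bx N M H)) (fun y : ZMod M => ¬ (E ≤ y.val ∧ y.val + E < M)),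
      DrS_snd (A := ZMod M) (B := J → Pt (bx N M H)) (fun x => vR e x = vR e' x), ZMod.card, ← hX] at h4
    have h5 : ((univ.filter fun ω : ZMod M × (J → Pt (bx N M H)) => DR w q E c c e e' ω = 0).card : ℝ) ≤
        2 * E * X + M * ((univ.filter fun x : J → Pt (bx N M H) => vR e x = vR e' x).card : ℝ) := by
      have h6 := (Nat.cast_le (α := ℝ)).2 h4
      refine h6.trans ?_
      push_cast
      have : ((univ.filter fun y : ZMod M => ¬ (E ≤ y.val ∧ y.val + E < M)).card : ℝ) * X ≤ 2 * E * X :=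
        mul_le_mul_of_nonneg_right hout (Nat.cast_nonneg _)
      linarith
    have h2r : (4 * (E : ℝ) + 4) * H ≤ M := by exact_mod_cast h2
    obtain ⟨Z, hZ⟩ : ∃ Z : ℝ, Z = ((univ.filter fun x : J → Pt (bx N M H) => vR e x = vR e' x).card : ℝ) := ⟨_, rfl⟩
    rw [← hZ] at h5 hz
    have hZ0 : 0 ≤ Z := by rw [hZ]; exact Nat.cast_nonneg _
    have hX0 : (0 : ℝ) ≤ X := Nat.cast_nonneg _
    have hE0 : (0 : ℝ) ≤ E := Nat.cast_nonneg _
    have hM0 : (0 : ℝ) ≤ M := Nat.cast_nonneg _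
    have hP0 : 0 ≤ P := by linarith
    rw [hcard]
    push_cast
    have e1 : Z * P ≤ X / 4 := by
      have : Z * (4 * P) ≤ Z * H := mul_le_mul_of_nonneg_left h1 hZ0
      linarith
    have e2 : 2 * (E : ℝ) * P ≤ M / 2 := by
      have : (E : ℝ) * (4 * P) ≤ E * H := mul_le_mul_of_nonneg_left h1 hE0
      have h7 : (E : ℝ) * H ≤ M := by nlinarith
      linarith
    calc ((univ.filter fun ω : ZMod M × (J → Pt (bx N M H)) => DR w q E c c e e' ω = 0).card : ℝ) * P ≤ (2 * E * X + M * Z) * P :=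
          mul_le_mul_of_nonneg_right h5 hP0
      _ = (2 * E * P) * X + M * (Z * P) := by ring
      _ ≤ (M / 2) * X + M * (X / 4) := add_le_add (mul_le_mul_of_nonneg_right e2 hX0) (mul_le_mul_of_nonneg_left e1 hM0)
      _ ≤ M * X := by nlinarith [mul_nonneg hM0 hX0]
  · intro p hp hwp
    have hpW : ¬ p ∣ W := by
      intro hdv
      rw [hWd] at hdv
      have := W_prime w q hq (by omega) p hp hdv
      omega
    have hpc : ¬ p ∣ c := by
      intro hdv
      have := Nat.le_of_dvd (by omega) hdv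
      omega
    have hpi : Prime (p : ℤ) := Nat.prime_iff_prime_int.1 hp
    have hsub : (univ.filter fun ω : ZMod M × (J → Pt (bx N M H)) => DR w q E c c e e' ω ≠ 0 ∧ p ∣ DR w q E c c e e' ω) ⊆
        (univ.filter fun ω : ZMod M × (J → Pt (bx N M H)) => (p : ℤ) ∣ vR e ω.2 - vR e' ω.2) := by
      intro ω hω
      rw [mem_filter] at hω ⊢
      refine ⟨mem_univ _, ?_⟩
      have h3 := hin ω (hinp ω hω.2.1)
      have h4 : (p : ℤ) ∣ (W : ℤ) * W * c * (vR e' ω.2 - vR e ω.2) := by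
        rw [← dvd_abs, ← h3]
        exact_mod_cast hω.2.2
      have h5 : (p : ℤ) ∣ vR e' ω.2 - vR e ω.2 := by
        rcases hpi.dvd_or_dvd h4 with h6 | h6
        · rcases hpi.dvd_or_dvd h6 with h7 | h7
          · rcases hpi.dvd_or_dvd h7 with h8 | h8
            · exact absurd (by exact_mod_cast h8) hpW
            · exact absurd (by exact_mod_cast h8) hpW
          · exact absurd (by exact_mod_cast h7) hpc
        · exact h6
      rw [← neg_sub]
      exact (dvd_neg).2 h5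
    have h3 := card_le_card hsub
    rw [DrS_snd (A := ZMod M) (B := J → Pt (bx N M H)) (fun x => (p : ℤ) ∣ vR e x - vR e' x), ZMod.card] at h3
    have h4 := hd p hp (by omega)
    rw [hcard, div_le_iff₀ (by exact_mod_cast Nat.mul_pos hMpos hXpos)]
    have h6 := (Nat.cast_le (α := ℝ)).2 h3
    refine h6.trans ?_
    push_cast
    have hM0 : (0 : ℝ) ≤ M := Nat.cast_nonneg _
    have h5 := mul_le_mul_of_nonneg_left h4 hM0
    refine h5.trans (le_of_eq ?_)
    ring

end Pool.CS
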