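import Pool.Agent.Lib.MP_c77da8_nt.CS.MajR
import Pool.Agent.Lib.MP_c77da8_nt.CS.ValR

/-!
# CS-ExtR: from a pattern to primes `a_j n - h`

`W = q Wp w`, `s = ∑ (x l).2.val` (`≤ (k+2) H`), `n' = N + z.1.val`, `z2 = z.2.val`.  `fR ≠ 0` at `z + (ρ 0 - ρ a) • SR x` for all `a`; for `a = 0` this is `z`, so
`E ≤ z2`, `z2 + E < M`; `(SR x).1 = 0`, `(SR x).2 = (s : ZMod M)`; by `val_add` (`|(ρ 0 - ρ a) s| ≤ E`) the second coordinate has the
representative `z2 + (ρ 0 - ρ a) s`.  With `n = W (n' + s)`, `h = 1 + W (z2 + ρ 0 s)`: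
`ρ a n - h = W ρ a n' - (W (z2 + (ρ 0 - ρ a) s) + 1) = LR` at this point (no truncation: `W ρ a n' ≥ W N ≥ W M ≥ W (z2 + ..) + 1`), a prime.
-/

set_option autoImplicit false

namespace Pool.CS

open Finset Pool.CG Pool.CL

private theorem extR_mem {N M H : ℕ} [NeZero N] [NeZero M] (x : Pt (bx N M H)) :
    (x : ZZ N M).1 = 0 ∧ (x : ZZ N M).2.val ≤ H := by
  have h := x.2
  unfold bx at h
  rw [Finset.mem_filter] at h
  exact ⟨h.2.1, h.2.2.2⟩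

private theorem extR_SR {k N M H : ℕ} [NeZero N] [NeZero M] (x : Fin (k + 2) → Pt (bx N M H)) :
    (SR x).1 = 0 ∧ (SR x).2 = ((∑ l, ((x l : ZZ N M).2.val) : ℕ) : ZMod M) := by
  unfold SR
  rw [Prod.fst_sum, Prod.snd_sum, Nat.cast_sum]
  refine ⟨Finset.sum_eq_zero fun l _ => (extR_mem (x l)).1, Finset.sum_congr rfl fun l _ => ?_⟩
  exact (ZMod.natCast_zmod_val _).symm

private theorem extR_sum_le {k N M H : ℕ} [NeZero N] [NeZero M] (x : Fin (k + 2) → Pt (bx N M H)) :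
    (∑ l, ((x l : ZZ N M).2.val)) ≤ (k + 2) * H := by
  calc (∑ l, ((x l : ZZ N M).2.val)) ≤ ∑ _l : Fin (k + 2), H := Finset.sum_le_sum fun l _ => (extR_mem (x l)).2
    _ = (k + 2) * H := by rw [Finset.sum_const, Finset.card_univ, Fintype.card_fin, smul_eq_mul]

private theorem extR_fR {w R W c N M E : ℕ} {z : ZZ N M} (h : fR w R W c N M E z ≠ 0) :
    (LR W c N M z).Prime ∧ E ≤ z.2.val ∧ z.2.val + E < M := by
  unfold fR at h
  by_contra hc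
  rw [if_neg hc] at h
  exact h rfl

theorem ext_rows {k : ℕ} (w R q N M E H : ℕ) [NeZero N] [NeZero M] (hq : 1 ≤ q) (hMN : M ≤ N) (ρ : Fin (k + 2) → ℕ)
    (hρ : ∀ a, 1 ≤ ρ a) (hE : ∀ a, |(ρ 0 : ℤ) - ρ a| * ((k + 2) * H : ℕ) ≤ (E : ℤ)) (z : ZZ N M)
    (x : Fin (k + 2) → Pt (bx N M H))
    (h : ∀ a, fR w R (q * Wp w) (ρ a) N M E (z + ((ρ 0 : ℤ) - (ρ a : ℤ)) • SR x) ≠ 0) :
    GoodP q (1 + (q * Wp w : ℕ) * (M + ρ 0 * ((k + 2) * H) : ℕ)) ρ (LR (q * Wp w) (ρ 0) N M z) := by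
  obtain ⟨s, hs⟩ : ∃ s : ℕ, s = ∑ l, ((x l : ZZ N M).2.val) := ⟨_, rfl⟩
  have hsle : s ≤ (k + 2) * H := by rw [hs]; exact extR_sum_le x
  have hS := extR_SR x
  rw [← hs] at hS
  have h0 := extR_fR (h 0)
  rw [sub_self, zero_smul, add_zero] at h0
  have hzM : z.2.val < M := ZMod.val_lt z.2
  -- the point in the row `a`
  have hpt : ∀ a, (z + ((ρ 0 : ℤ) - (ρ a : ℤ)) • SR x).1 = z.1 ∧
      ((z + ((ρ 0 : ℤ) - (ρ a : ℤ)) • SR x).2.val : ℤ) = (z.2.val : ℤ) + ((ρ 0 : ℤ) - (ρ a : ℤ)) * s := by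
    intro a
    constructor
    · rw [Prod.fst_add, Prod.smul_fst, hS.1, smul_zero, add_zero]
    · rw [Prod.snd_add, Prod.smul_snd, hS.2]
      have e1 : ((ρ 0 : ℤ) - (ρ a : ℤ)) • ((s : ℕ) : ZMod M) = ((((ρ 0 : ℤ) - (ρ a : ℤ)) * (s : ℤ) : ℤ) : ZMod M) := by
        rw [zsmul_eq_mul, Int.cast_mul, Int.cast_natCast]
      rw [e1]
      refine val_add M E z.2 h0.2.1 h0.2.2 _ ?_
      rw [abs_mul, Nat.abs_cast]
      refine le_trans ?_ (hE a)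
      refine mul_le_mul_of_nonneg_left ?_ (abs_nonneg _)
      exact_mod_cast hsle
  refine ⟨q * Wp w * (N + z.1.val + s), 1 + q * Wp w * (z.2.val + ρ 0 * s), Nat.le_add_right _ _, ?_, ?_, ?_, ?_⟩
  · have e2 : 1 + q * Wp w * (z.2.val + ρ 0 * s) ≤ 1 + q * Wp w * (M + ρ 0 * ((k + 2) * H)) := by gcongr
    calc ((1 + q * Wp w * (z.2.val + ρ 0 * s) : ℕ) : ℝ) ≤ ((1 + q * Wp w * (M + ρ 0 * ((k + 2) * H)) : ℕ) : ℝ) := by
          exact_mod_cast e2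
      _ = _ := by push_cast; ring
  · unfold Nat.ModEq
    rw [mul_assoc, Nat.add_mul_mod_self_left]
  · unfold LR
    have e3 : ρ 0 * (q * Wp w * (N + z.1.val + s)) = q * Wp w * ρ 0 * (N + z.1.val) + q * Wp w * ρ 0 * s := by ring
    have e4 : 1 + q * Wp w * (z.2.val + ρ 0 * s) = (q * Wp w * z.2.val + 1) + q * Wp w * ρ 0 * s := by ring
    rw [e3, e4, Nat.add_sub_add_right]
  · intro j
    have hj := extR_fR (h j)
    obtain ⟨hp1, hp2⟩ := hpt j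
    have e5 : (z + ((ρ 0 : ℤ) - (ρ j : ℤ)) • SR x).2.val + ρ j * s = z.2.val + ρ 0 * s := by
      have : (((z + ((ρ 0 : ℤ) - (ρ j : ℤ)) • SR x).2.val + ρ j * s : ℕ) : ℤ) = ((z.2.val + ρ 0 * s : ℕ) : ℤ) := by
        push_cast
        rw [hp2]
        ring
      exact_mod_cast this
    have e6 : ρ j * (q * Wp w * (N + z.1.val + s)) = q * Wp w * ρ j * (N + z.1.val) + q * Wp w * ρ j * s := by ring
    have e7 : 1 + q * Wp w * (z.2.val + ρ 0 * s) =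
        (q * Wp w * (z + ((ρ 0 : ℤ) - (ρ j : ℤ)) • SR x).2.val + 1) + q * Wp w * ρ j * s := by
      rw [← e5]; ring
    rw [e6, e7, Nat.add_sub_add_right]
    have h1 := hj.1
    unfold LR at h1
    rw [hp1] at h1
    exact h1

/-- a point with positive weight gives a good prime -/
theorem ext_point {k : ℕ} (w R q N M E H : ℕ) [NeZero N] [NeZero M] (hq : 1 ≤ q) (hMN : M ≤ N) (ρ : Fin (k + 2) → ℕ)
    (hρ : ∀ a, 1 ≤ ρ a) (hE : ∀ a, |(ρ 0 : ℤ) - ρ a| * ((k + 2) * H : ℕ) ≤ (E : ℤ)) (z : ZZ N M)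
    (h : 0 < fR w R (q * Wp w) (ρ 0) N M E z * GR (H := H) (fun a => fR w R (q * Wp w) (ρ a) N M E) ρ z) :
    GoodP q (1 + (q * Wp w : ℕ) * (M + ρ 0 * ((k + 2) * H) : ℕ)) ρ (LR (q * Wp w) (ρ 0) N M z) := by
  have hf : 0 ≤ fR w R (q * Wp w) (ρ 0) N M E z := fR_nonneg w R (q * Wp w) (ρ 0) N M E z
  have hf0 : fR w R (q * Wp w) (ρ 0) N M E z ≠ 0 := by
    intro h0
    rw [h0, zero_mul] at h
    exact lt_irrefl _ h
  have hG : GR (H := H) (fun a => fR w R (q * Wp w) (ρ a) N M E) ρ z ≠ 0 := by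
    intro h0
    rw [h0, mul_zero] at h
    exact lt_irrefl _ h
  obtain ⟨x, hx⟩ : ∃ x : Fin (k + 2) → Pt (bx N M H), (∏ a ∈ univ.erase 0,
      fR w R (q * Wp w) (ρ a) N M E (z + ((ρ 0 : ℤ) - (ρ a : ℤ)) • SR x)) ≠ 0 := by
    by_contra hc
    push Not at hc
    apply hG
    unfold GR av
    rw [Finset.sum_eq_zero fun x _ => hc x, zero_div]
  refine ext_rows w R q N M E H hq hMN ρ hρ hE z x fun a => ?_
  by_cases ha : a = 0
  · subst ha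
    rw [sub_self, zero_smul, add_zero]
    exact hf0
  · exact Finset.prod_ne_zero_iff.mp hx a (Finset.mem_erase.mpr ⟨ha, Finset.mem_univ a⟩)

end Pool.CS
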