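import Pool.Agent.Lib.MP_c77da8_nt.CS.LfDA
import Pool.Agent.Lib.MP_c77da8_nt.CS.LfCA
import Pool.Agent.Lib.MP_c77da8_nt.CG.LfGen

/-!
# CS-LfAA: the linear forms estimate for random affine forms

Sum of `lfA_dist` and `lfA_coin` (with `η/2`); copy `CL/LfA.lean` (`lf_abs`).
-/

set_option autoImplicit false

namespace Pool.CS

open Finset Pool.CG Pool.CL

theorem lfA_abs (t σ : ℕ) (ht : 1 ≤ t) (C η : ℝ) (hC : 0 ≤ C) (hη : 0 < η) :
    ∃ w0 H0 N0 : ℕ, ∀ w ≥ w0, ∀ H ≥ H0, ∀ N ≥ N0, ∀ (Ω : Type) [Fintype Ω] [Nonempty Ω] (I : Type) [Fintype I]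
      [DecidableEq I], Fintype.card I ≤ t → ∀ (A B : I → Ω → ℕ) (D : I → I → Ω → ℕ),
      AffOK w H N σ C (Real.log N ^ (9 ^ t + t + 1)) A B D →
      |av (fun ω => (∑ n ∈ Ico N (2 * N), ∏ i, nuw w (Rt t N) (A i ω * n - B i ω)) / N) - 1| ≤ η := by
  obtain ⟨w1, H1, N1, h1⟩ := lfA_dist t σ ht C (η / 2) hC (by positivity)
  obtain ⟨N2, h2⟩ := lfA_coin t σ ht C (η / 2) (by positivity)
  refine ⟨max w1 1, H1, max N1 N2, fun w hw H hH N hN Ω _ _ I _ _ hI A B D hA => ?_⟩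
  have e1 := h1 w ((le_max_left _ _).trans hw) H hH N ((le_max_left _ _).trans hN) Ω I hI A B D hA
  have e2 := h2 N ((le_max_right _ _).trans hN) w H ((le_max_right _ _).trans hw) Ω I hI A B D hA
  set X : Ω → ℝ := fun ω => (∑ n ∈ Ico N (2 * N), ∏ i, nuw w (Rt t N) (A i ω * n - B i ω)) / N with hX
  have hX0 : ∀ ω, 0 ≤ X ω := fun ω => div_nonneg
    (Finset.sum_nonneg fun n _ => Finset.prod_nonneg fun i _ => nuw_nonneg _ _ _) (Nat.cast_nonneg _)
  have e3 : av X - 1 = av (fun ω => X ω - 1) := by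
    rw [av_sub, av_const]
  rw [e3]
  classical
  calc |av (fun ω => X ω - 1)| ≤ av (fun ω =>
        (if (∀ i j, i ≠ j → D i j ω ≠ 0) then |X ω - 1| else 0) +
          (if (∀ i j, i ≠ j → D i j ω ≠ 0) then 0 else X ω + 1)) := by
        refine abs_av_le_of fun ω => ?_
        split_ifs
        · rw [add_zero]
        · rw [zero_add, abs_le]
          have := hX0 ω
          constructor <;> linarith
    _ = av (fun ω => if (∀ i j, i ≠ j → D i j ω ≠ 0) then |X ω - 1| else 0) +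
        av (fun ω => if (∀ i j, i ≠ j → D i j ω ≠ 0) then 0 else X ω + 1) := av_add _ _
    _ ≤ η / 2 + η / 2 := by
        refine add_le_add ?_ ?_
        · convert e1 using 3
        · convert e2 using 3
    _ = η := by ring

end Pool.CS
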