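import Pool.Agent.Lib.MP_c77da8_nt.CS.PairR
import Pool.Agent.Lib.MP_c77da8_nt.CS.LfAA

/-!
# CS-SysR: the linear forms estimate for systems of forms in the rows

`lfA_abs t 1 ht 1 η`, `affok_rows`.  The average over `ω : OmR N M H J = (ZMod N × ZMod M) × (J → Pt)` is the average over
`ω' = (ω.1.2, ω.2)` of the average over `ω.1.1 : ZMod N` (`av_prod`, `av_comm`, `av_equiv`), and by `ptR_eq`
`LR (q * Wp w) (ρ i) N M (ptR (e i) ω) = AR w q (ρ i) * (N + ω.1.1.val) - BR w q (e i) ω'`; the average over `a : ZMod N` of `F (N + a.val)` is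
`(∑ n ∈ Ico N (2 * N), F n) / N` (bijection `a ↦ N + a.val`).  `card J ≤ Jn`; the type of `ω'` is not empty (`bx_nonempty`).
-/

set_option autoImplicit false

namespace Pool.CS

open Finset Pool.CG Pool.CL

theorem av_zmod (N : ℕ) [NeZero N] (F : ℕ → ℝ) :
    av (fun a : ZMod N => F (N + a.val)) = (∑ n ∈ Ico N (2 * N), F n) / N := by
  unfold av
  rw [ZMod.card]
  congr 1
  refine Finset.sum_bij (fun (a : ZMod N) _ => N + a.val) ?_ ?_ ?_ ?_
  · intro a _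
    have := ZMod.val_lt a
    rw [Finset.mem_Ico]
    omega
  · intro a _ b _ h
    exact ZMod.val_injective N (by omega)
  · intro n hn
    rw [Finset.mem_Ico] at hn
    refine ⟨((n - N : ℕ) : ZMod N), Finset.mem_univ _, ?_⟩
    rw [ZMod.val_natCast_of_lt (by omega)]
    omega
  · intro a _
    rfl

private theorem SysR_av {N M H : ℕ} [NeZero N] [NeZero M] {J : Type} [Fintype J] [DecidableEq J]
    (F : OmR N M H J → ℝ) (G : ℕ → ZMod M × (J → Pt (bx N M H)) → ℝ)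
    (hFG : ∀ (a : ZMod N) (b : ZMod M) (x : J → Pt (bx N M H)), F ((a, b), x) = G (N + a.val) (b, x)) :
    av F = av (fun ω : ZMod M × (J → Pt (bx N M H)) => (∑ n ∈ Ico N (2 * N), G n ω) / N) := by
  rw [← av_equiv (Equiv.prodAssoc (ZMod N) (ZMod M) (J → Pt (bx N M H))).symm F, av_prod, av_comm]
  congr 1
  funext ω
  rw [← av_zmod N (fun n => G n ω)]
  congr 1
  funext a
  exact hFG a ω.1 ω.2

theorem lf_rows (t Bc Jn cm q : ℕ) (ht : 1 ≤ t) (hq : 1 ≤ q) (η : ℝ) (hη : 0 < η) :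
    ∃ w0 : ℕ, ∀ w ≥ w0, ∃ H0 N0 : ℕ, ∀ H ≥ H0, ∀ N ≥ N0, ∀ (M : ℕ) [NeZero N] [NeZero M], SizeOK t Jn Bc H N M →
      ∀ (I J : Type) [Fintype I] [DecidableEq I] [Fintype J] [DecidableEq J], Fintype.card I ≤ t → Fintype.card J ≤ Jn →
      ∀ (ρ : I → ℕ) (e : I → J → ℤ), (∀ i, 1 ≤ ρ i ∧ ρ i ≤ cm) → (∀ i l, |e i l| ≤ (Bc : ℤ)) →
        (∀ i j, i ≠ j → ρ i ≠ ρ j ∨ e i ≠ e j) →
        |av (fun ω : OmR N M H J => ∏ i, nuR w (Rt t N) (q * Wp w) (ρ i) N M (ptR (e i) ω)) - 1| ≤ η := by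
  obtain ⟨w1, H1, N1, h1⟩ := lfA_abs t 1 ht 1 η zero_le_one hη
  obtain ⟨w2, h2⟩ := affok_rows t Bc Jn cm q hq
  refine ⟨max w1 w2, fun w hw => ?_⟩
  obtain ⟨H2, h3⟩ := h2 w ((le_max_right _ _).trans hw)
  refine ⟨max (max H1 H2) 1, max N1 3, ?_⟩
  intro H hH N hN M _ _ hS I J _ _ _ _ hI hJ ρ e hρ he hne
  have hH1 : H1 ≤ H := ((le_max_left _ _).trans (le_max_left _ _)).trans hH
  have hH2 : H2 ≤ H := ((le_max_right _ _).trans (le_max_left _ _)).trans hH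
  have hH3 : 1 ≤ H := (le_max_right _ _).trans hH
  have hN1 : N1 ≤ N := (le_max_left _ _).trans hN
  have hN3 : 3 ≤ N := (le_max_right _ _).trans hN
  have hlog : 1 ≤ Real.log N := by
    rw [Real.le_log_iff_exp_le (by positivity)]
    have h4 : Real.exp 1 < 3 := Real.exp_one_lt_three
    have h5 : (3 : ℝ) ≤ N := by exact_mod_cast hN3
    linarith
  have hHM : H < M := by
    have h4 := hS.2.1
    have h5 : 4 * H ≤ (4 * (Jn * Bc * H) + 4) * H := Nat.mul_le_mul_right _ (by omega)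
    omega
  have hA := h3 H hH2 N M hS hlog I J hJ ρ e hρ he hne
  have hne' : Nonempty (ZMod M × (J → Pt (bx N M H))) := by
    obtain ⟨x, hx⟩ := bx_nonempty N M H hH3 hHM
    exact ⟨(0, fun _ => ⟨x, hx⟩)⟩
  have h6 := h1 w ((le_max_left _ _).trans hw) H hH1 N hN1 (ZMod M × (J → Pt (bx N M H))) I hI _ _ _ hA
  rw [SysR_av (fun ω : OmR N M H J => ∏ i, nuR w (Rt t N) (q * Wp w) (ρ i) N M (ptR (e i) ω))
    (fun n ω => ∏ i, nuw w (Rt t N) (AR w q (ρ i) * n - BR w q (e i) ω)) ?_]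
  · exact h6
  · intro a b x
    refine Finset.prod_congr rfl fun i _ => ?_
    rw [ptR_eq]
    rfl

end Pool.CS
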