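import Pool.Agent.Lib.MP_c77da8_nt.CS.MajR
import Pool.Agent.Lib.MP_c77da8_nt.CS.SysR
import Pool.Agent.Lib.MP_c77da8_nt.CG.As2

/-!
# CS-FirstR: the first moment of the weighted primes in a row

`W = q Wp w`, `w ≥ q`, `w ≥ 2`: the primes of `W` are the primes `≤ w`, so `W/φ(W) = Wp w/φ(Wp w)` (copy `As2_ratio`, `As2_pf` of `CG/As2.lean`).
`count_primes W` (file `CG/PnN.lean`) with `A = W` and `c N` in place of `N`: at least `(W/φ(W)) c N/(8 log(c N)) ≥ (W/φ(W)) c N/(9 log N)` of the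
`y ∈ [c N, 2 c N)` have `W y - 1` prime; at most `M ≤ √N` of them are `≥ 2 c N - M`, so `≥ (W/φ(W)) c N/(10 log N)` are `< 2 c N - M`.
For every such `y` the number of the `v` with `E ≤ v < M - E`, `c ∣ y + v` is at least `(M - 2E)/c - 1 ≥ M/(2c)` (`8 E ≤ M`, `M ≥ M0 = 4 cm`), and then
`n = (y + v)/c ∈ [N, 2N)`, `LR = W (c n - v) - 1 = W y - 1`.  So `∑_(z : ZZ N M) fR ≥ VV (W/φ(W)) N M/(20 log N)`,
and `VV ≥ (φ(Wp w)/Wp w) log N/(32 t)` (`VV_ge`, `Rt_facts`).  `z = (n - N, v)`.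
-/

set_option autoImplicit false

namespace Pool.CS

open Finset Pool.CG Pool.CL

private lemma FirstR_ratio (A W : ℕ) (hA : 0 < A) (hW : 0 < W) (h : A.primeFactors = W.primeFactors) :
    (A : ℝ) / (Nat.totient A : ℝ) = (W : ℝ) / (Nat.totient W : ℝ) := by
  have h1 := Nat.totient_mul_prod_primeFactors A
  have h2 := Nat.totient_mul_prod_primeFactors W
  rw [h] at h1
  have hφA : 0 < Nat.totient A := Nat.totient_pos.2 hA
  have hφW : 0 < Nat.totient W := Nat.totient_pos.2 hW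
  have hP : 0 < ∏ p ∈ W.primeFactors, p := Finset.prod_pos fun p hp => (Nat.prime_of_mem_primeFactors hp).pos
  have h3 : (A * Nat.totient W) * ∏ p ∈ W.primeFactors, p = (W * Nat.totient A) * ∏ p ∈ W.primeFactors, p := by
    calc (A * Nat.totient W) * ∏ p ∈ W.primeFactors, p = A * (Nat.totient W * ∏ p ∈ W.primeFactors, p) := by ring
      _ = W * (A * ∏ p ∈ W.primeFactors, (p - 1)) := by rw [h2]; ring
      _ = _ := by rw [← h1]; ring
  have h4 := Nat.eq_of_mul_eq_mul_right hP h3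
  have hφA' : (Nat.totient A : ℝ) ≠ 0 := by exact_mod_cast hφA.ne'
  have hφW' : (Nat.totient W : ℝ) ≠ 0 := by exact_mod_cast hφW.ne'
  rw [div_eq_div_iff hφA' hφW']
  exact_mod_cast h4

private lemma FirstR_pf (w m : ℕ) (hm : 0 < m) (h : ∀ p : ℕ, p.Prime → p ∣ m → p ≤ w) :
    (m * Wp w).primeFactors = (Wp w).primeFactors := by
  have hW : Wp w ≠ 0 := by
    unfold Wp
    exact Finset.prod_ne_zero_iff.2 fun p hp => (mem_filter.1 hp).2.ne_zero
  rw [Nat.primeFactors_mul hm.ne' hW, Finset.union_eq_right]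
  intro p hp
  have hp1 := Nat.prime_of_mem_primeFactors hp
  have hp2 := h p hp1 (Nat.dvd_of_mem_primeFactors hp)
  rw [Nat.mem_primeFactors]
  refine ⟨hp1, ?_, hW⟩
  unfold Wp
  exact Finset.dvd_prod_of_mem _ (mem_filter.2 ⟨mem_Icc.2 ⟨hp1.pos, hp2⟩, hp1⟩)

private lemma FirstR_growth (W cm : ℕ) : ∃ N0 : ℕ, ∀ N ≥ N0, 1 ≤ N ∧ 1 ≤ Real.log (N : ℝ) ∧
    8 * Real.log (cm + 1 : ℝ) ≤ Real.log (N : ℝ) ∧ (W : ℝ) ≤ Real.log (N : ℝ) ^ (1 / 100 : ℝ) ∧
    90 * Real.log (N : ℝ) ≤ Real.sqrt N := by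
  have h0 : Filter.Tendsto (fun N : ℕ => Real.log (N : ℝ)) Filter.atTop Filter.atTop :=
    Real.tendsto_log_atTop.comp tendsto_natCast_atTop_atTop
  have h1 : Filter.Tendsto (fun N : ℕ => Real.log (N : ℝ) ^ (1 / 100 : ℝ)) Filter.atTop Filter.atTop :=
    (tendsto_rpow_atTop (by norm_num)).comp h0
  have h2 : Filter.Tendsto (fun N : ℕ => (N : ℝ) ^ (1 / 4 : ℝ)) Filter.atTop Filter.atTop :=
    (tendsto_rpow_atTop (by norm_num)).comp tendsto_natCast_atTop_atTop
  obtain ⟨N0, hN0⟩ := Filter.eventually_atTop.1 ((((h0.eventually_ge_atTop 1).and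
    (h0.eventually_ge_atTop (8 * Real.log (cm + 1 : ℝ)))).and (h1.eventually_ge_atTop (W : ℝ))).and
    ((h2.eventually_ge_atTop 360).and (Filter.eventually_ge_atTop 1)))
  refine ⟨N0, fun N hN => ?_⟩
  obtain ⟨⟨⟨h3, h4⟩, h5⟩, h6, h7⟩ := hN0 N hN
  refine ⟨h7, h3, h4, h5, ?_⟩
  have hN0' : (0 : ℝ) ≤ N := Nat.cast_nonneg N
  have h8 : Real.log (N : ℝ) ≤ (N : ℝ) ^ (1 / 4 : ℝ) / (1 / 4) := Real.log_le_rpow_div hN0' (by norm_num)
  have h9 : Real.sqrt N = (N : ℝ) ^ (1 / 4 : ℝ) * (N : ℝ) ^ (1 / 4 : ℝ) := by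
    have hNpos : (0 : ℝ) < N := by exact_mod_cast h7
    rw [← Real.rpow_add hNpos, Real.sqrt_eq_rpow]
    norm_num
  rw [h9]
  nlinarith

/-- the number of the `v` -/
private lemma FirstR_v (M E c y : ℕ) (hc : 1 ≤ c) (hM : 4 * c ≤ M) (hE : 8 * E ≤ M) :
    (M : ℝ) / (2 * c) ≤ (((range M).filter fun v => (E ≤ v ∧ v + E < M) ∧ c ∣ y + v).card : ℝ) := by
  obtain ⟨J, hJ⟩ : ∃ J : ℕ, J = (M - 2 * E) / c := ⟨_, rfl⟩
  obtain ⟨r, hr⟩ : ∃ r : ℕ, r = (c - (y + E) % c) % c := ⟨_, rfl⟩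
  have hc0 : 0 < c := hc
  have hrc : r < c := by rw [hr]; exact Nat.mod_lt _ hc0
  have hrd : c ∣ y + (E + r) := by
    have h1 : (y + E) % c < c := Nat.mod_lt _ hc0
    rw [← add_assoc, Nat.dvd_iff_mod_eq_zero, hr, Nat.add_mod, Nat.mod_mod]
    by_cases h2 : (y + E) % c = 0
    · rw [h2, Nat.sub_zero, Nat.mod_self, Nat.zero_add, Nat.zero_mod]
    · rw [Nat.mod_eq_of_lt (show c - (y + E) % c < c by omega), Nat.add_sub_cancel' h1.le, Nat.mod_self]
  have hJc : J * c ≤ M - 2 * E := by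
    rw [hJ]
    exact Nat.div_mul_le_self _ _
  have hcard : J ≤ ((range M).filter fun v => (E ≤ v ∧ v + E < M) ∧ c ∣ y + v).card := by
    have h1 : (range J).card ≤ ((range M).filter fun v => (E ≤ v ∧ v + E < M) ∧ c ∣ y + v).card := by
      apply card_le_card_of_injOn (fun j : ℕ => E + r + c * j)
      · intro j hj
        rw [Finset.mem_coe, Finset.mem_range] at hj
        rw [Finset.mem_coe, Finset.mem_filter, Finset.mem_range]
        have h2 : c * j + c ≤ J * c := by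
          have : (j + 1) * c ≤ J * c := Nat.mul_le_mul_right _ hj
          calc c * j + c = (j + 1) * c := by ring
            _ ≤ _ := this
        have h3 : E + r + c * j + E < M := by omega
        beta_reduce
        refine ⟨by omega, ⟨by omega, h3⟩, ?_⟩
        have h4 : y + (E + r + c * j) = y + (E + r) + c * j := by ring
        rw [h4]
        exact (Nat.dvd_add_right hrd).2 (dvd_mul_right _ _)
      · intro j _ j' _ h
        have h2 : c * j = c * j' := by
          simp only at h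
          omega
        exact Nat.eq_of_mul_eq_mul_left hc0 h2
    rwa [card_range] at h1
  have h5 : M - 2 * E < (J + 1) * c := by
    have h7 := Nat.div_add_mod (M - 2 * E) c
    have h8 := Nat.mod_lt (M - 2 * E) hc0
    have h9 : (J + 1) * c = c * J + c := by ring
    rw [h9, hJ]
    omega
  have hJr : (J : ℝ) ≤ (((range M).filter fun v => (E ≤ v ∧ v + E < M) ∧ c ∣ y + v).card : ℝ) := by
    exact_mod_cast hcard
  refine le_trans ?_ hJr
  have hcr : (0 : ℝ) < c := by exact_mod_cast hc0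
  rw [div_le_iff₀ (by positivity)]
  have h6 : M + 2 * c ≤ 2 * ((J + 1) * c) := by omega
  have h7 : ((M + 2 * c : ℕ) : ℝ) ≤ ((2 * ((J + 1) * c) : ℕ) : ℝ) := by exact_mod_cast h6
  push_cast at h7
  linarith

/-- the double count -/
private lemma FirstR_count (W c N M E : ℕ) [NeZero N] [NeZero M] (hc : 1 ≤ c) :
    ∑ y ∈ ((Ico (c * N) (2 * (c * N))).filter fun y => (W * y - 1).Prime).filter fun y => y + M ≤ 2 * (c * N),
        ((range M).filter fun v => (E ≤ v ∧ v + E < M) ∧ c ∣ y + v).card ≤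
      (univ.filter fun z : ZZ N M => (LR W c N M z).Prime ∧ E ≤ z.2.val ∧ z.2.val + E < M).card := by
  rw [← Finset.card_sigma]
  have hN : 0 < N := Nat.pos_of_neZero N
  have key : ∀ y v : ℕ, c * N ≤ y → y + M ≤ 2 * (c * N) → v < M → c ∣ y + v →
      N ≤ (y + v) / c ∧ (y + v) / c < 2 * N ∧ c * ((y + v) / c) = y + v := by
    intro y v h1 h2 h3 h4
    have h5 : c * ((y + v) / c) = y + v := Nat.mul_div_cancel' h4
    refine ⟨?_, ?_, h5⟩
    · rw [Nat.le_div_iff_mul_le hc]
      calc N * c = c * N := by ring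
        _ ≤ y + v := by omega
    · rw [Nat.div_lt_iff_lt_mul hc]
      calc y + v < 2 * (c * N) := by omega
        _ = 2 * N * c := by ring
  apply card_le_card_of_injOn (fun x : (Σ _ : ℕ, ℕ) =>
    ((((x.1 + x.2) / c - N : ℕ) : ZMod N), ((x.2 : ℕ) : ZMod M)))
  · rintro ⟨y, v⟩ hx
    rw [Finset.mem_coe, Finset.mem_sigma] at hx
    obtain ⟨hy, hv⟩ := hx
    simp only [Finset.mem_filter, Finset.mem_Ico, Finset.mem_range] at hy hv
    obtain ⟨⟨⟨h1, -⟩, hp⟩, h2⟩ := hy
    obtain ⟨h3, h4, h5⟩ := hv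
    obtain ⟨k1, k2, k3⟩ := key y v h1 h2 h3 h5
    rw [Finset.mem_coe, Finset.mem_filter]
    have e1 : (((((y + v) / c - N : ℕ) : ZMod N)).val) = (y + v) / c - N :=
      ZMod.val_natCast_of_lt (by omega)
    have e2 : (((v : ℕ) : ZMod M)).val = v := ZMod.val_natCast_of_lt h3
    refine ⟨Finset.mem_univ _, ?_, ?_⟩
    · unfold LR
      simp only
      rw [e1, e2, Nat.add_sub_cancel' k1, mul_assoc, k3]
      have e3 : W * (y + v) - (W * v + 1) = W * y - 1 := by
        rw [Nat.mul_add, Nat.add_comm (W * v) 1, ← Nat.sub_sub, Nat.sub_right_comm, Nat.add_sub_cancel]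
      rw [e3]
      exact hp
    · simp only
      rw [e2]
      exact h4
  · rintro ⟨y, v⟩ hx ⟨y', v'⟩ hx' h
    rw [Finset.mem_coe, Finset.mem_sigma] at hx hx'
    obtain ⟨hy, hv⟩ := hx
    obtain ⟨hy', hv'⟩ := hx'
    simp only [Finset.mem_filter, Finset.mem_Ico, Finset.mem_range] at hy hv hy' hv'
    obtain ⟨k1, k2, k3⟩ := key y v hy.1.1.1 hy.2 hv.1 hv.2.2
    obtain ⟨k1', k2', k3'⟩ := key y' v' hy'.1.1.1 hy'.2 hv'.1 hv'.2.2
    have e1 : (((((y + v) / c - N : ℕ) : ZMod N)).val) = (y + v) / c - N :=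
      ZMod.val_natCast_of_lt (by omega)
    have e1' : (((((y' + v') / c - N : ℕ) : ZMod N)).val) = (y' + v') / c - N :=
      ZMod.val_natCast_of_lt (by omega)
    have e2 : (((v : ℕ) : ZMod M)).val = v := ZMod.val_natCast_of_lt hv.1
    have e2' : (((v' : ℕ) : ZMod M)).val = v' := ZMod.val_natCast_of_lt hv'.1
    have h1 := congrArg (fun z : ZZ N M => z.1.val) h
    have h2 := congrArg (fun z : ZZ N M => z.2.val) h
    simp only at h1 h2
    rw [e1, e1'] at h1
    rw [e2, e2'] at h2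
    have h3 : (y + v) / c = (y' + v') / c := by omega
    have h4 : y + v = y' + v' := by rw [← k3, ← k3', h3]
    have h5 : y = y' := by omega
    rw [h5, h2]

theorem first_rows (t cm q : ℕ) (ht : 1 ≤ t) (hq : 1 ≤ q) :
    ∃ w0 M0 : ℕ, ∀ w ≥ w0, ∃ N0 : ℕ, ∀ N ≥ N0, ∀ M ≥ M0, ∀ [NeZero N] [NeZero M], M ^ 2 ≤ N → ∀ E : ℕ, 8 * E ≤ M →
      ∀ c : ℕ, 1 ≤ c → c ≤ cm →
        1 / (1000 * (t : ℝ)) ≤ av (fun z : ZZ N M => fR w (Rt t N) (q * Wp w) c N M E z) := by
  classical
  refine ⟨max 2 q, 4 * cm, fun w hw => ?_⟩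
  have hw2 : 2 ≤ w := (le_max_left _ _).trans hw
  have hwq : q ≤ w := (le_max_right _ _).trans hw
  have hWp0 : 0 < Wp w := by
    unfold Wp
    exact Finset.prod_pos fun p hp => (mem_filter.1 hp).2.pos
  obtain ⟨W, hWdef⟩ : ∃ W : ℕ, W = q * Wp w := ⟨_, rfl⟩
  have hW0 : 0 < W := by rw [hWdef]; exact Nat.mul_pos hq hWp0
  have hpf : W.primeFactors = (Wp w).primeFactors := by
    rw [hWdef]
    exact FirstR_pf w q hq fun p _ hpd => (Nat.le_of_dvd hq hpd).trans hwq
  obtain ⟨N1, hN1⟩ := count_primes W hW0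
  obtain ⟨N2, hN2⟩ := Rt_facts t ht
  obtain ⟨N3, hN3⟩ := FirstR_growth W cm
  refine ⟨max N1 (max N2 N3), fun N hN M hM _ _ hMN E hE c hc hccm => ?_⟩
  have hNN1 : N1 ≤ N := (le_max_left _ _).trans hN
  obtain ⟨hR3, -, -, hRN, -, hlog⟩ := hN2 N (((le_max_left _ _).trans (le_max_right _ _)).trans hN)
  obtain ⟨hNpos, hL1, hLc, hLW, hLs⟩ := hN3 N (((le_max_right _ _).trans (le_max_right _ _)).trans hN)
  rw [← hWdef]
  obtain ⟨R, hR⟩ : ∃ R : ℕ, R = Rt t N := ⟨_, rfl⟩
  rw [← hR] at hR3 hRN hlog ⊢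
  obtain ⟨L, hL⟩ : ∃ L : ℝ, L = Real.log N := ⟨_, rfl⟩
  rw [← hL] at hL1 hLc hLW hLs hlog
  have hL0 : 0 < L := by linarith
  have hNr : (1 : ℝ) ≤ N := by exact_mod_cast hNpos
  have hcr : (1 : ℝ) ≤ c := by exact_mod_cast hc
  have htr : (0 : ℝ) < t := by exact_mod_cast ht
  have hφ : (0 : ℝ) < (Nat.totient W : ℝ) := by exact_mod_cast Nat.totient_pos.2 hW0
  have hWr : (0 : ℝ) < W := by exact_mod_cast hW0
  obtain ⟨ρ, hρ⟩ : ∃ ρ : ℝ, ρ = (W : ℝ) / (Nat.totient W : ℝ) := ⟨_, rfl⟩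
  have hρ1 : 1 ≤ ρ := by
    rw [hρ, one_le_div hφ]
    exact_mod_cast Nat.totient_le W
  have hρ2 : (Wp w : ℝ) / (Nat.totient (Wp w) : ℝ) = ρ := by
    rw [hρ]
    exact (FirstR_ratio W (Wp w) hW0 hWp0 hpf).symm
  -- the number of the primes
  have hlogc : Real.log c ≤ L / 8 := by
    have h1 : Real.log c ≤ Real.log (cm + 1 : ℝ) := by
      apply Real.log_le_log (by linarith)
      have : (c : ℝ) ≤ cm := by exact_mod_cast hccm
      linarith
    linarith
  have hlogcN : Real.log ((c * N : ℕ) : ℝ) ≤ 9 / 8 * L := by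
    push_cast
    rw [Real.log_mul (by linarith) (by linarith), ← hL]
    linarith
  have hlogcN2 : L ≤ Real.log ((c * N : ℕ) : ℝ) := by
    push_cast
    rw [Real.log_mul (by linarith) (by linarith), ← hL]
    have := Real.log_nonneg hcr
    linarith
  have hY := hN1 (c * N) (hNN1.trans (Nat.le_mul_of_pos_left N hc)) W hW0 (fun p _ h => h) (by
    have h1 : (W : ℝ) ≤ Real.log ((c * N : ℕ) : ℝ) ^ (1 / 100 : ℝ) :=
      hLW.trans (Real.rpow_le_rpow hL0.le hlogcN2 (by norm_num))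
    have h2 := Real.add_one_le_exp (Real.log ((c * N : ℕ) : ℝ) ^ (1 / 100 : ℝ))
    linarith)
  rw [← hρ] at hY
  -- the primes far from the end
  have hY' : ρ * (c * N / (10 * L)) ≤ ((((Ico (c * N) (2 * (c * N))).filter fun y => (W * y - 1).Prime).filter
      fun y => y + M ≤ 2 * (c * N)).card : ℝ) := by
    have h1 : ((Ico (c * N) (2 * (c * N))).filter fun y => (W * y - 1).Prime).card ≤
        (((Ico (c * N) (2 * (c * N))).filter fun y => (W * y - 1).Prime).filter
          fun y => y + M ≤ 2 * (c * N)).card + M := by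
      rw [← Finset.card_filter_add_card_filter_not (s := (Ico (c * N) (2 * (c * N))).filter
        fun y => (W * y - 1).Prime) (fun y => y + M ≤ 2 * (c * N))]
      refine Nat.add_le_add_left ?_ _
      calc (((Ico (c * N) (2 * (c * N))).filter fun y => (W * y - 1).Prime).filter
          fun y => ¬ (y + M ≤ 2 * (c * N))).card ≤ (Ico (2 * (c * N) - M) (2 * (c * N))).card := by
            apply Finset.card_le_card
            intro y hy
            rw [Finset.mem_filter, Finset.mem_filter, Finset.mem_Ico] at hy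
            rw [Finset.mem_Ico]
            omega
        _ ≤ M := by
            rw [Nat.card_Ico]
            omega
    have h2 : (((Ico (c * N) (2 * (c * N))).filter fun y => (W * y - 1).Prime).card : ℝ) ≤
        ((((Ico (c * N) (2 * (c * N))).filter fun y => (W * y - 1).Prime).filter
          fun y => y + M ≤ 2 * (c * N)).card : ℝ) + M := by exact_mod_cast h1
    have h3 : ρ * (c * N / (9 * L)) ≤ ρ * (((c * N : ℕ) : ℝ) / (8 * Real.log ((c * N : ℕ) : ℝ))) := by
      apply mul_le_mul_of_nonneg_left _ (by linarith)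
      push_cast
      push_cast at hlogcN hlogcN2
      apply div_le_div_of_nonneg_left (by positivity) (by linarith)
      linarith
    have h4 : (M : ℝ) ≤ ρ * (c * N / (90 * L)) := by
      have h5 : (M : ℝ) ≤ Real.sqrt N := by
        apply Real.le_sqrt_of_sq_le
        exact_mod_cast hMN
      have h6 : Real.sqrt N ≤ N / (90 * L) := by
        rw [le_div_iff₀ (by positivity)]
        have h7 := Real.mul_self_sqrt (show (0 : ℝ) ≤ N by linarith)
        have h8 : Real.sqrt N * (90 * L) ≤ Real.sqrt N * Real.sqrt N :=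
          mul_le_mul_of_nonneg_left hLs (Real.sqrt_nonneg _)
        linarith
      have h9 : (N : ℝ) / (90 * L) ≤ ρ * (c * N / (90 * L)) := by
        have h10 : 0 ≤ (N : ℝ) / (90 * L) := by positivity
        have h11 : ρ * (c * N / (90 * L)) = (ρ * c) * (N / (90 * L)) := by ring
        rw [h11]
        have h12 : 1 ≤ ρ * c := by nlinarith
        nlinarith
      linarith
    have h5 : ρ * (c * N / (9 * L)) = ρ * (c * N / (10 * L)) + ρ * (c * N / (90 * L)) := by
      field_simp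
      ring
    linarith
  -- the double count
  have hcount := FirstR_count W c N M E hc
  have hcard : ρ * (c * N / (10 * L)) * (M / (2 * c)) ≤
      ((univ.filter fun z : ZZ N M => (LR W c N M z).Prime ∧ E ≤ z.2.val ∧ z.2.val + E < M).card : ℝ) := by
    have h1 : ((∑ y ∈ ((Ico (c * N) (2 * (c * N))).filter fun y => (W * y - 1).Prime).filter
        fun y => y + M ≤ 2 * (c * N),
        ((range M).filter fun v => (E ≤ v ∧ v + E < M) ∧ c ∣ y + v).card : ℕ) : ℝ) ≤
      ((univ.filter fun z : ZZ N M => (LR W c N M z).Prime ∧ E ≤ z.2.val ∧ z.2.val + E < M).card : ℝ) := by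
      exact_mod_cast hcount
    refine le_trans ?_ h1
    push_cast
    refine le_trans ?_ (Finset.sum_le_sum fun y _ => FirstR_v M E c y hc (by
      have : 4 * c ≤ 4 * cm := Nat.mul_le_mul_left _ hccm
      omega) hE)
    rw [Finset.sum_const, nsmul_eq_mul]
    exact mul_le_mul_of_nonneg_right hY' (by positivity)
  -- the lower bound for `VV`
  have hV : 1 / ρ * (L / (32 * t)) ≤ VV (vp w R) R := by
    have h1 := VV_ge w R (by omega) (by omega)
    have h2 : ((Wp w).totient : ℝ) / (Wp w : ℝ) = 1 / ρ := by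
      rw [← hρ2, one_div_div]
    rw [h2] at h1
    refine le_trans ?_ h1
    exact mul_le_mul_of_nonneg_left hlog (by positivity)
  -- the average
  have hav : av (fun z : ZZ N M => fR w R W c N M E z) =
      ((univ.filter fun z : ZZ N M => (LR W c N M z).Prime ∧ E ≤ z.2.val ∧ z.2.val + E < M).card : ℝ) *
        VV (vp w R) R / (N * M) := by
    unfold av
    have h1 : (Fintype.card (ZZ N M) : ℝ) = N * M := by
      rw [Fintype.card_prod, ZMod.card, ZMod.card]
      push_cast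
      ring
    rw [h1]
    congr 1
    rw [← nsmul_eq_mul, ← Finset.sum_const, Finset.sum_filter]
    refine Finset.sum_congr rfl fun z _ => ?_
    unfold fR
    beta_reduce
    by_cases hp : (LR W c N M z).Prime ∧ E ≤ z.2.val ∧ z.2.val + E < M
    · simp only [if_pos hp]
    · simp only [if_neg hp]
  have hMpos : (0 : ℝ) < M := by exact_mod_cast Nat.pos_of_neZero M
  have hNpos' : (0 : ℝ) < N := by linarith
  have hρ0 : 0 < ρ := by linarith
  rw [hav, le_div_iff₀ (by positivity)]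
  calc 1 / (1000 * (t : ℝ)) * (N * M) ≤ 1 / (640 * (t : ℝ)) * (N * M) := by
        apply mul_le_mul_of_nonneg_right _ (by positivity)
        apply one_div_le_one_div_of_le (by positivity)
        linarith
    _ = (ρ * (c * N / (10 * L)) * (M / (2 * c))) * (1 / ρ * (L / (32 * t))) := by
        have hc0 : (c : ℝ) ≠ 0 := by linarith
        field_simp
        ring
    _ ≤ _ := mul_le_mul hcard hV (by positivity) (Nat.cast_nonneg _)

end Pool.CS
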