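import Pool.Agent.Lib.MP_c77da8_nt.CS.ValR

/-!
# CS-InvR: the box is almost invariant under the translations by the small box

For `t ∈ bx N M H'`, `|e| ≤ B`: `t = (0, t')`, `e • t = (0, e t')`, `|e t'.val| ≤ B H'`; for `x ∈ bx N M H` with representative `X`, `x + e • t ∈ bx N M H`
if `1 ≤ X + e t'.val ≤ H` (no wrap-around: `H + B H' < M`), which fails for at most `|e| t'.val ≤ B H' ≤ κ H` of the `X`; `bx_card`.
-/

set_option autoImplicit false

namespace Pool.CS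

open Finset Pool.CG Pool.CL

private theorem InvR_step {N M H : ℕ} [NeZero N] [NeZero M] (hM : H < M) {x t : ZZ N M} (hx : x ∈ bx N M H)
    (ht : t.1 = 0) (e : ℤ) (h1 : 1 ≤ (x.2.val : ℤ) + e * (t.2.val : ℤ)) (h2 : (x.2.val : ℤ) + e * (t.2.val : ℤ) ≤ H) :
    x + e • t ∈ bx N M H := by
  have hx' : x.1 = 0 ∧ 1 ≤ x.2.val ∧ x.2.val ≤ H := by simpa [bx] using hx
  have hfst : (x + e • t).1 = 0 := by
    rw [Prod.fst_add, Prod.smul_fst, hx'.1, ht, smul_zero, add_zero]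
  have hsnd : (x + e • t).2 = (((x.2.val : ℤ) + e * (t.2.val : ℤ) : ℤ) : ZMod M) := by
    rw [Prod.snd_add, Prod.smul_snd, Int.cast_add, Int.cast_mul, Int.cast_natCast, Int.cast_natCast,
      ZMod.natCast_zmod_val, ZMod.natCast_zmod_val, zsmul_eq_mul]
  have hval : ((x + e • t).2.val : ℤ) = (x.2.val : ℤ) + e * (t.2.val : ℤ) := by
    rw [hsnd, ZMod.val_intCast]
    refine Int.emod_eq_of_lt (by omega) ?_
    have : (H : ℤ) < (M : ℤ) := by exact_mod_cast hM
    omega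
  have h3 : 1 ≤ (x + e • t).2.val ∧ (x + e • t).2.val ≤ H := by omega
  simp only [bx, Finset.mem_filter, Finset.mem_univ, true_and]
  exact ⟨hfst, h3.1, h3.2⟩

theorem inv_bx (N M H H' B : ℕ) (κ : ℝ) [NeZero N] [NeZero M] (h1 : (B : ℝ) * H' ≤ κ * H) (h2 : H + B * H' < M) :
    Inv (bx N M H) (bx N M H') B κ := by
  classical
  intro t ht e he
  have ht' : t.1 = 0 ∧ 1 ≤ t.2.val ∧ t.2.val ≤ H' := by simpa [bx] using ht
  have hHM : H < M := by omega
  have hcard := bx_card N M H hHM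
  obtain ⟨v, hv⟩ : ∃ v : ℤ, v = e * (t.2.val : ℤ) := ⟨_, rfl⟩
  have hvabs : |v| ≤ ((B * H' : ℕ) : ℤ) := by
    rw [hv, abs_mul, Nat.abs_cast]
    push_cast
    exact mul_le_mul he (by exact_mod_cast ht'.2.2) (by positivity) (by positivity)
  have key : ((bx N M H).filter fun x => x + e • t ∉ bx N M H).card ≤ v.natAbs := by
    let g : ZZ N M → ℕ := fun x => x.2.val
    have hmaps : ∀ x ∈ (bx N M H).filter (fun x => x + e • t ∉ bx N M H),
        g x ∈ if 0 ≤ v then Finset.Ioc (H - v.natAbs) H else Finset.Icc 1 v.natAbs := by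
      intro x hx
      rw [Finset.mem_filter] at hx
      have hx' : x.1 = 0 ∧ 1 ≤ x.2.val ∧ x.2.val ≤ H := by simpa [bx] using hx.1
      have hn : ¬ (1 ≤ (x.2.val : ℤ) + e * (t.2.val : ℤ) ∧ (x.2.val : ℤ) + e * (t.2.val : ℤ) ≤ H) := fun h =>
        hx.2 (InvR_step hHM hx.1 ht'.1 e h.1 h.2)
      rw [← hv] at hn
      show x.2.val ∈ _
      by_cases h0 : 0 ≤ v
      · rw [if_pos h0, Finset.mem_Ioc]
        omega
      · rw [if_neg h0, Finset.mem_Icc]
        omega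
    have hinj : Set.InjOn g ((bx N M H).filter (fun x => x + e • t ∉ bx N M H)) := by
      intro x hx y hy hxy
      have hx' : x.1 = 0 ∧ 1 ≤ x.2.val ∧ x.2.val ≤ H := by simpa [bx] using (Finset.mem_filter.1 (Finset.mem_coe.1 hx)).1
      have hy' : y.1 = 0 ∧ 1 ≤ y.2.val ∧ y.2.val ≤ H := by simpa [bx] using (Finset.mem_filter.1 (Finset.mem_coe.1 hy)).1
      exact Prod.ext (hx'.1.trans hy'.1.symm) (ZMod.val_injective M hxy)
    refine (Finset.card_le_card_of_injOn g hmaps hinj).trans ?_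
    by_cases h0 : 0 ≤ v
    · rw [if_pos h0, Nat.card_Ioc]
      omega
    · rw [if_neg h0, Nat.card_Icc]
      omega
  have hv2 : (v.natAbs : ℝ) ≤ (B : ℝ) * H' := by
    have h3 : (v.natAbs : ℤ) ≤ ((B * H' : ℕ) : ℤ) := by
      rw [Int.natCast_natAbs]
      exact hvabs
    have h4 : v.natAbs ≤ B * H' := by exact_mod_cast h3
    calc (v.natAbs : ℝ) ≤ ((B * H' : ℕ) : ℝ) := by exact_mod_cast h4
      _ = (B : ℝ) * H' := by push_cast; ring
  rw [hcard]
  calc (((bx N M H).filter fun x => x + e • t ∉ bx N M H).card : ℝ) ≤ (v.natAbs : ℝ) := by exact_mod_cast key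
    _ ≤ (B : ℝ) * H' := hv2
    _ ≤ κ * H := h1

end Pool.CS
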