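import Pool.Agent.Lib.MP_c77da8_nt.CS.SysR
import Pool.Agent.Lib.MP_c77da8_nt.CS.ValR

/-!
# CS-LfIn: the linear forms estimate for the pattern, with the absolute value inside the average over `(z2, x)`
-/

set_option autoImplicit false

namespace Pool.CS

open Finset Pool.CG Pool.CL

theorem lfA_abs_in (t σ : ℕ) (ht : 1 ≤ t) (C η : ℝ) (hC : 0 ≤ C) (hη : 0 < η) :
    ∃ w0 H0 N0 : ℕ, ∀ w ≥ w0, ∀ H ≥ H0, ∀ N ≥ N0, ∀ (Ω : Type) [Fintype Ω] [Nonempty Ω] (I : Type) [Fintype I]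
      [DecidableEq I], Fintype.card I ≤ t → ∀ (A B : I → Ω → ℕ) (D : I → I → Ω → ℕ),
      AffOK w H N σ C (Real.log N ^ (9 ^ t + t + 1)) A B D →
      av (fun ω => |(∑ n ∈ Ico N (2 * N), ∏ i, nuw w (Rt t N) (A i ω * n - B i ω)) / N - 1|) ≤ η := by
  obtain ⟨w1, H1, N1, h1⟩ := lfA_dist t σ ht C (η / 2) hC (by positivity)
  obtain ⟨N2, h2⟩ := lfA_coin t σ ht C (η / 2) (by positivity)
  refine ⟨max w1 1, H1, max N1 N2, fun w hw H hH N hN Ω _ _ I _ _ hI A B D hA => ?_⟩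
  have e1 := h1 w ((le_max_left _ _).trans hw) H hH N ((le_max_left _ _).trans hN) Ω I hI A B D hA
  have e2 := h2 N ((le_max_right _ _).trans hN) w H ((le_max_right _ _).trans hw) Ω I hI A B D hA
  set X : Ω → ℝ := fun ω => (∑ n ∈ Ico N (2 * N), ∏ i, nuw w (Rt t N) (A i ω * n - B i ω)) / N with hX
  have hX0 : ∀ ω, 0 ≤ X ω := fun ω => div_nonneg
    (Finset.sum_nonneg fun n _ => Finset.prod_nonneg fun i _ => nuw_nonneg _ _ _) (Nat.cast_nonneg _)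
  classical
  calc av (fun ω => |X ω - 1|) ≤ av (fun ω =>
        (if (∀ i j, i ≠ j → D i j ω ≠ 0) then |X ω - 1| else 0) +
          (if (∀ i j, i ≠ j → D i j ω ≠ 0) then 0 else X ω + 1)) := by
        refine av_mono fun ω => ?_
        split_ifs
        · rw [add_zero]
        · rw [zero_add, abs_le]
          have := hX0 ω
          constructor <;> linarith
    _ = av (fun ω => if (∀ i j, i ≠ j → D i j ω ≠ 0) then |X ω - 1| else 0) +
        av (fun ω => if (∀ i j, i ≠ j → D i j ω ≠ 0) then 0 else X ω + 1) := av_add _ _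
    _ ≤ η / 2 + η / 2 := by
        refine add_le_add ?_ ?_
        · convert e1 using 3
        · convert e2 using 3
    _ = η := by ring

theorem lf_in (k t Bc cm q : ℕ) (ht : k + 2 ≤ t) (hq : 1 ≤ q) (η : ℝ) (hη : 0 < η) :
    ∃ w0 : ℕ, ∀ w ≥ w0, ∃ H0 N0 : ℕ, ∀ H ≥ H0, ∀ N ≥ N0, ∀ (M : ℕ) [NeZero N] [NeZero M],
      SizeOK t (4 * (k + 2)) Bc H N M →
      ∀ ρ : Fin (k + 2) → ℕ, (∀ i, 1 ≤ ρ i ∧ ρ i ≤ cm) → Function.Injective ρ → (∀ j, |(ρ 0 : ℤ) - ρ j| ≤ (Bc : ℤ)) →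
        av (fun ω : ZMod M × (Fin (k + 2) → Pt (bx N M H)) => |av (fun z1 : ZMod N =>
          ∏ a, nuR w (Rt t N) (q * Wp w) (ρ a) N M ((z1, ω.1) + ((ρ 0 : ℤ) - (ρ a : ℤ)) • SR ω.2)) - 1|) ≤ η := by
  obtain ⟨w1, H1, N1, h1⟩ := lfA_abs_in t 1 (by omega) 1 η zero_le_one hη
  obtain ⟨w2, h2⟩ := affok_rows t Bc (4 * (k + 2)) cm q hq
  refine ⟨max w1 w2, fun w hw => ?_⟩
  obtain ⟨H2, h3⟩ := h2 w ((le_max_right _ _).trans hw)
  refine ⟨max (max H1 H2) 1, max N1 3, fun H hH N hN M _ _ hS ρ hρ hinj he => ?_⟩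
  simp only [ge_iff_le, max_le_iff] at hH hN
  obtain ⟨⟨hHa, hHb⟩, hH1⟩ := hH
  obtain ⟨hNa, hNb⟩ := hN
  have hlog : 1 ≤ Real.log N := by
    have hN3 : (3 : ℝ) ≤ N := by exact_mod_cast hNb
    rw [Real.le_log_iff_exp_le (by linarith)]
    exact (Real.exp_one_lt_d9.le.trans (by norm_num)).trans hN3
  have hHM : H < M := by
    have h4 := hS.2.1
    have h5 : 4 * H ≤ (4 * (4 * (k + 2) * Bc * H) + 4) * H := Nat.mul_le_mul_right _ (by omega)
    omega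
  have hne := bx_nonempty N M H hH1 hHM
  have : Nonempty (Pt (bx N M H)) := hne.to_subtype
  have h6 := h3 H hHb N M hS hlog (Fin (k + 2)) (Fin (k + 2)) (by rw [Fintype.card_fin]; omega) ρ
    (fun a _ => (ρ 0 : ℤ) - ρ a) hρ (fun i l => he i) (fun i j hij => Or.inl fun h => hij (hinj h))
  have h7 := h1 w ((le_max_left _ _).trans hw) H hHa N hNa (ZMod M × (Fin (k + 2) → Pt (bx N M H))) (Fin (k + 2))
    (by rw [Fintype.card_fin]; exact ht) _ _ _ h6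
  refine le_trans (le_of_eq (av_congr fun ω => ?_)) h7
  congr 2
  rw [← av_zmod N (fun n => ∏ i, nuw w (Rt t N) (AR w q (ρ i) * n - BR w q (fun _ : Fin (k + 2) => (ρ 0 : ℤ) - ρ i) ω))]
  refine av_congr fun z1 => Finset.prod_congr rfl fun a _ => ?_
  have e1 : ((z1, ω.1) + ((ρ 0 : ℤ) - (ρ a : ℤ)) • SR ω.2 : ZZ N M) =
      ptR (fun _ : Fin (k + 2) => (ρ 0 : ℤ) - ρ a) ((z1, ω.1), ω.2) := by
    unfold ptR SR
    rw [smul_sum]
  rw [e1, ptR_eq]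
  unfold nuR LR AR BR
  rfl

end Pool.CS
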