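import Pool.Agent.Lib.MP_c77da8_nt.CS.Defs
import Pool.Agent.Lib.MP_c77da8_nt.CG.As0

/-!
# CS-MajR: `0 ≤ fR ≤ nuR`, `fR ≤ VV`

Copy `CL/MajL.lean`.  `LR W c N M z ≥ W (N - M) - 1 > R` if `W, c ≥ 1` and `R + M + 2 ≤ N`, so for a prime value `xi = ∅` and `Lam = 1`.
-/

set_option autoImplicit false

namespace Pool.CS

open Finset Pool.CG Pool.CL

private theorem majR_xw (w R : ℕ) (p : {p // p ∈ Pr w R}) : 0 ≤ xw (vp w R) p := by
  unfold xw vp
  have hp : (p.1).Prime := (Finset.mem_filter.mp p.2).2.1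
  have : (1 : ℝ) ≤ p.1 := by exact_mod_cast hp.one_le
  exact div_nonneg zero_le_one (by linarith)

private theorem majR_VV (w R : ℕ) : 0 ≤ VV (vp w R) R := by
  unfold VV
  exact Finset.sum_nonneg fun a _ => Finset.prod_nonneg fun p _ => majR_xw w R p

private theorem majR_VV_pos (w R : ℕ) (hR : 1 ≤ R) : 0 < VV (vp w R) R := by
  unfold VV
  have h1 : (∅ : Finset {p // p ∈ Pr w R}) ∈ univ.filter (fun a : Finset {p // p ∈ Pr w R} => nm (vp w R) a ≤ R) := by
    rw [mem_filter]; exact ⟨mem_univ _, by simpa [nm] using hR⟩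
  have h2 := Finset.single_le_sum (f := fun a : Finset {p // p ∈ Pr w R} => ∏ p ∈ a, xw (vp w R) p)
    (fun a _ => Finset.prod_nonneg fun p _ => majR_xw w R p) h1
  rw [Finset.prod_empty] at h2
  linarith

theorem fR_nonneg (w R W c N M E : ℕ) (z : ZZ N M) : 0 ≤ fR w R W c N M E z := by
  unfold fR
  split_ifs
  · exact majR_VV w R
  · exact le_refl _

theorem nuR_nonneg (w R W c N M : ℕ) (z : ZZ N M) : 0 ≤ nuR w R W c N M z := by
  unfold nuR nuw
  exact mul_nonneg (majR_VV w R) (sq_nonneg _)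

theorem fR_le (w R W c N M E : ℕ) [NeZero M] (hR : 1 ≤ R) (hW : 1 ≤ W) (hc : 1 ≤ c) (hN : R + M + 2 ≤ N) (z : ZZ N M) :
    fR w R W c N M E z ≤ nuR w R W c N M z := by
  classical
  unfold fR
  split_ifs with h
  swap
  · exact nuR_nonneg w R W c N M z
  have hz : z.2.val < M := ZMod.val_lt z.2
  have hbig : R < LR W c N M z := by
    unfold LR
    have h1 : W * (N + z.1.val) ≤ W * c * (N + z.1.val) :=
      Nat.mul_le_mul_right _ (Nat.le_mul_of_pos_right W hc)
    have h2 : W * z.2.val + W * (R + 2) ≤ W * (N + z.1.val) := by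
      rw [← Nat.mul_add]
      exact Nat.mul_le_mul_left _ (by omega)
    have h3 : R + 2 ≤ W * (R + 2) := Nat.le_mul_of_pos_left _ hW
    omega
  have hxi : xi w R (LR W c N M z) = ∅ := by
    unfold xi
    rw [Finset.filter_eq_empty_iff]
    intro p _ hp
    have hpp : (p.1).Prime := (Finset.mem_filter.mp p.2).2.1
    have hpR : p.1 ≤ R := (Finset.mem_Icc.mp (Finset.mem_filter.mp p.2).1).2
    have := (Nat.prime_dvd_prime_iff_eq hpp h.1).mp hp
    omega
  have hV := majR_VV_pos w R hR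
  have hLam : Lam (vp w R) R ∅ = 1 := by
    unfold Lam
    have : (∑ a ∈ univ.filter (fun a : Finset {p // p ∈ Pr w R} => nm (vp w R) a ≤ R),
        ∏ p ∈ a, if p ∈ (∅ : Finset {p // p ∈ Pr w R}) then (-1 : ℝ) else xw (vp w R) p) = VV (vp w R) R := by
      unfold VV
      exact Finset.sum_congr rfl fun a _ => Finset.prod_congr rfl fun p _ => by simp
    rw [this, div_self hV.ne']
  unfold nuR nuw
  rw [hxi, hLam]
  simp

theorem fR_VV (w R W c N M E : ℕ) (z : ZZ N M) : fR w R W c N M E z ≤ VV (vp w R) R := by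
  unfold fR
  split_ifs
  · exact le_refl _
  · exact majR_VV w R

end Pool.CS
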