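import Pool.Agent.Lib.MP_c77da8_nt.CS.MajR
import Pool.Agent.Lib.MP_c77da8_nt.CS.ValR
import Pool.Agent.Lib.MP_c77da8_nt.CG.VBd
import Pool.Agent.Lib.MP_c77da8_nt.CG.RtF

/-!
# CS-OneH: one `h` with the right order of magnitude of the number of the `n`
-/

set_option autoImplicit false

namespace Pool.CS

open Finset Pool.CG Pool.CL

/-- the integer `∑ x_l` -/
def sR {k N M H : ℕ} [NeZero N] [NeZero M] (x : Fin (k + 2) → Pt (bx N M H)) : ℕ := ∑ l, (x l : ZZ N M).2.val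

theorem sR_le {k N M H : ℕ} [NeZero N] [NeZero M] (x : Fin (k + 2) → Pt (bx N M H)) : sR x ≤ (k + 2) * H := by
  unfold sR
  calc ∑ l, (x l : ZZ N M).2.val ≤ ∑ _l : Fin (k + 2), H := by
        refine Finset.sum_le_sum fun l _ => ?_
        have := (x l).2
        unfold bx at this
        exact (mem_filter.1 this).2.2.2
    _ = (k + 2) * H := by simp

theorem SR_eq {k N M H : ℕ} [NeZero N] [NeZero M] (x : Fin (k + 2) → Pt (bx N M H)) :
    SR x = ((0 : ZMod N), ((sR x : ℕ) : ZMod M)) := by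
  unfold SR sR
  apply Prod.ext
  · rw [Prod.fst_sum]
    refine Finset.sum_eq_zero fun l _ => ?_
    have := (x l).2
    unfold bx at this
    exact (mem_filter.1 this).2.1
  · rw [Prod.snd_sum, Nat.cast_sum]
    refine Finset.sum_congr rfl fun l _ => ?_
    exact (ZMod.natCast_zmod_val _).symm

theorem ext_explicit {k : ℕ} (w R q N M E H : ℕ) [NeZero N] [NeZero M] (hq : 1 ≤ q) (hMN : M ≤ N) (ρ : Fin (k + 2) → ℕ)
    (hρ : ∀ a, 1 ≤ ρ a) (hE : ∀ a, |(ρ 0 : ℤ) - ρ a| * ((k + 2) * H : ℕ) ≤ (E : ℤ)) (z : ZZ N M)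
    (x : Fin (k + 2) → Pt (bx N M H)) (hz : E ≤ z.2.val ∧ z.2.val + E < M) (a : Fin (k + 2))
    (h : fR w R (q * Wp w) (ρ a) N M E (z + ((ρ 0 : ℤ) - (ρ a : ℤ)) • SR x) ≠ 0) :
    (ρ a * (q * Wp w * (N + z.1.val + sR x)) - (1 + q * Wp w * (z.2.val + ρ 0 * sR x))).Prime := by
  have hf : (LR (q * Wp w) (ρ a) N M (z + ((ρ 0 : ℤ) - (ρ a : ℤ)) • SR x)).Prime := by
    unfold fR at h
    by_contra h2
    rw [if_neg (fun h3 => h2 h3.1)] at h
    exact h rfl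
  obtain ⟨W, hW⟩ : ∃ W : ℕ, W = q * Wp w := ⟨_, rfl⟩
  rw [← hW] at hf ⊢
  have hW1 : 1 ≤ W := by
    rw [hW]
    have h : 1 ≤ Wp w := by
      unfold Wp
      exact Nat.succ_le_of_lt (Finset.prod_pos fun p hp => (mem_filter.1 hp).2.pos)
    exact Nat.mul_pos hq h
  have hs := sR_le x
  have hv : |((ρ 0 : ℤ) - (ρ a : ℤ)) * (sR x : ℤ)| ≤ (E : ℤ) := by
    rw [abs_mul]
    refine le_trans ?_ (hE a)
    refine mul_le_mul_of_nonneg_left ?_ (abs_nonneg _)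
    rw [abs_of_nonneg (Int.natCast_nonneg _)]
    exact_mod_cast hs
  have h1 : (z + ((ρ 0 : ℤ) - (ρ a : ℤ)) • SR x).1 = z.1 := by
    rw [SR_eq]
    simp
  have h2 : (z + ((ρ 0 : ℤ) - (ρ a : ℤ)) • SR x).2 = z.2 + (((((ρ 0 : ℤ) - (ρ a : ℤ)) * (sR x : ℤ) : ℤ)) : ZMod M) := by
    rw [SR_eq]
    simp
  have h3 := val_add M E z.2 hz.1 hz.2 _ hv
  rw [← h2] at h3
  have hlt : ((z + ((ρ 0 : ℤ) - (ρ a : ℤ)) • SR x).2).val < M := ZMod.val_lt _
  obtain ⟨v, hvdef⟩ : ∃ v : ℕ, v = ((z + ((ρ 0 : ℤ) - (ρ a : ℤ)) • SR x).2).val := ⟨_, rfl⟩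
  unfold LR at hf
  rw [h1, ← hvdef] at hf
  rw [← hvdef] at h3 hlt
  have h4 : W * v + 1 ≤ W * ρ a * (N + z.1.val) := by
    have h5 : W * v + 1 ≤ W * M := by
      calc W * v + 1 ≤ W * v + W := by omega
        _ = W * (v + 1) := by ring
        _ ≤ W * M := Nat.mul_le_mul_left _ hlt
    refine h5.trans ?_
    have h6 : M ≤ ρ a * (N + z.1.val) := by
      calc M ≤ N + z.1.val := by omega
        _ = 1 * (N + z.1.val) := (one_mul _).symm
        _ ≤ ρ a * (N + z.1.val) := Nat.mul_le_mul_right _ (hρ a)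
    calc W * M ≤ W * (ρ a * (N + z.1.val)) := Nat.mul_le_mul_left _ h6
      _ = W * ρ a * (N + z.1.val) := by ring
  have h7 : ρ a * (W * (N + z.1.val + sR x)) - (1 + W * (z.2.val + ρ 0 * sR x)) =
      W * ρ a * (N + z.1.val) - (W * v + 1) := by
    have e : W * ρ a * (N + z.1.val) + (1 + W * (z.2.val + ρ 0 * sR x)) =
        ρ a * (W * (N + z.1.val + sR x)) + (W * v + 1) := by
      have h8 : ((W * ρ a * (N + z.1.val) + (1 + W * (z.2.val + ρ 0 * sR x)) : ℕ) : ℤ) =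
          ((ρ a * (W * (N + z.1.val + sR x)) + (W * v + 1) : ℕ) : ℤ) := by
        push_cast
        rw [h3]
        ring
      exact_mod_cast h8
    omega
  rw [h7]
  exact hf

private theorem exists_le_av {Ω : Type} [Fintype Ω] [Nonempty Ω] (F : Ω → ℝ) (c : ℝ) (h : c ≤ av F) : ∃ x, c ≤ F x := by
  by_contra hh
  push Not at hh
  have h1 : ∑ x, F x < ∑ _x : Ω, c := Finset.sum_lt_sum_of_nonempty univ_nonempty fun x _ => hh x
  have h2 : (0 : ℝ) < Fintype.card Ω := by exact_mod_cast Fintype.card_pos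
  unfold av at h
  rw [le_div_iff₀ h2] at h
  rw [sum_const, card_univ, nsmul_eq_mul] at h1
  linarith

/-- the numbers `n` at a point `(z2, x)` with a large mean value over `z1` -/
theorem good_om (k t : ℕ) (ht : 1 ≤ t) : ∃ (C : ℝ) (N0 : ℕ), 0 < C ∧ ∀ N ≥ N0, ∀ (w q M E H : ℕ) [NeZero N] [NeZero M],
    1 ≤ w → 1 ≤ q → M ≤ N → ∀ ρ : Fin (k + 2) → ℕ, (∀ a, 1 ≤ ρ a) →
    (∀ a, |(ρ 0 : ℤ) - ρ a| * ((k + 2) * H : ℕ) ≤ (E : ℤ)) → ∀ (b : ℝ) (z2 : ZMod M) (x : Fin (k + 2) → Pt (bx N M H)),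
    b ≤ av (fun z1 : ZMod N => ∏ a, fR w (Rt t N) (q * Wp w) (ρ a) N M E ((z1, z2) + ((ρ 0 : ℤ) - (ρ a : ℤ)) • SR x)) →
    0 < b →
    b / C * N / Real.log N ^ (k + 2) ≤ (({n : ℕ | n ≤ q * Wp w * (2 * N + (k + 2) * H) ∧
        ∀ a, (ρ a * n - (1 + q * Wp w * (z2.val + ρ 0 * sR x))).Prime}.ncard : ℕ) : ℝ) := by
  obtain ⟨C, hC, hV⟩ := VV_le
  obtain ⟨N0, hN0⟩ := Rt_facts t ht
  have hC0 : 0 < C := by linarith
  refine ⟨C ^ (k + 2), N0, by positivity, ?_⟩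
  intro N hN w q M E H _ _ hw hq hMN ρ hρ hE b z2 x h2 hb0
  classical
  obtain ⟨hR3, -, -, -, hlog, -⟩ := hN0 N hN
  have hR1 : (1 : ℝ) < (Rt t N : ℝ) := by exact_mod_cast (by omega : 1 < Rt t N)
  have hlN : 0 < Real.log N := lt_of_lt_of_le (Real.log_pos hR1) hlog
  have hVV : VV (vp w (Rt t N)) (Rt t N) ≤ C * Real.log N :=
    (hV w (Rt t N) hw (by omega)).trans (mul_le_mul_of_nonneg_left hlog hC0.le)
  obtain ⟨W, hW⟩ : ∃ W : ℕ, W = q * Wp w := ⟨_, rfl⟩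
  have hW1 : 1 ≤ W := by
    rw [hW]
    have h : 1 ≤ Wp w := by
      unfold Wp
      exact Nat.succ_le_of_lt (Finset.prod_pos fun p hp => (mem_filter.1 hp).2.pos)
    exact Nat.mul_pos hq h
  set f : Fin (k + 2) → ZZ N M → ℝ := fun j => fR w (Rt t N) (q * Wp w) (ρ j) N M E with hf
  set S : Finset (ZMod N) := univ.filter fun z1 : ZMod N => ∀ a, f a ((z1, z2) + ((ρ 0 : ℤ) - (ρ a : ℤ)) • SR x) ≠ 0 with hS
  have hfn : ∀ a z, 0 ≤ f a z := fun a z => fR_nonneg _ _ _ _ _ _ _ z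
  have h3 : ∀ z1 : ZMod N, ∏ a, f a ((z1, z2) + ((ρ 0 : ℤ) - (ρ a : ℤ)) • SR x) ≤
      if z1 ∈ S then (C * Real.log N) ^ (k + 2) else 0 := by
    intro z1
    split_ifs with hz
    · calc ∏ a, f a ((z1, z2) + ((ρ 0 : ℤ) - (ρ a : ℤ)) • SR x) ≤ ∏ _a : Fin (k + 2), C * Real.log N :=
            prod_le_prod (fun a _ => hfn a _) fun a _ => (fR_VV _ _ _ _ _ _ _ _).trans hVV
        _ = (C * Real.log N) ^ (k + 2) := by rw [prod_const, card_univ, Fintype.card_fin]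
    · have h4 : ∃ a, f a ((z1, z2) + ((ρ 0 : ℤ) - (ρ a : ℤ)) • SR x) = 0 := by
        by_contra h5
        push Not at h5
        exact hz (mem_filter.2 ⟨mem_univ _, h5⟩)
      obtain ⟨a, ha⟩ := h4
      exact le_of_eq (Finset.prod_eq_zero (mem_univ a) ha)
  have h4 : b ≤ (S.card : ℝ) * (C * Real.log N) ^ (k + 2) / N := by
    refine h2.trans ((av_mono h3).trans (le_of_eq ?_))
    unfold av
    rw [← Finset.sum_filter, sum_const, nsmul_eq_mul, ZMod.card]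
    congr 3
    rw [filter_mem_eq_inter, univ_inter]
  have hN1 : (0 : ℝ) < (N : ℝ) := by exact_mod_cast Nat.pos_of_ne_zero (NeZero.ne N)
  have hSne : S.Nonempty := by
    rw [nonempty_iff_ne_empty]
    intro h5
    rw [h5] at h4
    simp at h4
    linarith
  obtain ⟨y, hy⟩ := hSne
  have hz2 : E ≤ z2.val ∧ z2.val + E < M := by
    have h5 := (mem_filter.1 hy).2 0
    by_contra h6
    apply h5
    simp only [hf]
    unfold fR
    rw [if_neg]
    intro h7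
    apply h6
    have h8 : ((y, z2) + ((ρ 0 : ℤ) - (ρ 0 : ℤ)) • SR x : ZZ N M) = (y, z2) := by
      rw [sub_self, zero_smul, add_zero]
    rw [h8] at h7
    exact h7.2
  have hs := sR_le x
  have hsub : (S.image fun z1 : ZMod N => q * Wp w * (N + z1.val + sR x) : Set ℕ) ⊆
      {n : ℕ | n ≤ q * Wp w * (2 * N + (k + 2) * H) ∧
        ∀ a, (ρ a * n - (1 + q * Wp w * (z2.val + ρ 0 * sR x))).Prime} := by
    intro n hn
    rw [Finset.mem_coe, mem_image] at hn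
    obtain ⟨z1, hz1, rfl⟩ := hn
    refine ⟨Nat.mul_le_mul_left _ ?_, fun a => ?_⟩
    · have := ZMod.val_lt z1
      omega
    · exact ext_explicit w (Rt t N) q N M E H hq hMN ρ hρ hE (z1, z2) x hz2 a ((mem_filter.1 hz1).2 a)
  have hfin : {n : ℕ | n ≤ q * Wp w * (2 * N + (k + 2) * H) ∧
        ∀ a, (ρ a * n - (1 + q * Wp w * (z2.val + ρ 0 * sR x))).Prime}.Finite :=
    (Set.finite_Iic (q * Wp w * (2 * N + (k + 2) * H))).subset fun p hp => hp.1
  have hcard : (S.image fun z1 : ZMod N => q * Wp w * (N + z1.val + sR x)).card = S.card := by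
    refine card_image_of_injective _ fun z z' hzz => ?_
    have h6 : N + z.val + sR x = N + z'.val + sR x := Nat.eq_of_mul_eq_mul_left (by rw [← hW]; exact hW1) hzz
    exact ZMod.val_injective N (by omega)
  have h6 : S.card ≤ {n : ℕ | n ≤ q * Wp w * (2 * N + (k + 2) * H) ∧
        ∀ a, (ρ a * n - (1 + q * Wp w * (z2.val + ρ 0 * sR x))).Prime}.ncard := by
    rw [← hcard, ← Set.ncard_coe_finset]
    exact Set.ncard_le_ncard hsub hfin
  refine le_trans ?_ (by exact_mod_cast h6 : (S.card : ℝ) ≤ _)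
  rw [le_div_iff₀ hN1, mul_pow] at h4
  rw [div_mul_eq_mul_div, div_div, div_le_iff₀ (by positivity)]
  exact h4

/-- from the means over `z1` to many points `z2` for one `x` -/
theorem many_om {k : ℕ} (w R q N M E H : ℕ) [NeZero N] [NeZero M] (hbx : (bx N M H).Nonempty)
    (ρ : Fin (k + 2) → ℕ) (hfν : ∀ a z, fR w R (q * Wp w) (ρ a) N M E z ≤ nuR w R (q * Wp w) (ρ a) N M z) (b : ℝ)
    (hb : b ≤ av (fun z : ZZ N M => fR w R (q * Wp w) (ρ 0) N M E z *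
      GR (H := H) (fun j => fR w R (q * Wp w) (ρ j) N M E) ρ z)) (hb0 : 0 < b)
    (hν : av (fun ω : ZMod M × (Fin (k + 2) → Pt (bx N M H)) =>
      |av (fun z1 : ZMod N => ∏ a, nuR w R (q * Wp w) (ρ a) N M ((z1, ω.1) + ((ρ 0 : ℤ) - (ρ a : ℤ)) • SR ω.2)) - 1|) ≤
        b / 4) :
    ∃ (x : Fin (k + 2) → Pt (bx N M H)) (S : Finset (ZMod M)), b / 4 * M ≤ S.card ∧ ∀ z2 ∈ S, b / 2 ≤
      av (fun z1 : ZMod N => ∏ a, fR w R (q * Wp w) (ρ a) N M E ((z1, z2) + ((ρ 0 : ℤ) - (ρ a : ℤ)) • SR x)) := by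
  classical
  have : Nonempty (Pt (bx N M H)) := hbx.to_subtype
  set f : Fin (k + 2) → ZZ N M → ℝ := fun j => fR w R (q * Wp w) (ρ j) N M E with hf
  have hfn : ∀ a z, 0 ≤ f a z := fun a z => fR_nonneg _ _ _ _ _ _ _ z
  have hF : ∀ z : ZZ N M, fR w R (q * Wp w) (ρ 0) N M E z * GR (H := H) f ρ z =
      av (fun x : Fin (k + 2) → Pt (bx N M H) => ∏ a, f a (z + ((ρ 0 : ℤ) - (ρ a : ℤ)) • SR x)) := by
    intro z
    unfold GR
    rw [← av_const_mul]
    refine av_congr fun x => ?_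
    rw [← Finset.mul_prod_erase univ _ (mem_univ 0)]
    simp [hf]
  set G : ZMod M × (Fin (k + 2) → Pt (bx N M H)) → ℝ := fun ω =>
      av (fun z1 : ZMod N => ∏ a, f a ((z1, ω.1) + ((ρ 0 : ℤ) - (ρ a : ℤ)) • SR ω.2)) with hG
  set V : ZMod M × (Fin (k + 2) → Pt (bx N M H)) → ℝ := fun ω =>
      av (fun z1 : ZMod N => ∏ a, nuR w R (q * Wp w) (ρ a) N M ((z1, ω.1) + ((ρ 0 : ℤ) - (ρ a : ℤ)) • SR ω.2)) with hV
  have h1 : b ≤ av G := by
    refine hb.trans (le_of_eq ?_)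
    rw [av_congr hF, av_prod, av_prod, av_comm]
    refine av_congr fun z2 => ?_
    rw [av_comm]
  have hGV : ∀ ω, G ω ≤ V ω := fun ω => av_mono fun z1 => prod_le_prod (fun a _ => hfn a _) fun a _ => hfν a _
  have hG0 : ∀ ω, 0 ≤ G ω := fun ω => av_nonneg fun z1 => prod_nonneg fun a _ => hfn a _
  have h2 : ∀ ω, G ω ≤ b / 2 + (if b / 2 ≤ G ω then 1 else 0) + |V ω - 1| := by
    intro ω
    have h3 := hGV ω
    have h4 := le_abs_self (V ω - 1)
    have h5 := abs_nonneg (V ω - 1)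
    split_ifs with h
    · linarith
    · push Not at h
      linarith
  have h3 := h1.trans (av_mono h2)
  rw [av_add, av_add, av_const] at h3
  have h4 : b / 4 ≤ av (fun ω : ZMod M × (Fin (k + 2) → Pt (bx N M H)) => if b / 2 ≤ G ω then (1 : ℝ) else 0) := by
    linarith
  rw [av_prod, av_comm] at h4
  obtain ⟨x, hx⟩ := exists_le_av _ _ h4
  refine ⟨x, univ.filter fun z2 => b / 2 ≤ G (z2, x), ?_, fun z2 hz2 => (mem_filter.1 hz2).2⟩
  unfold av at hx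
  rw [← Finset.sum_filter, sum_const, nsmul_eq_mul, mul_one, ZMod.card, le_div_iff₀ (by
    exact_mod_cast Nat.pos_of_ne_zero (NeZero.ne M))] at hx
  exact hx

end Pool.CS
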