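import Pool.Agent.Lib.MP_c77da8_nt.CS.DrS
import Pool.Agent.Lib.MP_c77da8_nt.CS.DrD

/-!
# CS-PairR: the hypotheses `AffOK` for the systems of forms in the rows (assembly)

`w0 = 2 Bc + cm + q + 2`.  `1/p ≤ 1/orderOf (2 : ZMod p)`: `orderOf 2 ≤ p - 1`, `0 < orderOf 2`.
-/

set_option autoImplicit false

namespace Pool.CS

open Finset Pool.CG Pool.CL

private theorem one_div_ord (p : ℕ) (hp : p.Prime) (h2 : 2 < p) : 1 / (p : ℝ) ≤ 1 / (orderOf (2 : ZMod p) : ℝ) := by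
  have : Fact p.Prime := ⟨hp⟩
  have hne : (2 : ZMod p) ≠ 0 := by
    intro h
    have h3 : ((2 : ℕ) : ZMod p) = 0 := by exact_mod_cast h
    rw [ZMod.natCast_eq_zero_iff] at h3
    have := Nat.le_of_dvd (by norm_num) h3
    omega
  have h1 : orderOf (2 : ZMod p) ∣ p - 1 := orderOf_dvd_of_pow_eq_one (ZMod.pow_card_sub_one_eq_one hne)
  have h3 : orderOf (2 : ZMod p) ≤ p - 1 := Nat.le_of_dvd (by omega) h1
  have h4 : 0 < orderOf (2 : ZMod p) := Nat.pos_of_dvd_of_pos h1 (by omega)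
  refine one_div_le_one_div_of_le (by exact_mod_cast h4) ?_
  exact_mod_cast h3.trans (Nat.sub_le _ _)

theorem affok_rows (t Bc Jn cm q : ℕ) (hq : 1 ≤ q) :
    ∃ w0 : ℕ, ∀ w ≥ w0, ∃ H0 : ℕ, ∀ H ≥ H0, ∀ (N M : ℕ) [NeZero N] [NeZero M], SizeOK t Jn Bc H N M → 1 ≤ Real.log N →
      ∀ (I J : Type) [Fintype I] [Fintype J] [DecidableEq J], Fintype.card J ≤ Jn →
      ∀ (ρ : I → ℕ) (e : I → J → ℤ), (∀ i, 1 ≤ ρ i ∧ ρ i ≤ cm) → (∀ i l, |e i l| ≤ (Bc : ℤ)) →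
        (∀ i j, i ≠ j → ρ i ≠ ρ j ∨ e i ≠ e j) →
        AffOK (Ω := ZMod M × (J → Pt (bx N M H))) w H N 1 1 (Real.log N ^ (9 ^ t + t + 1))
          (fun i _ => AR w q (ρ i)) (fun i ω => BR w q (e i) ω)
          (fun i j ω => DR w q (Jn * Bc * H) (ρ i) (ρ j) (e i) (e j) ω) := by
  refine ⟨2 * Bc + cm + q + 2, fun w hw => ?_⟩
  obtain ⟨H0, hH0⟩ := DR_le w q cm hq
  refine ⟨H0, fun H hH N M _ _ hS hlog I J _ _ _ hJ ρ e hρ he hne => ?_⟩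
  obtain ⟨s1, s2, s3, s4⟩ := hS
  have hP : 1 ≤ Real.log N ^ (9 ^ t + t + 1) := one_le_pow₀ hlog
  refine ⟨fun i ω => ⟨?_, BR_le w q (ρ i) hq (hρ i).1 s4 (e i) ω⟩, fun i ω p hp hd => ?_, fun i j hij => ⟨?_, ?_, ?_⟩⟩
  · exact Nat.mul_pos (W_pos w q hq) (hρ i).1
  · exact AR_prime w q (ρ i) hq (by omega) (hρ i).1 (by have := (hρ i).2; omega) p hp hd
  · intro ω
    exact hH0 H hH N M s3 J _ _ _ (hρ i).2 (hρ j).2 (e i) (e j) ω
  · intro ω _ p _ _ hc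
    exact DR_modEq w q _ (ρ i) (ρ j) (e i) (e j) ω p hc
  · by_cases h : ρ i = ρ j
    · have h1 : e i ≠ e j := (hne i j hij).resolve_left (fun h' => h' h)
      obtain ⟨a1, a2⟩ := dr_same w q Jn Bc cm H N M _ hP hq hw s1 s2 J hJ (ρ i) (hρ i).1 (hρ i).2 (e i) (e j) (he i) (he j) h1
      beta_reduce
      rw [← h]
      refine ⟨a1, fun p hp hwp => (a2 p hp hwp).trans ?_⟩
      have := one_div_ord p hp (by omega)
      linarith
    · obtain ⟨a1, a2⟩ := dr_diff w q Jn Bc cm H N M _ hP hq hw s1 s2 J hJ (ρ i) (ρ j) (hρ i).2 (hρ j).2 h (e i) (e j) (he i) (he j)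
      refine ⟨a1, fun p hp hwp => (a2 p hp hwp).trans ?_⟩
      have := one_div_ord p hp (by omega)
      linarith

end Pool.CS
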