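import Pool.Agent.Lib.MP_c77da8_nt.CS.UniR
import Pool.Agent.Lib.MP_c77da8_nt.CS.ValR

/-!
# CS-PairS: two points in the same row

`e ≠ e'`: choose `l` with `e l ≠ e' l` and fix the other coordinates of `x` (`av_update l` of `CG/Basic.lean`, or a fibre count over
`x ↦ x` without the coordinate `l`): `vR e x - vR e' x = (e l - e' l) X + b` with `X = (x l).2.val` uniform in `{1, ..., H}` and `b` independent of `x l`.
`uni_dvd` (`0 < |e l - e' l| ≤ 2 Bc < p`) and `uni_zero`.
-/

set_option autoImplicit false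

namespace Pool.CS

open Finset Pool.CG Pool.CL

private theorem PairS_count {J X : Type} [Fintype J] [DecidableEq J] [Fintype X] [Nonempty X] (l : J)
    (P : (J → X) → Prop) [DecidablePred P] (C : ℝ)
    (hP : ∀ x : J → X, ((univ.filter fun t : X => P (Function.update x l t)).card : ℝ) ≤ C) :
    ((univ.filter fun x : J → X => P x).card : ℝ) ≤
      C / (Fintype.card X : ℝ) * (Fintype.card (J → X) : ℝ) := by
  have hX : (0 : ℝ) < Fintype.card X := by exact_mod_cast Fintype.card_pos
  have hY : (0 : ℝ) < Fintype.card (J → X) := by exact_mod_cast Fintype.card_pos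
  have h1 : av (fun x : J → X => if P x then (1 : ℝ) else 0) =
      ((univ.filter fun x : J → X => P x).card : ℝ) / Fintype.card (J → X) := by
    unfold av
    rw [Finset.sum_boole]
  have h2 : av (fun x : J → X => if P x then (1 : ℝ) else 0) ≤ C / (Fintype.card X : ℝ) := by
    rw [av_update l]
    refine av_le_of_le fun x => ?_
    unfold av
    rw [Finset.sum_boole]
    exact div_le_div_of_nonneg_right (hP x) hX.le
  rw [h1, div_le_iff₀ hY] at h2
  exact h2

private theorem PairS_fib (N M H : ℕ) [NeZero N] [NeZero M] (R : ℕ → Prop) [DecidablePred R]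
    (T : Pt (bx N M H) → Prop) [DecidablePred T]
    (hT : ∀ t, T t → R (t : ZZ N M).2.val) :
    (univ.filter fun t : Pt (bx N M H) => T t).card ≤
      ((Finset.Ico 1 (1 + H)).filter fun x : ℕ => R x).card := by
  refine Finset.card_le_card_of_injOn (fun t => (t : ZZ N M).2.val) ?_ ?_
  · intro t ht
    have ht' : T t := (Finset.mem_filter.1 (Finset.mem_coe.1 ht)).2
    have hm := (Finset.mem_filter.1 t.2).2
    rw [Finset.mem_coe, Finset.mem_filter, Finset.mem_Ico]
    exact ⟨⟨hm.2.1, Nat.lt_one_add_iff.2 hm.2.2⟩, hT t ht'⟩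
  · intro t _ t' _ h
    have hm := (Finset.mem_filter.1 t.2).2
    have hm' := (Finset.mem_filter.1 t'.2).2
    apply Subtype.ext
    refine Prod.ext (hm.1.trans hm'.1.symm) ?_
    exact ZMod.val_injective M h

private theorem PairS_val {N M H : ℕ} [NeZero N] [NeZero M] {J : Type} [Fintype J] [DecidableEq J]
    (e e' : J → ℤ) (l : J) (x : J → Pt (bx N M H)) (t : Pt (bx N M H)) :
    vR e (Function.update x l t) - vR e' (Function.update x l t) =
      (e l - e' l) * (((t : ZZ N M).2.val : ℕ) : ℤ) +
        ∑ i ∈ univ.erase l, (e i - e' i) * ((x i : ZZ N M).2.val : ℤ) := by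
  unfold vR
  rw [← Finset.sum_sub_distrib, ← Finset.add_sum_erase _ _ (Finset.mem_univ l),
    Function.update_self]
  congr 1
  · ring
  · refine Finset.sum_congr rfl fun i hi => ?_
    rw [Function.update_of_ne (Finset.ne_of_mem_erase hi)]
    ring

theorem pair_same (N M H Bc : ℕ) [NeZero N] [NeZero M] (h1 : 1 ≤ H) (hH : H < M) (J : Type) [Fintype J] [DecidableEq J]
    (e e' : J → ℤ) (he : ∀ l, |e l| ≤ (Bc : ℤ)) (he' : ∀ l, |e' l| ≤ (Bc : ℤ)) (hne : e ≠ e') :
    ((univ.filter fun x : J → Pt (bx N M H) => vR e x = vR e' x).card : ℝ) * H ≤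
        Fintype.card (J → Pt (bx N M H)) ∧
      ∀ p : ℕ, p.Prime → 2 * Bc < p →
        ((univ.filter fun x : J → Pt (bx N M H) => (p : ℤ) ∣ vR e x - vR e' x).card : ℝ) ≤
          (1 / (p : ℝ) + 1 / (H : ℝ)) * Fintype.card (J → Pt (bx N M H)) := by
  obtain ⟨l, hl⟩ : ∃ l, e l ≠ e' l := by
    by_contra h
    push Not at h
    exact hne (funext h)
  have hcard : Fintype.card (Pt (bx N M H)) = H := by
    rw [Fintype.card_coe, bx_card N M H hH]
  have hHpos : (0 : ℝ) < H := by exact_mod_cast h1
  have hne' : Nonempty (Pt (bx N M H)) := by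
    obtain ⟨a, ha⟩ := bx_nonempty N M H h1 hH
    exact ⟨⟨a, ha⟩⟩
  have ha0 : e l - e' l ≠ 0 := sub_ne_zero.2 hl
  constructor
  · have h2 := PairS_count l (fun x : J → Pt (bx N M H) => vR e x = vR e' x) 1 (by
      intro x
      have h3 := PairS_fib N M H (fun n : ℕ => (e l - e' l) * (n : ℤ) +
          (∑ i ∈ univ.erase l, (e i - e' i) * ((x i : ZZ N M).2.val : ℤ)) = 0)
        (fun t => vR e (Function.update x l t) = vR e' (Function.update x l t)) (by
          intro t ht
          have h4 := PairS_val e e' l x t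
          rw [ht, sub_self] at h4
          exact h4.symm)
      have h5 := uni_zero (e l - e' l)
        (∑ i ∈ univ.erase l, (e i - e' i) * ((x i : ZZ N M).2.val : ℤ)) ha0 (Finset.Ico 1 (1 + H))
      exact_mod_cast h3.trans h5)
    rw [hcard, one_div_mul_eq_div, le_div_iff₀ hHpos] at h2
    exact h2
  · intro p hp hpB
    have hpd : ¬ (p : ℤ) ∣ e l - e' l := by
      intro hd
      apply ha0
      refine Int.eq_zero_of_abs_lt_dvd hd ?_
      have h3 : |e l - e' l| ≤ |e l| + |e' l| := abs_sub _ _
      have h4 := he l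
      have h5 := he' l
      have h6 : 2 * (Bc : ℤ) < (p : ℤ) := by exact_mod_cast hpB
      linarith
    have hppos : (0 : ℝ) < p := by exact_mod_cast hp.pos
    have h2 := PairS_count l (fun x : J → Pt (bx N M H) => (p : ℤ) ∣ vR e x - vR e' x)
      ((H : ℝ) / p + 1) (by
      intro x
      have h3 := PairS_fib N M H (fun n : ℕ => (p : ℤ) ∣ (e l - e' l) * (n : ℤ) +
          (∑ i ∈ univ.erase l, (e i - e' i) * ((x i : ZZ N M).2.val : ℤ)))
        (fun t => (p : ℤ) ∣ vR e (Function.update x l t) - vR e' (Function.update x l t)) (by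
          intro t ht
          rw [PairS_val e e' l x t] at ht
          exact ht)
      have h5 := uni_dvd p hp (e l - e' l)
        (∑ i ∈ univ.erase l, (e i - e' i) * ((x i : ZZ N M).2.val : ℤ)) hpd 1 H
      refine le_trans ?_ h5
      exact_mod_cast h3)
    rw [hcard] at h2
    have h7 : ((H : ℝ) / p + 1) / H = 1 / (p : ℝ) + 1 / (H : ℝ) := by
      field_simp
    rw [h7] at h2
    exact h2

end Pool.CS
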