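import Pool.Agent.Lib.MP_c77da8_nt.CS.Defs

/-!
# CS-ParL: the choice of the sizes for a given `M = ⌊(log N)^L / C0⌋`

`e = 9^t + t + 1`, `L ≥ 2 e + 1`; `b = ⌈B/κ⌉₊ + 1`, `C1 = (8 Jn B b + 8) b + 8 Jn B b + b + B + 1`; `H' = sqrt (M / C1)`, `H = b H'`.
-/

set_option autoImplicit false

namespace Pool.CS

open Finset Pool.CG Pool.CL

private lemma ParL_growth (K : ℝ) (e : ℕ) : ∃ N0 : ℕ, ∀ N ≥ N0, K ≤ Real.log (N : ℝ) ∧
    Real.log (N : ℝ) ^ e ≤ (N : ℝ) := by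
  have h0 : Filter.Tendsto (fun N : ℕ => Real.log (N : ℝ)) Filter.atTop Filter.atTop :=
    Real.tendsto_log_atTop.comp tendsto_natCast_atTop_atTop
  have h1 : (fun x : ℝ => Real.log x ^ e) =o[Filter.atTop] (fun x : ℝ => x) :=
    Real.isLittleO_pow_log_id_atTop
  have h2 := (h1.comp_tendsto (tendsto_natCast_atTop_atTop (R := ℝ))).def (c := 1) one_pos
  obtain ⟨N0, hN0⟩ := Filter.eventually_atTop.1 ((h0.eventually_ge_atTop K).and
    (h2.and (Filter.eventually_ge_atTop 1)))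
  refine ⟨N0, fun N hN => ?_⟩
  obtain ⟨h3, h4, h5⟩ := hN0 N hN
  refine ⟨h3, ?_⟩
  simp only [Function.comp_apply, one_mul] at h4
  rw [Real.norm_of_nonneg (Nat.cast_nonneg N)] at h4
  exact (le_abs_self _).trans (by rwa [Real.norm_eq_abs] at h4)

theorem par_l (t Jn B H0 M0 C0 : ℕ) (κ : ℝ) (hκ : 0 < κ) (hC0 : 1 ≤ C0) (L : ℕ) (hL : 2 * (9 ^ t + t + 1) + 1 ≤ L) :
    ∃ N0 : ℕ, ∀ N ≥ N0, ∃ H' H M : ℕ, M = ⌊Real.log N ^ L / C0⌋₊ ∧
      H0 ≤ H' ∧ H' ≤ H ∧ 1 ≤ H' ∧ M0 ≤ M ∧ SizeOK t Jn B H' N M ∧ SizeOK t Jn B H N M ∧ (B : ℝ) * H' ≤ κ * H ∧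
      H + B * H' < M ∧ 8 * (Jn * B * H) ≤ M ∧ M ^ 2 ≤ N := by
  obtain ⟨e, he⟩ : ∃ e : ℕ, e = 9 ^ t + t + 1 := ⟨_, rfl⟩
  have he1 : e ≠ 0 := by
    rw [he]
    exact Nat.succ_ne_zero _
  rw [← he] at hL
  obtain ⟨b, hb⟩ : ∃ b : ℕ, b = ⌈(B : ℝ) / κ⌉₊ + 1 := ⟨_, rfl⟩
  have hb1 : 1 ≤ b := by omega
  obtain ⟨C1, hC1⟩ : ∃ C1 : ℕ, C1 = (8 * (Jn * B * b) + 8) * b + 8 * (Jn * B * b) + b + B + 1 := ⟨_, rfl⟩
  have hC11 : 1 ≤ C1 := by omega
  -- `Q`: a lower bound for `H'`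
  obtain ⟨Q, hQ⟩ : ∃ Q : ℕ, Q = H0 + M0 + 4 * C1 + 4 := ⟨_, rfl⟩
  obtain ⟨N0, hN0⟩ := ParL_growth (max ((64 * C0 * C1 : ℕ) : ℝ) ((Q : ℕ) : ℝ)) (2 * L)
  refine ⟨max N0 3, fun N hN => ?_⟩
  obtain ⟨hg1, hg2⟩ := hN0 N ((le_max_left _ _).trans hN)
  obtain ⟨l, hl⟩ : ∃ l : ℝ, l = Real.log N := ⟨_, rfl⟩
  rw [← hl] at hg1 hg2 ⊢
  have hl64 : ((64 * C0 * C1 : ℕ) : ℝ) ≤ l := (le_max_left _ _).trans hg1
  have hlQ : ((Q : ℕ) : ℝ) ≤ l := (le_max_right _ _).trans hg1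
  have hC0r : (1 : ℝ) ≤ C0 := by exact_mod_cast hC0
  have hC1r : (1 : ℝ) ≤ C1 := by exact_mod_cast hC11
  have hQ4 : (4 : ℝ) ≤ Q := by
    have : 4 ≤ Q := by omega
    exact_mod_cast this
  have hl1 : (1 : ℝ) ≤ l := by linarith
  obtain ⟨M, hM⟩ : ∃ M : ℕ, M = ⌊l ^ L / C0⌋₊ := ⟨_, rfl⟩
  obtain ⟨H', hH'⟩ : ∃ H' : ℕ, H' = Nat.sqrt (M / C1) := ⟨_, rfl⟩
  have hMle : (M : ℝ) ≤ l ^ L / C0 := by
    rw [hM]
    exact Nat.floor_le (by positivity)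
  have hMgt : l ^ L / C0 < M + 1 := by
    rw [hM]
    exact Nat.lt_floor_add_one _
  have h2e : l ^ (2 * e + 1) ≤ l ^ L := pow_le_pow_right₀ hl1 hL
  have hlow : 64 * C1 * l ^ (2 * e) ≤ M + 1 := by
    have h1 : 64 * C1 * l ^ (2 * e) ≤ l ^ L / C0 := by
      rw [le_div_iff₀ (by linarith)]
      calc 64 * C1 * l ^ (2 * e) * C0 = ((64 * C0 * C1 : ℕ) : ℝ) * l ^ (2 * e) := by push_cast; ring
        _ ≤ l * l ^ (2 * e) := mul_le_mul_of_nonneg_right hl64 (by positivity)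
        _ = l ^ (2 * e + 1) := by ring
        _ ≤ l ^ L := h2e
    linarith
  -- the size of `H'`
  have hP1 : (1 : ℝ) ≤ l ^ e := one_le_pow₀ hl1
  have hH'up : C1 * H' ^ 2 ≤ M := by
    have h1 : H' * H' ≤ M / C1 := by rw [hH']; exact Nat.sqrt_le _
    calc C1 * H' ^ 2 = C1 * (H' * H') := by ring
      _ ≤ C1 * (M / C1) := Nat.mul_le_mul_left _ h1
      _ ≤ M := Nat.mul_div_le _ _
  have hH'lo : M < C1 * ((H' + 1) ^ 2) := by
    have h1 : M / C1 < (H' + 1) * (H' + 1) := by rw [hH']; exact Nat.lt_succ_sqrt _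
    have h2 : M < C1 * (M / C1 + 1) := by
      have := Nat.lt_mul_div_succ M (show 0 < C1 by omega)
      exact this
    refine h2.trans_le ?_
    calc C1 * (M / C1 + 1) ≤ C1 * ((H' + 1) * (H' + 1)) := Nat.mul_le_mul_left _ h1
      _ = C1 * ((H' + 1) ^ 2) := by ring
  have hH'big : 7 * l ^ e ≤ H' := by
    by_contra hcon
    push Not at hcon
    have h1 : (H' : ℝ) + 1 ≤ 8 * l ^ e := by linarith
    have h2 : ((M : ℝ) + 1) ≤ C1 * (8 * l ^ e) ^ 2 := by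
      have h3 : (M : ℝ) + 1 ≤ C1 * ((H' : ℝ) + 1) ^ 2 := by exact_mod_cast hH'lo
      refine h3.trans (mul_le_mul_of_nonneg_left ?_ (by linarith))
      exact pow_le_pow_left₀ (by positivity) h1 2
    have h4 : C1 * (8 * l ^ e) ^ 2 = 64 * C1 * l ^ (2 * e) := by
      rw [mul_pow, ← pow_mul, mul_comm e 2]
      ring
    -- equality is excluded by a strict step
    have h5 : (M : ℝ) + 1 ≤ C1 * (8 * l ^ e) ^ 2 := h2
    have h6 : (H' : ℝ) + 1 < 8 * l ^ e := by linarith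
    have h7 : (M : ℝ) + 1 < C1 * (8 * l ^ e) ^ 2 := by
      have h3 : (M : ℝ) + 1 ≤ C1 * ((H' : ℝ) + 1) ^ 2 := by exact_mod_cast hH'lo
      refine h3.trans_lt (mul_lt_mul_of_pos_left ?_ (by linarith))
      exact pow_lt_pow_left₀ h6 (by positivity) (by norm_num)
    rw [h4] at h7
    linarith
  have hH'l : l ≤ H' := by
    have h1 : l ≤ l ^ e := le_self_pow₀ hl1 he1
    linarith
  have hH'Q : Q ≤ H' := by exact_mod_cast hlQ.trans hH'l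
  have hQC : 4 * C1 + 4 ≤ H' := by omega
  -- consequences
  have hH'1 : 1 ≤ H' := by omega
  have hHH : H' ≤ b * H' := Nat.le_mul_of_pos_left _ hb1
  have hM4 : ∀ h : ℕ, H' ≤ h → M ≤ h ^ 4 := by
    intro h hh
    have h1 : C1 * (H' + 1) ^ 2 ≤ H' ^ 4 := by
      have h2 : C1 * 4 ≤ H' := by omega
      have h3 : (H' + 1) ^ 2 ≤ 4 * H' ^ 2 := by nlinarith
      calc C1 * (H' + 1) ^ 2 ≤ C1 * (4 * H' ^ 2) := Nat.mul_le_mul_left _ h3
        _ = (C1 * 4) * H' ^ 2 := by ring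
        _ ≤ H' * H' ^ 2 := Nat.mul_le_mul_right _ h2
        _ ≤ H' * H' ^ 3 := Nat.mul_le_mul_left _ (Nat.pow_le_pow_right hH'1 (by norm_num))
        _ = H' ^ 4 := by ring
    exact (hH'lo.le.trans h1).trans (Nat.pow_le_pow_left hh 4)
  have hMN2 : M ^ 2 ≤ N := by
    have h1 : (M : ℝ) ^ 2 ≤ N := by
      calc (M : ℝ) ^ 2 ≤ (l ^ L / C0) ^ 2 := pow_le_pow_left₀ (by positivity) hMle 2
        _ ≤ (l ^ L) ^ 2 := pow_le_pow_left₀ (by positivity) (div_le_self (by positivity) hC0r) 2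
        _ = l ^ (2 * L) := by rw [← pow_mul, mul_comm L 2]
        _ ≤ N := hg2
    exact_mod_cast h1
  have hMN : M ≤ N := (Nat.le_self_pow (by norm_num) M).trans hMN2
  have hcoef : ∀ h : ℕ, h ≤ b * H' → (4 * (Jn * B * h) + 4) * h ≤ M := by
    intro h hh
    have h1 : (4 * (Jn * B * h) + 4) * h ≤ (8 * (Jn * B * b) + 8) * b * H' ^ 2 := by
      calc (4 * (Jn * B * h) + 4) * h ≤ (4 * (Jn * B * (b * H')) + 4) * (b * H') :=
            Nat.mul_le_mul (Nat.add_le_add_right (Nat.mul_le_mul_left _ (Nat.mul_le_mul_left _ hh)) _) hh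
        _ ≤ (4 * (Jn * B * (b * H')) + 4 * H') * (b * H') :=
            Nat.mul_le_mul_right _ (Nat.add_le_add_left (Nat.le_mul_of_pos_right _ (by omega)) _)
        _ = (4 * (Jn * B * b) + 4) * b * H' ^ 2 := by ring
        _ ≤ (8 * (Jn * B * b) + 8) * b * H' ^ 2 :=
            Nat.mul_le_mul_right _ (Nat.mul_le_mul_right _ (by omega))
    refine h1.trans (le_trans (Nat.mul_le_mul_right _ ?_) hH'up)
    omega
  refine ⟨H', b * H', M, hM, by omega, hHH, hH'1, ?_, ⟨?_, hcoef H' hHH, hM4 H' le_rfl, hMN⟩,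
    ⟨?_, hcoef (b * H') le_rfl, hM4 (b * H') hHH, hMN⟩, ?_, ?_, ?_, hMN2⟩
  · have h1 : H' ≤ M := by
      refine le_trans ?_ hH'up
      calc H' = 1 * H' ^ 1 := by ring
        _ ≤ C1 * H' ^ 2 := Nat.mul_le_mul hC11 (Nat.pow_le_pow_right hH'1 (by norm_num))
    omega
  · rw [← he, ← hl]
    linarith
  · rw [← he, ← hl]
    have : (H' : ℝ) ≤ ((b * H' : ℕ) : ℝ) := by exact_mod_cast hHH
    linarith
  · have h1 : (B : ℝ) / κ ≤ b := by
      rw [hb]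
      push_cast
      have := Nat.le_ceil ((B : ℝ) / κ)
      linarith
    rw [div_le_iff₀ hκ] at h1
    have h2 : (0 : ℝ) ≤ H' := Nat.cast_nonneg _
    push_cast
    calc (B : ℝ) * H' ≤ (b * κ) * H' := mul_le_mul_of_nonneg_right h1 h2
      _ = κ * (b * H') := by ring
  · have h1 : b * H' + B * H' < C1 * H' ^ 2 := by
      calc b * H' + B * H' = (b + B) * H' := by ring
        _ < C1 * H' := by
            refine Nat.mul_lt_mul_of_pos_right ?_ (by omega)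
            omega
        _ ≤ C1 * H' ^ 2 := Nat.mul_le_mul_left _ (Nat.le_self_pow (by norm_num) H')
    exact h1.trans_le hH'up
  · refine le_trans ?_ hH'up
    calc 8 * (Jn * B * (b * H')) = (8 * (Jn * B * b)) * H' := by ring
      _ ≤ C1 * H' := Nat.mul_le_mul_right _ (by omega)
      _ ≤ C1 * H' ^ 2 := Nat.mul_le_mul_left _ (Nat.le_self_pow (by norm_num) H')

end Pool.CS
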