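import Pool.Agent.Lib.MP_c77da8_nt.CS.Defs
import Pool.Agent.Lib.MP_c77da8_nt.CL.Ext
import Pool.Agent.Lib.MP_c77da8_nt.CL.Shift

/-!
# CS-ProdRA: the coefficients of the common shift

`er B α j i = B / α i` for `i ≠ j` (an exact division if `Adm B α j`), `0` for `i = j`.  Compare `CL/ProdA.lean`.
`er_le`: `Int.abs_ediv_le_abs`.
`row_shift`: with `σ = Equiv.swap 0 j` (so `σ i ≠ 0 ↔ i ≠ j`):
`∑ α_i (v_i + er_i t_(σ i)) = ∑ α_i v_i + ∑_(i ≠ j) B t_(σ i) = ∑ α_i v_i + ∑_l cube k B 0 l • t_l` (`Equiv.sum_comp σ`).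
-/

set_option autoImplicit false

namespace Pool.CS

open Finset Pool.CG Pool.CL

theorem er_le {k : ℕ} (B : ℕ) (α : Fin (k + 2) → ℤ) (j i : Fin (k + 2)) : |er B α j i| ≤ (B : ℤ) := by
  unfold er
  split_ifs with h
  · simp
  · have h1 := Int.abs_ediv_le_abs (B : ℤ) (α i)
    rwa [abs_of_nonneg (Int.natCast_nonneg B)] at h1

theorem row_shift {G : Type} [AddCommGroup G] {k B : ℕ} {α : Fin (k + 2) → ℤ} {j : Fin (k + 2)} (h : Adm B α j)
    (v t : Fin (k + 2) → G) :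
    ∑ i, α i • (v i + er B α j i • t (Equiv.swap 0 j i)) = ∑ i, α i • v i + ∑ l, cube k B 0 l • t l := by
  have h1 : ∑ l, cube k B 0 l • t l =
      ∑ i, cube k B 0 (Equiv.swap 0 j i) • t (Equiv.swap 0 j i) :=
    (Equiv.sum_comp (Equiv.swap 0 j) (fun l => cube k B 0 l • t l)).symm
  rw [h1, ← sum_add_distrib]
  apply sum_congr rfl
  intro i _
  rw [smul_add]
  congr 1
  rw [smul_smul]
  congr 1
  by_cases hij : i = j
  · subst hij
    rw [Equiv.swap_apply_right, h.1]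
    simp [cube]
  · unfold er cube
    rw [if_neg hij, Int.mul_ediv_cancel' (h.2 i hij).2, if_neg]
    intro h3
    apply hij
    have h2 := Equiv.swap_apply_right (0 : Fin (k + 2)) j
    exact (Equiv.swap 0 j).injective (h3.trans h2.symm)

end Pool.CS
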