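import Pool.Agent.Lib.MP_c77da8_nt.CS.Defs

/-!
# CS-TestR: the local test functions for forms with general coefficients

Copy `CL/TestL.lean` with `∑ l, α l • (x l : G)` in place of `b • psi j (cv x)`.
`av_phiR`: exchange the averages (`av_comm`) and substitute `z = y + ∑ α_l x_l` for fixed `x` (`av_equiv (Equiv.addRight _)`).
`phiR_nonneg`, `phiR_le_one`: `0 ≤ ∏ ≤ 1` (if `D` is empty the average is `0`).
-/

set_option autoImplicit false

namespace Pool.CS

open Finset Pool.CG Pool.CL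

theorem av_phiR {G : Type} [AddCommGroup G] [Fintype G] {k : ℕ} {D : Finset G} (α : Fin (k + 2) → ℤ) (j : Fin (k + 2))
    (u : G → Fin (k + 2) → (Fin (k + 2) → Pt D) → ℝ) (F : G → ℝ) :
    av (fun z : G => F z * phiR α j u z) = av (fun y : G => av (fun x : Fin (k + 2) → Pt D =>
      F (y + ∑ l, α l • (x l : G)) * ∏ i ∈ univ.erase j, u y i x)) := by
  have h1 : ∀ z : G, F z * phiR α j u z = av (fun x : Fin (k + 2) → Pt D =>
      F z * ∏ i ∈ univ.erase j, u (z - ∑ l, α l • (x l : G)) i x) := by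
    intro z
    rw [av_const_mul]
    rfl
  rw [av_congr h1, av_comm (fun (z : G) (x : Fin (k + 2) → Pt D) =>
    F z * ∏ i ∈ univ.erase j, u (z - ∑ l, α l • (x l : G)) i x),
    av_comm (fun (y : G) (x : Fin (k + 2) → Pt D) =>
      F (y + ∑ l, α l • (x l : G)) * ∏ i ∈ univ.erase j, u y i x)]
  refine av_congr fun x => ?_
  rw [← av_equiv (Equiv.addRight (∑ l, α l • (x l : G)))
    (fun z : G => F z * ∏ i ∈ univ.erase j, u (z - ∑ l, α l • (x l : G)) i x)]
  refine av_congr fun y => ?_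
  simp only [Equiv.coe_addRight, add_sub_cancel_right]

theorem phiR_nonneg {G : Type} [AddCommGroup G] {k : ℕ} {D : Finset G} (α : Fin (k + 2) → ℤ) (j : Fin (k + 2))
    (u : G → Fin (k + 2) → (Fin (k + 2) → Pt D) → ℝ) (hu : GoodL u) (z : G) : 0 ≤ phiR α j u z := by
  unfold phiR
  exact av_nonneg fun x => prod_nonneg fun i _ => (hu.1 _ i x).1

theorem phiR_le_one {G : Type} [AddCommGroup G] {k : ℕ} {D : Finset G} (α : Fin (k + 2) → ℤ) (j : Fin (k + 2))
    (u : G → Fin (k + 2) → (Fin (k + 2) → Pt D) → ℝ) (hu : GoodL u) (z : G) : phiR α j u z ≤ 1 := by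
  unfold phiR
  rcases isEmpty_or_nonempty (Fin (k + 2) → Pt D) with h | h
  · simp [av]
  · exact av_le_of_le fun x => prod_le_one (fun i _ => (hu.1 _ i x).1) (fun i _ => (hu.1 _ i x).2)

end Pool.CS
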