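import Pool.Agent.Lib.MP_c77da8_nt.CS.ProdRA
import Pool.Agent.Lib.MP_c77da8_nt.CS.TestR
import Pool.Agent.Lib.MP_c77da8_nt.CL.ProdB

/-!
# CS-ProdRB: one test function with the shift

Copy `phi_shift` of `CL/ProdB.lean` (`PsiB`, `psiB_bd`, `psiB_regroup` are used from there without change), with
`∑ l, α l • v l` in place of `b • psi j v`.
Apply `shift_av` with `Ψ v = PsiB d0 j u (z - ∑ α_l v_l) v` (bounded by 1 by `psiB_bd`), `e = er B α j`, and the vector
`t ∘ σ`, `σ = Equiv.swap 0 j`; for `v = cv x`: `extU_cv` gives `Ψ (cv x) = ∏ u (z - ∑ α_l x_l) i x`, i.e. the average is `phiR α j u z`.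
-/

set_option autoImplicit false

namespace Pool.CS

open Finset Pool.CG Pool.CL

theorem phiR_shift {G : Type} [AddCommGroup G] [Fintype G] [DecidableEq G] {k B : ℕ} {κ : ℝ}
    {D D' : Finset G} (hInv : Inv D D' B κ) (d0 : Pt D) (α : Fin (k + 2) → ℤ) (j : Fin (k + 2))
    (u : G → Fin (k + 2) → (Fin (k + 2) → Pt D) → ℝ) (hu : GoodL u) (z : G) (t : Fin (k + 2) → G)
    (ht : ∀ i, t i ∈ D') :
    |phiR α j u z - av (fun x : Fin (k + 2) → Pt D =>
      PsiB d0 j u (z - ∑ l, α l • ((x l : G) + er B α j l • t (Equiv.swap 0 j l)))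
        (fun i => (x i : G) + er B α j i • t (Equiv.swap 0 j i)))| ≤ 2 * (k + 2 : ℕ) * κ := by
  have hD : D.Nonempty := ⟨d0.1, d0.2⟩
  have h := shift_av hInv hD (fun v : Fin (k + 2) → G => PsiB d0 j u (z - ∑ l, α l • v l) v)
    (fun v => psiB_bd d0 j u hu _ v) (fun i => er B α j i) (fun i => er_le B α j i)
    (fun i => t (Equiv.swap 0 j i)) (fun i => ht _)
  have e1 : phiR α j u z = av (fun x : Fin (k + 2) → Pt D =>
      PsiB d0 j u (z - ∑ l, α l • cv x l) (cv x)) := by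
    unfold phiR
    refine av_congr fun x => ?_
    unfold PsiB
    refine Finset.prod_congr rfl fun i _ => ?_
    rw [extU_cv d0 _ i (hu.2 _ i) x]
    rfl
  rw [e1]
  rw [Fintype.card_fin] at h
  exact h

end Pool.CS
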