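import Pool.Agent.Lib.MP_c77da8_nt.CS.SysR

/-!
# CS-PropL: from the number of patterns to the number of the points with many patterns; the mean of the majorant
-/

set_option autoImplicit false

namespace Pool.CS

open Finset Pool.CG Pool.CL

theorem prop_cs2 {Ω : Type} [Fintype Ω] (f g : Ω → ℝ) (hf : ∀ z, 0 ≤ f z) (c : ℝ) (hc : 0 < c)
    (h0 : av f ≤ 2) (h1 : c ≤ av (fun z => f z * g z)) (h2 : av (fun z => f z * g z ^ 2) ≤ 2) :
    c ^ 2 / 8 ≤ av (fun z => open Classical in if c / 4 ≤ g z then f z else 0) := by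
  classical
  set w : Ω → ℝ := fun z => if c / 4 ≤ g z then f z else 0 with hw
  have hw0 : ∀ z, 0 ≤ w z := by
    intro z
    simp only [hw]
    split_ifs
    · exact hf z
    · exact le_rfl
  have hwf : ∀ z, w z ≤ f z := by
    intro z
    simp only [hw]
    split_ifs
    · exact le_rfl
    · exact hf z
  have hfg : ∀ z, f z * g z ≤ w z * g z + c / 4 * f z := by
    intro z
    simp only [hw]
    split_ifs with h
    · have := mul_nonneg (by linarith : 0 ≤ c / 4) (hf z)
      linarith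
    · push Not at h
      have := mul_le_mul_of_nonneg_left h.le (hf z)
      linarith
  have e1 : c ≤ av (fun z => w z * g z) + c / 4 * av f := by
    have := h1.trans (av_mono hfg)
    rw [av_add, av_const_mul] at this
    exact this
  have e2 : c / 2 ≤ av (fun z => w z * g z) := by
    have := mul_le_mul_of_nonneg_left h0 (by linarith : 0 ≤ c / 4)
    linarith
  have h3 := av_weight_cs (w := w) (F := g) hw0
  have h4 : (c / 2) ^ 2 ≤ (av (fun z => w z * g z)) ^ 2 := pow_le_pow_left₀ (by linarith) e2 2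
  have h5 : 0 ≤ av w := av_nonneg hw0
  have h6 : av (fun z => w z * g z ^ 2) ≤ 2 :=
    (av_mono fun z => mul_le_mul_of_nonneg_right (hwf z) (sq_nonneg (g z))).trans h2
  have h7 := mul_le_mul_of_nonneg_left h6 h5
  have h8 : c ^ 2 / 8 ≤ av w := by nlinarith
  convert h8 using 2

/-- the mean of the majorant -/
theorem av_nu (t Bc Jn cm q : ℕ) (ht : 1 ≤ t) (hq : 1 ≤ q) :
    ∃ w0 : ℕ, ∀ w ≥ w0, ∃ H0 N0 : ℕ, ∀ H ≥ H0, ∀ N ≥ N0, ∀ (M : ℕ) [NeZero N] [NeZero M], SizeOK t Jn Bc H N M →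
      ∀ c : ℕ, 1 ≤ c → c ≤ cm → av (fun z : ZZ N M => nuR w (Rt t N) (q * Wp w) c N M z) ≤ 2 := by
  obtain ⟨w0, hw0⟩ := lf_rows t Bc Jn cm q ht hq 1 one_pos
  refine ⟨w0, fun w hw => ?_⟩
  obtain ⟨H0, N0, h⟩ := hw0 w hw
  refine ⟨H0, N0, fun H hH N hN M _ _ hS c hc1 hc2 => ?_⟩
  have h1 := h H hH N hN M hS Unit (Fin 0) (by simpa using ht) (by simp) (fun _ => c) (fun _ _ => 0)
    (fun _ => ⟨hc1, hc2⟩) (fun _ l => l.elim0) (fun i j hij => absurd (Subsingleton.elim i j) hij)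
  have h2 := (abs_le.1 h1).2
  have h3 : av (fun ω : OmR N M H (Fin 0) => ∏ i : Unit, nuR w (Rt t N) (q * Wp w) c N M (ptR (fun _ => (0 : ℤ)) ω)) =
      av (fun z : ZZ N M => nuR w (Rt t N) (q * Wp w) c N M z) := by
    have : Nonempty (Fin 0 → Pt (bx N M H)) := ⟨fun l => l.elim0⟩
    rw [← av_fst (Ω' := Fin 0 → Pt (bx N M H)) (fun z : ZZ N M => nuR w (Rt t N) (q * Wp w) c N M z)]
    refine av_congr fun ω => ?_
    rw [Finset.univ_unique, Finset.prod_singleton]
    congr 1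
    unfold ptR
    simp
  rw [h3] at h2
  linarith

end Pool.CS
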