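import Pool.Agent.Lib.MP_c77da8_nt.CS.Defs
import Pool.Agent.Lib.MP_c77da8_nt.CG.Basic

/-!
# CS-PropR: from the number of patterns to the number of their first members

`prop_cs`: `av (f g) = av (f [0 < f g] g)`; Cauchy-Schwarz with the weight `f [0 < f g]` (`av_weight_cs` of `CG/Basic.lean`):
`c² ≤ (av f g)² ≤ av (f [..]) av (f [..] g²) ≤ av (f [..]) · 2`.
`sub_rows`: for fixed `x` substitute `y = z - ∑_l rowm c 0 l x_l` (`av_comm`, `av_equiv (Equiv.addRight _)`):
`y + ∑_l (ρ l - ρ a) x_l = z + (ρ 0 - ρ a) ∑ x_l`; the factor `a = 0` is `f 0 z` (`Finset.mul_prod_erase`).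
-/

set_option autoImplicit false

namespace Pool.CS

open Finset Pool.CG Pool.CL

theorem prop_cs {Ω : Type} [Fintype Ω] (f g : Ω → ℝ) (hf : ∀ z, 0 ≤ f z) (hg : ∀ z, 0 ≤ g z) (c : ℝ) (hc : 0 ≤ c)
    (h1 : c ≤ av (fun z => f z * g z)) (h2 : av (fun z => f z * g z ^ 2) ≤ 2) :
    c ^ 2 / 2 ≤ av (fun z => open Classical in if 0 < f z * g z then f z else 0) := by
  classical
  set w : Ω → ℝ := fun z => if 0 < f z * g z then f z else 0 with hw
  have hw0 : ∀ z, 0 ≤ w z := by
    intro z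
    by_cases h : 0 < f z * g z
    · simp only [hw, if_pos h]; exact hf z
    · simp only [hw, if_neg h]; exact le_refl _
  have hfg : ∀ z, f z * g z = w z * g z := by
    intro z
    by_cases h : 0 < f z * g z
    · simp only [hw, if_pos h]
    · simp only [hw, if_neg h, zero_mul]
      exact le_antisymm (not_lt.1 h) (mul_nonneg (hf z) (hg z))
  have hfg2 : ∀ z, f z * g z ^ 2 = w z * g z ^ 2 := by
    intro z
    have h1 : f z * g z ^ 2 = (f z * g z) * g z := by ring
    rw [h1, hfg z]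
    ring
  have e1 : av (fun z => f z * g z) = av (fun z => w z * g z) := av_congr hfg
  have e2 : av (fun z => f z * g z ^ 2) = av (fun z => w z * g z ^ 2) := av_congr hfg2
  have h3 := av_weight_cs (w := w) (F := g) hw0
  rw [← e1, ← e2] at h3
  have h4 : c ^ 2 ≤ (av (fun z => f z * g z)) ^ 2 := pow_le_pow_left₀ hc h1 2
  have h5 : 0 ≤ av w := av_nonneg hw0
  have h6 : av w * av (fun z => f z * g z ^ 2) ≤ av w * 2 := mul_le_mul_of_nonneg_left h2 h5
  have h7 : c ^ 2 / 2 ≤ av w := by linarith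
  convert h7 using 2

theorem sub_rows {k N M H : ℕ} [NeZero N] [NeZero M] (f : Fin (k + 2) → ZZ N M → ℝ) (ρ : Fin (k + 2) → ℕ) :
    av (fun y : ZZ N M => av (fun x : Fin (k + 2) → Pt (bx N M H) =>
        ∏ a, f a (y + ∑ l, rowm (fun a => (ρ a : ℤ)) a l • (x l : ZZ N M)))) =
      av (fun z : ZZ N M => f 0 z * GR (H := H) f ρ z) := by
  rw [av_comm]
  have h1 : ∀ x : Fin (k + 2) → Pt (bx N M H),
      av (fun y : ZZ N M => ∏ a, f a (y + ∑ l, rowm (fun a => (ρ a : ℤ)) a l • (x l : ZZ N M))) =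
      av (fun z : ZZ N M => f 0 z *
        ∏ a ∈ univ.erase 0, f a (z + ((ρ 0 : ℤ) - (ρ a : ℤ)) • SR x)) := by
    intro x
    rw [← av_equiv (Equiv.subRight (∑ l, rowm (fun a => (ρ a : ℤ)) 0 l • (x l : ZZ N M)))
      (fun y : ZZ N M => ∏ a, f a (y + ∑ l, rowm (fun a => (ρ a : ℤ)) a l • (x l : ZZ N M)))]
    refine av_congr fun z => ?_
    have h2 : ∀ a, Equiv.subRight (∑ l, rowm (fun a => (ρ a : ℤ)) 0 l • (x l : ZZ N M)) z +
        ∑ l, rowm (fun a => (ρ a : ℤ)) a l • (x l : ZZ N M) =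
        z + ((ρ 0 : ℤ) - (ρ a : ℤ)) • SR x := by
      intro a
      rw [Equiv.subRight_apply, sub_add_eq_add_sub, add_sub_assoc, ← Finset.sum_sub_distrib]
      unfold SR
      rw [Finset.smul_sum]
      congr 1
      refine Finset.sum_congr rfl fun l _ => ?_
      rw [← sub_smul]
      congr 1
      unfold rowm
      ring
    simp only [h2]
    rw [← Finset.mul_prod_erase univ _ (Finset.mem_univ (0 : Fin (k + 2)))]
    congr 2
    rw [sub_self, zero_smul, add_zero]
  rw [av_congr h1, av_comm]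
  refine av_congr fun z => ?_
  rw [av_const_mul]
  rfl

end Pool.CS
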