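import Pool.Agent.Lib.MP_c77da8_nt.CS.ProdRC
import Pool.Agent.Lib.MP_c77da8_nt.CS.DensR
import Pool.Agent.Lib.MP_c77da8_nt.CS.CntR
import Pool.Agent.Lib.MP_c77da8_nt.CG.Dm

/-!
# CS-RSR: the relative Szemerédi theorem for rows

PROOF (compare `Pool.CL.rs_local`).  `c₁ = (d/8)^(k+2) (d/4 / 2^#ι)`; `cnt_row k (c₁/2)` gives `η₁, ε₁`; `dm_b (min ε₁ (d/2))` gives `m, ε₂`;
`prod_row k m ε₂` gives `κ, η₂`.  `η = min η₁ η₂`, `c0 = c₁/2`.  Test functions
`Φ = {φ | ∃ α j u, Adm B α j ∧ GoodL u ∧ φ = phiR α j u}`; `1 = phiR (0,1,...,1) 0 1 ∈ Φ`.  For every row `i` `dm_b` gives `g i`.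
`dense_row` (density `d/2`) gives `A`; for `r` with values in `A`, `cnt_row` with `a = rowm (c ∘ r)` (`Adm B (rowm (c ∘ r) j) j`).
-/

set_option autoImplicit false

namespace Pool.CS

open Finset Pool.CG Pool.CL

theorem rs_rows (k : ℕ) (d : ℝ) (hd : 0 < d) (ι : Type) [Fintype ι] [DecidableEq ι] :
    ∃ (κ η c0 : ℝ), 0 < κ ∧ 0 < η ∧ 0 < c0 ∧
    ∀ (ω : ι → ℝ), (∀ i, 0 ≤ ω i) → 0 < ∑ i, ω i →
    ∀ (B : ℕ) (c : ι → ℤ), (∀ i j, i ≠ j → c i ≠ c j ∧ (c i - c j) ∣ (B : ℤ)) →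
    ∀ (G : Type) [AddCommGroup G] [Fintype G] [DecidableEq G] (D D' : Finset G) (ν f : ι → G → ℝ),
      D.Nonempty → D'.Nonempty → (∀ i x, 0 ≤ f i x ∧ f i x ≤ ν i x) → (∀ i, d ≤ av (f i)) → Inv D D' B κ →
      (∀ i, LFav η (affF (D := D') (ν i) (cube k B) {0})) →
      (∀ r : Fin (k + 2) → ι, Function.Injective r →
        LFav η (affG (D := D) (fun a => ν (r a)) (rowm fun a => c (r a)) univ)) →
      ∃ A : Finset ι, d / 8 * ∑ i, ω i ≤ ∑ i ∈ A, ω i ∧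
        ∀ r : Fin (k + 2) → ι, Function.Injective r → (∀ a, r a ∈ A) →
          c0 ≤ av (fun y : G => av (fun x : Fin (k + 2) → Pt D =>
            ∏ a, f (r a) (y + ∑ l, rowm (fun a => c (r a)) a l • (x l : G)))) := by
  obtain ⟨c₁, hc₁def⟩ : ∃ c₁ : ℝ, c₁ = (d / 8) ^ (k + 2) * (d / 4 / 2 ^ Fintype.card ι) := ⟨_, rfl⟩
  have hc₁ : 0 < c₁ := by rw [hc₁def]; positivity
  obtain ⟨η₁, ε₁, hη₁, hε₁, hcnt⟩ := cnt_row k (c₁ / 2) (by linarith)
  obtain ⟨m, ε₂, hε₂, hdm⟩ := dm_b (min ε₁ (d / 2)) (lt_min hε₁ (by linarith))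
  obtain ⟨κ, η₂, hκ, hη₂, hprod⟩ := prod_row k m ε₂ hε₂
  refine ⟨κ, min η₁ η₂, c₁ / 2, hκ, lt_min hη₁ hη₂, by linarith, ?_⟩
  intro ω hω hω1 B c hBc G _ _ _ D D' ν f hD hD' hf hdf hInv hcube hpatt
  have hGn : Nonempty G := ⟨0⟩
  obtain ⟨x₀, hx₀⟩ := id hD
  have hPt : Nonempty (Fin (k + 2) → Pt D) := ⟨fun _ => ⟨x₀, hx₀⟩⟩
  -- the dense models
  have hex : ∀ i, ∃ g : G → ℝ, (∀ z, 0 ≤ g z ∧ g z ≤ 1) ∧
      ∀ φ ∈ {φ : G → ℝ | ∃ (α : Fin (k + 2) → ℤ) (j : Fin (k + 2)) (u : G → Fin (k + 2) → (Fin (k + 2) → Pt D) → ℝ),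
        Adm B α j ∧ GoodL u ∧ φ = phiR α j u}, |av (fun z => (f i z - g z) * φ z)| ≤ min ε₁ (d / 2) := by
    intro i
    refine hdm G (ν i) (f i) _ (hf i) ?_ ?_
    · rintro φ ⟨α, j, u, _, hu, rfl⟩ z
      rw [abs_of_nonneg (phiR_nonneg α j u hu z)]
      exact phiR_le_one α j u hu z
    · intro l hl hlen
      have hx : ∀ s : Fin l.length, ∃ (α : Fin (k + 2) → ℤ) (j : Fin (k + 2))
          (u : G → Fin (k + 2) → (Fin (k + 2) → Pt D) → ℝ),
          Adm B α j ∧ GoodL u ∧ l[s.1] = phiR α j u := fun s => hl _ (List.getElem_mem _)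
      choose α j u h1 h2 h3 using hx
      have h := hprod G D D' B (ν i) hD hD' (fun x => (hf i x).1.trans (hf i x).2) hInv
        ((hcube i).mono (min_le_right _ _)) l.length α j u hlen h1 h2
      have e : ∀ z, (l.map fun φ => φ z).prod = ∏ s : Fin l.length, phiR (α s) (j s) (u s) z := by
        intro z
        rw [← Fin.prod_univ_fun_getElem l fun φ => φ z]
        exact Finset.prod_congr rfl fun s _ => congrFun (h3 s) z
      simp only [e]
      exact h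
  choose g hg hg' using hex
  -- the density of the models
  have h3 : ∀ i, d / 2 ≤ av (g i) := by
    intro i
    have hphi : ∀ z : G, phiR (D := D) (fun l : Fin (k + 2) => if l = 0 then (0 : ℤ) else 1) 0
        (fun (_ : G) (_ : Fin (k + 2)) (_ : Fin (k + 2) → Pt D) => (1 : ℝ)) z = 1 := by
      intro z
      unfold phiR
      simp only [Finset.prod_const_one]
      exact av_const 1
    have h2 := (hg' i _ ⟨fun l : Fin (k + 2) => if l = 0 then (0 : ℤ) else 1, 0,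
      (fun (_ : G) (_ : Fin (k + 2)) (_ : Fin (k + 2) → Pt D) => (1 : ℝ)),
      ⟨by simp, fun i hi => by simp [hi]⟩,
      ⟨fun _ _ _ => ⟨zero_le_one, le_rfl⟩, fun _ i => Ind.const i 1⟩, rfl⟩).trans (min_le_right _ _)
    simp only [hphi, mul_one] at h2
    rw [av_sub] at h2
    have := (abs_le.mp h2).2
    have := hdf i
    linarith
  obtain ⟨A, hA1, hA2⟩ := dense_row k (d / 2) (by linarith) ι ω hω hω1 c G D hD g hg h3
  refine ⟨A, ?_, ?_⟩
  · refine le_trans (le_of_eq ?_) hA1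
    ring
  · intro r hr hrA
    have h4 := hA2 r hrA
    have h5 := hcnt G D (rowm fun a => c (r a)) (fun a => ν (r a)) (fun a => f (r a)) (fun a => g (r a)) hD
      (fun j => sub_self _) (fun j x => hf (r j) x) (fun j x => hg (r j) x)
      ((hpatt r hr).mono (min_le_left _ _))
      (fun j u hu => (hg' (r j) _ ⟨rowm (fun a => c (r a)) j, j, u, ⟨sub_self _, fun i hi => by
        have h6 := hBc (r i) (r j) (fun h => hi (hr h))
        exact ⟨sub_ne_zero.2 h6.1, h6.2⟩⟩, hu, rfl⟩).trans (min_le_left _ _))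
    have e1 : (d / 2 / 4) ^ (k + 2) * (d / 2 / 2 / 2 ^ Fintype.card ι) = c₁ := by
      rw [hc₁def]
      congr 1
      · congr 1
        ring
      · ring
    rw [e1] at h4
    linarith

end Pool.CS
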