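import Pool.Agent.Lib.MP_c77da8_nt.CS.ScaleL

/-!
# CS-RowsL: the rows theorem at the scale `x`, `h ≤ (log x)^L`
-/

set_option autoImplicit false

namespace Pool.CS

open Finset Pool.CG Pool.CL

theorem scale_l (c : ℝ) (hc : 0 < c) (K N0 L : ℕ) (hK : 1 ≤ K) : ∃ x0 : ℕ, ∀ x ≥ x0, ∃ N : ℕ, N0 ≤ N ∧ K * N ≤ x ∧
    1 ≤ Real.log N ∧ Real.log N ≤ Real.log x ∧ Real.log x ^ L ≤ 2 * Real.log N ^ L ∧
    ∀ l : ℕ, c / (2 * K) * x / Real.log x ^ l ≤ c * N / Real.log N ^ l := by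
  obtain ⟨N1, hN1⟩ : ∃ N1 : ℕ, ∀ N ≥ N1, 2 * L * Real.log (2 * K) ≤ Real.log N :=
    Filter.eventually_atTop.1 ((Real.tendsto_log_atTop.comp tendsto_natCast_atTop_atTop).eventually_ge_atTop _)
  refine ⟨K * (N0 + N1 + 3) , fun x hx => ⟨x / K, ?_⟩⟩
  have hN : N0 + N1 + 3 ≤ x / K := by
    rw [Nat.le_div_iff_mul_le hK, mul_comm]
    exact hx
  have hKx : K * (x / K) ≤ x := Nat.mul_div_le x K
  have hN3 : (3 : ℝ) ≤ ((x / K : ℕ) : ℝ) := by exact_mod_cast (by omega : 3 ≤ x / K)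
  have hlog : 1 ≤ Real.log ((x / K : ℕ) : ℝ) := by
    rw [Real.le_log_iff_exp_le (by linarith)]
    exact (Real.exp_one_lt_d9.le.trans (by norm_num)).trans hN3
  have hle : ((x / K : ℕ) : ℝ) ≤ x := by exact_mod_cast Nat.div_le_self x K
  have hlog2 : Real.log ((x / K : ℕ) : ℝ) ≤ Real.log x := Real.log_le_log (by linarith) hle
  have hKr : (1 : ℝ) ≤ K := by exact_mod_cast hK
  have h2 : (x : ℝ) ≤ 2 * K * ((x / K : ℕ) : ℝ) := by
    have h3 : x < K * (x / K) + K := by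
      have := Nat.lt_mul_div_succ x (show 0 < K by omega)
      rw [Nat.mul_add, Nat.mul_one] at this
      exact this
    have h4 : K * (x / K) + K ≤ 2 * K * (x / K) := by
      have h5 : K * 1 ≤ K * (x / K) := Nat.mul_le_mul_left _ (by omega)
      have h6 : 2 * K * (x / K) = K * (x / K) + K * (x / K) := by ring
      omega
    exact_mod_cast (h3.le.trans h4)
  have h0 : (0 : ℝ) ≤ (x : ℝ) := Nat.cast_nonneg _
  have hlog3 : Real.log x ^ L ≤ 2 * Real.log ((x / K : ℕ) : ℝ) ^ L := by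
    obtain ⟨l, hl⟩ : ∃ l : ℝ, l = Real.log ((x / K : ℕ) : ℝ) := ⟨_, rfl⟩
    obtain ⟨m, hm⟩ : ∃ m : ℝ, m = Real.log (2 * K) := ⟨_, rfl⟩
    have h3 := hN1 (x / K) (by omega)
    rw [← hl, ← hm] at h3
    rw [← hl] at hlog hlog2 ⊢
    have hm0 : 0 ≤ m := by
      rw [hm]
      exact Real.log_nonneg (by linarith)
    have h4 : Real.log x ≤ l * (1 + m / l) := by
      have h5 := Real.log_le_log (by linarith : (0 : ℝ) < x) h2
      rw [Real.log_mul (by positivity) (by positivity), ← hl, ← hm] at h5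
      have h6 : l * (1 + m / l) = m + l := by
        field_simp
        ring
      linarith
    have h5 : (1 + m / l) ^ L ≤ 2 := by
      have h6 : 1 + m / l ≤ Real.exp (m / l) := by
        have := Real.add_one_le_exp (m / l)
        linarith
      have h7 : (1 + m / l) ^ L ≤ Real.exp (L * (m / l)) := by
        rw [Real.exp_nat_mul]
        exact pow_le_pow_left₀ (by positivity) h6 L
      have h8 : (L : ℝ) * (m / l) ≤ 1 / 2 := by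
        rw [← mul_div_assoc, div_le_div_iff₀ (by linarith) (by norm_num)]
        linarith
      have h9 : Real.exp (1 / 2) ≤ 2 := by
        have h10 : Real.exp (1 / 2) ^ 2 ≤ 2 ^ 2 := by
          rw [← Real.exp_nat_mul]
          norm_num
          linarith [Real.exp_one_lt_d9]
        exact le_of_sq_le_sq h10 (by norm_num)
      exact (h7.trans (Real.exp_le_exp.2 h8)).trans h9
    calc Real.log x ^ L ≤ (l * (1 + m / l)) ^ L := pow_le_pow_left₀ (by linarith) h4 L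
      _ = l ^ L * (1 + m / l) ^ L := mul_pow _ _ _
      _ ≤ l ^ L * 2 := mul_le_mul_of_nonneg_left h5 (by positivity)
      _ = 2 * l ^ L := mul_comm _ _
  refine ⟨by omega, hKx, hlog, hlog2, hlog3, fun l => ?_⟩
  have h7 : c / (2 * K) * x ≤ c * ((x / K : ℕ) : ℝ) := by
    rw [div_mul_eq_mul_div, div_le_iff₀ (by positivity)]
    calc c * x ≤ c * (2 * K * ((x / K : ℕ) : ℝ)) := mul_le_mul_of_nonneg_left h2 hc.le
      _ = c * ((x / K : ℕ) : ℝ) * (2 * K) := by ring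
  have h8 : (0 : ℝ) < Real.log ((x / K : ℕ) : ℝ) ^ l := pow_pos (by linarith) l
  exact div_le_div₀ (by positivity) h7 h8 (pow_le_pow_left₀ (by linarith) hlog2 l)

/-- the `h ≤ Y` which belong to the prime `p` -/
theorem ratio_aux {l m : ℝ} (hl : 1 ≤ l) (hlm : l ≤ m) (L k : ℕ) (h : m ^ L ≤ 2 * l ^ L) (c c' : ℝ) (hc : 0 ≤ c')
    (hcc : 2 * c' ≤ c) : c' * (m ^ L / m ^ k) ≤ c * (l ^ L / l ^ k) := by
  have hm : 1 ≤ m := hl.trans hlm
  have h1 : m ^ L / m ^ k ≤ 2 * (l ^ L / l ^ k) := by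
    rw [← mul_div_assoc]
    exact div_le_div₀ (by positivity) h (by positivity) (pow_le_pow_left₀ (by linarith) hlm k)
  calc c' * (m ^ L / m ^ k) ≤ c' * (2 * (l ^ L / l ^ k)) := mul_le_mul_of_nonneg_left h1 hc
    _ = 2 * c' * (l ^ L / l ^ k) := by ring
    _ ≤ c * (l ^ L / l ^ k) := mul_le_mul_of_nonneg_right hcc (by positivity)

/-- the rows theorem: a positive proportion of the rows `a n - h` has primes in one place -/
theorem rows_lx (k : ℕ) : ∃ (δ : ℝ) (L0 : ℕ), 0 < δ ∧ ∀ A : Finset ℕ, (∀ a ∈ A, 1 ≤ a) → ∀ q : ℕ, 1 ≤ q →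
    ∃ c : ℝ, 0 < c ∧ ∀ L ≥ L0, ∃ x0 : ℕ, ∀ x ≥ x0, ∀ ω : ℕ → ℝ, (∀ a, 0 ≤ ω a) →
      ∃ A' ⊆ A, δ * ∑ a ∈ A, ω a ≤ ∑ a ∈ A', ω a ∧
      ∀ a : Fin (k + 2) → ℕ, Function.Injective a → (∀ j, a j ∈ A') →
        c * x / Real.log x ≤ (({p : ℕ | p ≤ x ∧ p.Prime ∧ c * (Real.log x ^ L / Real.log x ^ (k + 1)) ≤
          (({h : ℕ | 1 ≤ h ∧ (h : ℝ) ≤ Real.log x ^ L ∧ h ≡ 1 [MOD q] ∧
            ∃ n, p = a 0 * n - h ∧ ∀ j, (a j * n - h).Prime}.ncard : ℕ) : ℝ)}.ncard : ℕ) : ℝ) ∧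
        c * Real.log x ^ L ≤ (({h : ℕ | 1 ≤ h ∧ (h : ℝ) ≤ Real.log x ^ L ∧ h ≡ 1 [MOD q] ∧
          c * x / Real.log x ^ (k + 2) ≤
            (({n : ℕ | n ≤ x ∧ ∀ j, (a j * n - h).Prime}.ncard : ℕ) : ℝ)}.ncard : ℕ) : ℝ) := by
  obtain ⟨δ, L0, hδ, H⟩ := rows_l k
  refine ⟨δ, L0, hδ, fun A hA q hq => ?_⟩
  obtain ⟨c, K, hc, hK, H2⟩ := H A hA q hq
  have hKr : (1 : ℝ) ≤ K := by exact_mod_cast hK
  refine ⟨c / (2 * K) / 2, by positivity, fun L hL => ?_⟩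
  obtain ⟨N0, H2⟩ := H2 L hL
  obtain ⟨x0, hx0⟩ := scale_l c hc K N0 L hK
  refine ⟨x0, fun x hx ω hω => ?_⟩
  obtain ⟨N, hN, hKN, hlog1, hlog, hlog3, hsc⟩ := hx0 x hx
  obtain ⟨A', hA', hcard, H3⟩ := H2 N hN ω hω
  refine ⟨A', hA', hcard, fun a ha haA => ?_⟩
  obtain ⟨h1, h2⟩ := H3 a ha haA
  obtain ⟨c', hc'⟩ : ∃ c' : ℝ, c' = c / (2 * K) / 2 := ⟨_, rfl⟩
  rw [← hc']
  have hc'0 : 0 ≤ c' := by rw [hc']; positivity
  have hcK : c' ≤ c / (2 * K) := by rw [hc']; exact half_le_self (by positivity)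
  have h2c : 2 * c' ≤ c := by
    rw [hc']
    have : c / (2 * K) ≤ c := div_le_self hc.le (by linarith)
    linarith
  have hlx1 : 1 ≤ Real.log x := hlog1.trans hlog
  have hfl : ∀ h : ℕ, h ≤ ⌊Real.log N ^ L⌋₊ → (h : ℝ) ≤ Real.log x ^ L := by
    intro h hh
    have g1 : (h : ℝ) ≤ Real.log N ^ L := (Nat.le_floor_iff (by positivity)).1 hh
    exact g1.trans (pow_le_pow_left₀ (by linarith) hlog L)
  have hfinh : ∀ P : ℕ → Prop, {h : ℕ | 1 ≤ h ∧ (h : ℝ) ≤ Real.log x ^ L ∧ P h}.Finite := fun P =>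
    (Set.finite_Iic ⌊Real.log x ^ L⌋₊).subset fun h hh => Nat.le_floor hh.2.1
  have hsx : ∀ l : ℕ, c' * x / Real.log x ^ l ≤ c * N / Real.log N ^ l := by
    intro l
    refine le_trans ?_ (hsc l)
    exact div_le_div_of_nonneg_right (mul_le_mul_of_nonneg_right hcK (Nat.cast_nonneg _)) (by positivity)
  refine ⟨?_, ?_⟩
  · have h6 := hsx 1
    rw [pow_one, pow_one] at h6
    refine (h6.trans h1).trans ?_
    have hsub : {p : ℕ | p ≤ K * N ∧ p.Prime ∧ c * (Real.log N ^ L / Real.log N ^ (k + 1)) ≤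
          (((HPs q ⌊Real.log N ^ L⌋₊ a p).ncard : ℕ) : ℝ)} ⊆
        {p : ℕ | p ≤ x ∧ p.Prime ∧ c' * (Real.log x ^ L / Real.log x ^ (k + 1)) ≤
          (({h : ℕ | 1 ≤ h ∧ (h : ℝ) ≤ Real.log x ^ L ∧ h ≡ 1 [MOD q] ∧
            ∃ n, p = a 0 * n - h ∧ ∀ j, (a j * n - h).Prime}.ncard : ℕ) : ℝ)} := by
      rintro p ⟨g1, g2, g3⟩
      refine ⟨g1.trans hKN, g2, (ratio_aux hlog1 hlog L (k + 1) hlog3 c c' hc'0 h2c).trans (g3.trans ?_)⟩
      have hs : HPs q ⌊Real.log N ^ L⌋₊ a p ⊆ {h : ℕ | 1 ≤ h ∧ (h : ℝ) ≤ Real.log x ^ L ∧ h ≡ 1 [MOD q] ∧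
            ∃ n, p = a 0 * n - h ∧ ∀ j, (a j * n - h).Prime} := fun h hh =>
        ⟨hh.1, hfl h hh.2.1, hh.2.2⟩
      exact_mod_cast Set.ncard_le_ncard hs (hfinh _)
    exact_mod_cast Set.ncard_le_ncard hsub ((Set.finite_Iic x).subset fun p hp => hp.1)
  · have h5 : c' * Real.log x ^ L ≤ c * Real.log N ^ L := by
      have := ratio_aux hlog1 hlog L 0 hlog3 c c' hc'0 h2c
      simpa using this
    refine (h5.trans h2).trans ?_
    have hsub : {h : ℕ | 1 ≤ h ∧ h ≤ ⌊Real.log N ^ L⌋₊ ∧ h ≡ 1 [MOD q] ∧ c * N / Real.log N ^ (k + 2) ≤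
          (({n : ℕ | n ≤ K * N ∧ ∀ j, (a j * n - h).Prime}.ncard : ℕ) : ℝ)} ⊆
        {h : ℕ | 1 ≤ h ∧ (h : ℝ) ≤ Real.log x ^ L ∧ h ≡ 1 [MOD q] ∧ c' * x / Real.log x ^ (k + 2) ≤
          (({n : ℕ | n ≤ x ∧ ∀ j, (a j * n - h).Prime}.ncard : ℕ) : ℝ)} := by
      rintro h ⟨g1, g2, g3, g4⟩
      refine ⟨g1, hfl h g2, g3, ((hsx (k + 2)).trans g4).trans ?_⟩
      have hsub : {n : ℕ | n ≤ K * N ∧ ∀ j, (a j * n - h).Prime} ⊆ {n : ℕ | n ≤ x ∧ ∀ j, (a j * n - h).Prime} :=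
        fun n hn => ⟨hn.1.trans hKN, hn.2⟩
      exact_mod_cast Set.ncard_le_ncard hsub ((Set.finite_Iic x).subset fun p hp => hp.1)
    exact_mod_cast Set.ncard_le_ncard hsub (hfinh _)

end Pool.CS
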