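import Pool.Agent.Lib.MP_c77da8_nt.CS.SysR

/-!
# CS-SecR: second moment with respect to the first prime

`GR ν ρ z` is an average over `x` (it must be given `H` explicitly: `GR (H := H)`); `ν_0 (z) (GR z)² = av_(x, x') ν_0 (z) ∏_(a ≠ 0) ν_a (z + (ρ 0 - ρ a) S x)
∏_(a ≠ 0) ν_a (z + (ρ 0 - ρ a) S x')`.  With the average over `z` this is the average over `OmR N M H (Fin (k+2) × Bool)` of the product over
`I = Option ({a // a ≠ 0} × Bool)`: `none`: row `ρ 0`, `e = 0`; `some (a, β)`: row `ρ a`, `e (l, β') = ρ 0 - ρ a` if `β' = β`, `0` otherwise.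
Different rows, or the same `a` and different `β` (`ρ 0 ≠ ρ a`).  `card I = 1 + 2 (k + 1) ≤ t`.  `lf_rows` with `η = 1`.
-/

set_option autoImplicit false

namespace Pool.CS

open Finset Pool.CG Pool.CL

private theorem SecR_sq {k : ℕ} {P : Type} [Fintype P] (G : (Fin (k + 2) → P) → ℝ) :
    av (fun x : Fin (k + 2) × Bool → P => G (fun l => x (l, false)) * G (fun l => x (l, true))) = av G ^ 2 := by
  let e : (Fin (k + 2) × Bool → P) ≃ (Fin (k + 2) → P) × (Fin (k + 2) → P) :=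
    { toFun := fun x => (fun l => x (l, false), fun l => x (l, true))
      invFun := fun y p => if p.2 = true then y.2 p.1 else y.1 p.1
      left_inv := by
        intro x
        funext p
        rcases p with ⟨l, b⟩
        cases b <;> simp
      right_inv := by
        intro y
        simp }
  have h := av_equiv e (fun z : (Fin (k + 2) → P) × (Fin (k + 2) → P) => G z.1 * G z.2)
  have h2 : av (fun x : Fin (k + 2) × Bool → P => G (fun l => x (l, false)) * G (fun l => x (l, true))) =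
      av (fun x => G (e x).1 * G (e x).2) := rfl
  rw [h2, h, av_prod]
  have h3 : ∀ x : Fin (k + 2) → P, av (fun y : Fin (k + 2) → P => G x * G y) = G x * av G :=
    fun x => av_const_mul (G x) _
  show av (fun x => av (fun y : Fin (k + 2) → P => G x * G y)) = _
  rw [av_congr h3, av_mul_const, sq]

/-- the rows of the system -/
private def SecR_row {k : ℕ} (ρ : Fin (k + 2) → ℕ) : Option ({a : Fin (k + 2) // a ≠ 0} × Bool) → ℕ
  | none => ρ 0
  | some p => ρ p.1.1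

/-- the matrix of the system -/
private def SecR_mat {k : ℕ} (ρ : Fin (k + 2) → ℕ) :
    Option ({a : Fin (k + 2) // a ≠ 0} × Bool) → Fin (k + 2) × Bool → ℤ
  | none => fun _ => 0
  | some p => fun l => if l.2 = p.2 then (ρ 0 : ℤ) - ρ p.1.1 else 0

private theorem SecR_pt_none {k N M H : ℕ} [NeZero N] [NeZero M] (ρ : Fin (k + 2) → ℕ)
    (z : ZZ N M) (x : Fin (k + 2) × Bool → Pt (bx N M H)) :
    ptR (SecR_mat ρ none) (z, x) = z := by
  unfold ptR
  simp [SecR_mat]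

private theorem SecR_pt_some {k N M H : ℕ} [NeZero N] [NeZero M] (ρ : Fin (k + 2) → ℕ)
    (z : ZZ N M) (x : Fin (k + 2) × Bool → Pt (bx N M H)) (a : {a : Fin (k + 2) // a ≠ 0}) (b : Bool) :
    ptR (SecR_mat ρ (some (a, b))) (z, x) = z + ((ρ 0 : ℤ) - (ρ a.1 : ℤ)) • SR (fun l => x (l, b)) := by
  unfold ptR SR
  show z + ∑ l : Fin (k + 2) × Bool, (if l.2 = b then (ρ 0 : ℤ) - ρ a.1 else 0) • (x l : ZZ N M) = _
  congr 1
  rw [Fintype.sum_prod_type, Finset.smul_sum]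
  refine sum_congr rfl fun l _ => ?_
  rw [Fintype.sum_bool]
  cases b <;> simp

private theorem SecR_prod {k N M H : ℕ} [NeZero N] [NeZero M] (f : ℕ → ZZ N M → ℝ) (ρ : Fin (k + 2) → ℕ)
    (z : ZZ N M) (x : Fin (k + 2) × Bool → Pt (bx N M H)) :
    ∏ i : Option ({a : Fin (k + 2) // a ≠ 0} × Bool), f (SecR_row ρ i) (ptR (SecR_mat ρ i) (z, x)) =
      f (ρ 0) z * ((∏ a ∈ univ.erase 0, f (ρ a) (z + ((ρ 0 : ℤ) - (ρ a : ℤ)) • SR (fun l => x (l, false)))) *
        ∏ a ∈ univ.erase 0, f (ρ a) (z + ((ρ 0 : ℤ) - (ρ a : ℤ)) • SR (fun l => x (l, true)))) := by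
  rw [Fintype.prod_option, SecR_pt_none, Fintype.prod_prod_type]
  have h1 : ∀ g : Fin (k + 2) → ℝ, ∏ a ∈ univ.erase (0 : Fin (k + 2)), g a = ∏ a : {a : Fin (k + 2) // a ≠ 0}, g a.1 := by
    intro g
    exact Finset.prod_subtype (univ.erase (0 : Fin (k + 2))) (fun a => by simp) g
  rw [h1, h1, ← Finset.prod_mul_distrib]
  show f (ρ 0) z * _ = _
  congr 1
  refine prod_congr rfl fun a _ => ?_
  rw [Fintype.prod_bool, SecR_pt_some, SecR_pt_some, mul_comm]
  rfl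

private theorem SecR_eq {k N M H : ℕ} [NeZero N] [NeZero M] (f : ℕ → ZZ N M → ℝ) (ρ : Fin (k + 2) → ℕ) :
    av (fun z : ZZ N M => f (ρ 0) z * GR (H := H) (fun a => f (ρ a)) ρ z ^ 2) =
      av (fun ω : OmR N M H (Fin (k + 2) × Bool) => ∏ i : Option ({a : Fin (k + 2) // a ≠ 0} × Bool), f (SecR_row ρ i) (ptR (SecR_mat ρ i) ω)) := by
  rw [av_prod (Ω := ZZ N M) (Ω' := Fin (k + 2) × Bool → Pt (bx N M H))]
  refine av_congr fun z => ?_
  have h1 := fun x : Fin (k + 2) × Bool → Pt (bx N M H) => SecR_prod f ρ z x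
  rw [av_congr h1, av_const_mul]
  congr 1
  have h2 := SecR_sq (P := Pt (bx N M H)) (fun y : Fin (k + 2) → Pt (bx N M H) =>
    ∏ a ∈ univ.erase 0, f (ρ a) (z + ((ρ 0 : ℤ) - (ρ a : ℤ)) • SR y))
  rw [h2]
  rfl

private theorem SecR_ne {k : ℕ} (ρ : Fin (k + 2) → ℕ) (hρ : Function.Injective ρ)
    (i j : Option ({a : Fin (k + 2) // a ≠ 0} × Bool)) (hij : i ≠ j) :
    SecR_row ρ i ≠ SecR_row ρ j ∨ SecR_mat ρ i ≠ SecR_mat ρ j := by
  rcases i with _ | ⟨a, b⟩ <;> rcases j with _ | ⟨a', b'⟩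
  · exact absurd rfl hij
  · left
    show ρ 0 ≠ ρ a'.1
    exact fun h => a'.2 (hρ h).symm
  · left
    show ρ a.1 ≠ ρ 0
    exact fun h => a.2 (hρ h)
  · by_cases ha : a = a'
    · right
      subst ha
      have hb : b ≠ b' := fun h => hij (by rw [h])
      intro h
      have h2 := congrFun h (0, b)
      simp only [SecR_mat, if_pos, if_neg hb] at h2
      have h3 : ρ 0 = ρ a.1 := by omega
      exact a.2 (hρ h3).symm
    · left
      show ρ a.1 ≠ ρ a'.1
      exact fun h => ha (Subtype.ext (hρ h))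

theorem second_rows (k t Bc cm q : ℕ) (ht : 2 * (k + 2) ≤ t) (hq : 1 ≤ q) :
    ∃ w0 : ℕ, ∀ w ≥ w0, ∃ H0 N0 : ℕ, ∀ H ≥ H0, ∀ N ≥ N0, ∀ (M : ℕ) [NeZero N] [NeZero M],
      SizeOK t (4 * (k + 2)) Bc H N M →
      ∀ ρ : Fin (k + 2) → ℕ, (∀ i, 1 ≤ ρ i ∧ ρ i ≤ cm) → Function.Injective ρ → (∀ a, |(ρ 0 : ℤ) - ρ a| ≤ (Bc : ℤ)) →
        av (fun z : ZZ N M => nuR w (Rt t N) (q * Wp w) (ρ 0) N M z *
          GR (H := H) (fun a => nuR w (Rt t N) (q * Wp w) (ρ a) N M) ρ z ^ 2) ≤ 2 := by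
  obtain ⟨w0, h0⟩ := lf_rows t Bc (4 * (k + 2)) cm q (by omega) hq 1 one_pos
  refine ⟨w0, fun w hw => ?_⟩
  obtain ⟨H0, N0, h1⟩ := h0 w hw
  refine ⟨H0, N0, ?_⟩
  intro H hH N hN M _ _ hsz ρ hρ hinj hdiff
  have hc1 : Fintype.card (Option ({a : Fin (k + 2) // a ≠ 0} × Bool)) ≤ t := by
    rw [Fintype.card_option, Fintype.card_prod, Fintype.card_bool, Fintype.card_subtype_compl, Fintype.card_fin,
      Fintype.card_unique]
    omega
  have hc2 : Fintype.card (Fin (k + 2) × Bool) ≤ 4 * (k + 2) := by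
    rw [Fintype.card_prod, Fintype.card_bool, Fintype.card_fin]
    omega
  have h2 := h1 H hH N hN M hsz (Option ({a : Fin (k + 2) // a ≠ 0} × Bool)) (Fin (k + 2) × Bool) hc1 hc2
    (SecR_row ρ) (SecR_mat ρ) ?_ ?_ (SecR_ne ρ hinj)
  · rw [← SecR_eq (fun c => nuR w (Rt t N) (q * Wp w) c N M) ρ] at h2
    have h3 := (abs_le.1 h2).2
    linarith
  · rintro (_ | ⟨a, b⟩)
    · exact hρ 0
    · exact hρ a.1
  · rintro (_ | ⟨a, b⟩) l
    · show |(0 : ℤ)| ≤ _
      simp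
    · show |(if l.2 = b then (ρ 0 : ℤ) - ρ a.1 else 0)| ≤ _
      split_ifs
      · exact hdiff a.1
      · simp

end Pool.CS
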