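import Pool.Agent.Lib.MP_c77da8_nt.CS.SysR

/-!
# CS-SqR: the linear forms condition in mean square for the rows

Copy `CL/SqSys.lean` (all private definitions and lemmas; they must be copied and adapted from one function `ν` to row functions `ν p.1`).
With `A(y) = av_z ∏_(p ∈ S, p.1 ∈ J) ν_(p.1) (y + ∑_l a p.1 l • (mix p.2 z.1 z.2) l)`: `av_y (A - 1)² = av A² - 2 av A + 1`.
`av A` is an average over `OmR N M H (Fin (k+2) × Bool)`, `av A²` over `OmR N M H (Fin (k+2) × Bool × Bool)` of a product over `S' × Bool`;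
rows `ρ p.1`, coefficients `sqc a p`, `sqd a p γ` as there (injective, so the last hypothesis of `lf_rows` holds).
`lf_rows` with `Jn = 4 (k + 2)`, `η/3`: `(1 + η/3) - 2 (1 - η/3) + 1 = η`.
-/

set_option autoImplicit false

namespace Pool.CS

open Finset Pool.CG Pool.CL

/-- the matrix of the system for `av_y A_n` -/
private def sqc {k : ℕ} (a : Fin (k + 2) → Fin (k + 2) → ℤ) (p : Fin (k + 2) × Finset (Fin (k + 2)))
    (l : Fin (k + 2) × Bool) : ℤ :=
  if (l.2 = true ↔ l.1 ∈ p.2) then a p.1 l.1 else 0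

private theorem sqc_true {k : ℕ} (a : Fin (k + 2) → Fin (k + 2) → ℤ)
    (p : Fin (k + 2) × Finset (Fin (k + 2))) (l : Fin (k + 2)) :
    sqc a p (l, true) = if l ∈ p.2 then a p.1 l else 0 := by
  unfold sqc
  simp

private theorem sqc_false {k : ℕ} (a : Fin (k + 2) → Fin (k + 2) → ℤ)
    (p : Fin (k + 2) × Finset (Fin (k + 2))) (l : Fin (k + 2)) :
    sqc a p (l, false) = if l ∈ p.2 then 0 else a p.1 l := by
  unfold sqc
  by_cases h : l ∈ p.2 <;> simp [h]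

private theorem sqc_abs {k : ℕ} {a : Fin (k + 2) → Fin (k + 2) → ℤ} {Bc : ℕ}
    (h : ∀ i l, |a i l| ≤ (Bc : ℤ)) (p : Fin (k + 2) × Finset (Fin (k + 2)))
    (l : Fin (k + 2) × Bool) : |sqc a p l| ≤ (Bc : ℤ) := by
  unfold sqc
  split_ifs
  · exact h _ _
  · rw [abs_zero]
    exact Int.natCast_nonneg _

private theorem sqc_inj {k : ℕ} {a : Fin (k + 2) → Fin (k + 2) → ℤ} (h0 : ∀ i, a i i = 0)
    (h1 : ∀ i l, l ≠ i → a i l ≠ 0) {p q : Fin (k + 2) × Finset (Fin (k + 2))} (hp : p.1 ∉ p.2)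
    (hq : q.1 ∉ q.2) (h : sqc a p = sqc a q) : p = q := by
  have e1 : p.1 = q.1 := by
    by_contra hne
    have h2 := congrFun h (p.1, true)
    have h3 := congrFun h (p.1, false)
    rw [sqc_true, sqc_true, if_neg hp] at h2
    rw [sqc_false, sqc_false, if_neg hp, h0] at h3
    have h4 := h1 q.1 p.1 hne
    split_ifs at h2 h3 with h5
    · exact h4 h2.symm
    · exact h4 h3.symm
  refine Prod.ext e1 ?_
  ext l
  by_cases hl : l = p.1
  · rw [hl]
    exact ⟨fun h => absurd h hp, fun h => absurd (e1 ▸ h) hq⟩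
  · have h2 := congrFun h (l, true)
    rw [sqc_true, sqc_true, ← e1] at h2
    have h4 := h1 p.1 l hl
    by_cases a1 : l ∈ p.2 <;> by_cases a2 : l ∈ q.2 <;> simp [a1, a2] at h2 ⊢
    · exact h4 h2
    · exact h4 h2.symm

private theorem sqc_ne_zero {k : ℕ} {a : Fin (k + 2) → Fin (k + 2) → ℤ}
    (h1 : ∀ i l, l ≠ i → a i l ≠ 0) (p : Fin (k + 2) × Finset (Fin (k + 2))) : ∃ l, sqc a p l ≠ 0 := by
  obtain ⟨l, hl⟩ : ∃ l : Fin (k + 2), l ≠ p.1 := exists_ne p.1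
  by_cases h : l ∈ p.2
  · refine ⟨(l, true), ?_⟩
    rw [sqc_true, if_pos h]
    exact h1 _ _ hl
  · refine ⟨(l, false), ?_⟩
    rw [sqc_false, if_neg h]
    exact h1 _ _ hl

/-- two copies -/
private def sqd {k : ℕ} (a : Fin (k + 2) → Fin (k + 2) → ℤ)
    (p : Fin (k + 2) × Finset (Fin (k + 2))) (γ : Bool) (l : Fin (k + 2) × Bool × Bool) : ℤ :=
  if l.2.2 = γ then sqc a p (l.1, l.2.1) else 0

private theorem sqd_abs {k : ℕ} {a : Fin (k + 2) → Fin (k + 2) → ℤ} {Bc : ℕ}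
    (h : ∀ i l, |a i l| ≤ (Bc : ℤ)) (p : Fin (k + 2) × Finset (Fin (k + 2))) (γ : Bool)
    (l : Fin (k + 2) × Bool × Bool) : |sqd a p γ l| ≤ (Bc : ℤ) := by
  unfold sqd
  split_ifs
  · exact sqc_abs h _ _
  · rw [abs_zero]
    exact Int.natCast_nonneg _

private theorem sqd_inj {k : ℕ} {a : Fin (k + 2) → Fin (k + 2) → ℤ} (h0 : ∀ i, a i i = 0)
    (h1 : ∀ i l, l ≠ i → a i l ≠ 0) {p q : Fin (k + 2) × Finset (Fin (k + 2))} (hp : p.1 ∉ p.2)
    (hq : q.1 ∉ q.2) {γ δ : Bool} (h : sqd a p γ = sqd a q δ) : p = q ∧ γ = δ := by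
  have e1 : γ = δ := by
    by_contra hne
    obtain ⟨l, hl⟩ := sqc_ne_zero h1 p
    have h2 := congrFun h (l.1, l.2, γ)
    unfold sqd at h2
    simp only [if_true] at h2
    rw [if_neg hne] at h2
    exact hl h2
  refine ⟨sqc_inj h0 h1 hp hq ?_, e1⟩
  funext l
  have h2 := congrFun h (l.1, l.2, γ)
  unfold sqd at h2
  simp only [if_true] at h2
  rw [if_pos e1] at h2
  exact h2

section

variable {G : Type} [AddCommGroup G] {k : ℕ} {D : Finset G}

private def sqe (k : ℕ) (X : Type) :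
    (Fin (k + 2) × Bool → X) ≃ (Fin (k + 2) → X) × (Fin (k + 2) → X) where
  toFun x := (fun l => x (l, false), fun l => x (l, true))
  invFun z := fun l => if l.2 then z.2 l.1 else z.1 l.1
  left_inv x := by
    funext ⟨l, β⟩
    cases β <;> rfl
  right_inv z := rfl

private def sqf (k : ℕ) (X : Type) : (Fin (k + 2) × Bool × Bool → X) ≃
    ((Fin (k + 2) → X) × (Fin (k + 2) → X)) × ((Fin (k + 2) → X) × (Fin (k + 2) → X)) where
  toFun x := ((fun l => x (l, false, false), fun l => x (l, true, false)),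
    (fun l => x (l, false, true), fun l => x (l, true, true)))
  invFun z := fun l => if l.2.2 then (if l.2.1 then z.2.2 l.1 else z.2.1 l.1)
    else (if l.2.1 then z.1.2 l.1 else z.1.1 l.1)
  left_inv x := by
    funext ⟨l, β, γ⟩
    cases β <;> cases γ <;> rfl
  right_inv z := rfl

private theorem sq_sum (a : Fin (k + 2) → Fin (k + 2) → ℤ)
    (p : Fin (k + 2) × Finset (Fin (k + 2))) (x : Fin (k + 2) × Bool → Pt D) :
    ∑ l, sqc a p l • (x l : G) = ∑ l, a p.1 l •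
      ((mix p.2 (sqe k (Pt D) x).1 (sqe k (Pt D) x).2 l : Pt D) : G) := by
  rw [Fintype.sum_prod_type]
  refine sum_congr rfl fun l _ => ?_
  rw [Fintype.sum_bool, sqc_true, sqc_false]
  unfold mix sqe
  by_cases h : l ∈ p.2
  · simp [h]
  · simp [h]

private theorem sq_sum2 (a : Fin (k + 2) → Fin (k + 2) → ℤ)
    (p : Fin (k + 2) × Finset (Fin (k + 2))) (γ : Bool) (x : Fin (k + 2) × Bool × Bool → Pt D) :
    ∑ l, sqd a p γ l • (x l : G) = ∑ l, sqc a p l • (x (l.1, l.2, γ) : G) := by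
  rw [Fintype.sum_prod_type, Fintype.sum_prod_type]
  refine sum_congr rfl fun l _ => ?_
  rw [Fintype.sum_prod_type]
  refine sum_congr rfl fun β _ => ?_
  rw [Fintype.sum_bool]
  unfold sqd
  cases γ <;> simp

end



private def sqF {k N M H : ℕ} [NeZero N] [NeZero M] (ν : Fin (k + 2) → ZZ N M → ℝ)
    (a : Fin (k + 2) → Fin (k + 2) → ℤ)
    (S : Finset (Fin (k + 2) × Finset (Fin (k + 2)))) (y : ZZ N M)
    (z : (Fin (k + 2) → Pt (bx N M H)) × (Fin (k + 2) → Pt (bx N M H))) : ℝ :=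
  ∏ p ∈ S, ν p.1 (y + ∑ l, a p.1 l • ((mix p.2 z.1 z.2 l : Pt (bx N M H)) : ZZ N M))

private theorem sq_one {k N M H : ℕ} [NeZero N] [NeZero M] (ν : Fin (k + 2) → ZZ N M → ℝ)
    (a : Fin (k + 2) → Fin (k + 2) → ℤ) (S : Finset (Fin (k + 2) × Finset (Fin (k + 2)))) :
    av (fun y : ZZ N M => av (fun z => sqF (H := H) ν a S y z)) =
      av (fun ω : OmR N M H (Fin (k + 2) × Bool) =>
        ∏ i : {p // p ∈ S}, ν i.1.1 (ptR (sqc a i.1) ω)) := by
  rw [av_prod (Ω := ZZ N M) (Ω' := Fin (k + 2) × Bool → Pt (bx N M H))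
    (fun ω : ZZ N M × (Fin (k + 2) × Bool → Pt (bx N M H)) =>
      ∏ i : {p // p ∈ S}, ν i.1.1 (ptR (sqc a i.1) ω))]
  refine av_congr fun y => ?_
  rw [← av_equiv (sqe k (Pt (bx N M H))) (fun z => sqF (H := H) ν a S y z)]
  refine av_congr fun x => ?_
  unfold sqF
  rw [prod_coe_sort S (fun p => ν p.1 (ptR (sqc a p) ((y, x) : OmR N M H (Fin (k + 2) × Bool))))]
  refine prod_congr rfl fun p _ => ?_
  unfold ptR
  dsimp only
  rw [sq_sum]

private theorem sq_two {k N M H : ℕ} [NeZero N] [NeZero M] (ν : Fin (k + 2) → ZZ N M → ℝ)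
    (a : Fin (k + 2) → Fin (k + 2) → ℤ) (S : Finset (Fin (k + 2) × Finset (Fin (k + 2)))) :
    av (fun y : ZZ N M => (av (fun z => sqF (H := H) ν a S y z)) ^ 2) =
      av (fun ω : OmR N M H (Fin (k + 2) × Bool × Bool) =>
        ∏ i : {p // p ∈ S} × Bool, ν i.1.1.1 (ptR (sqd a i.1.1 i.2) ω)) := by
  rw [av_prod (Ω := ZZ N M) (Ω' := Fin (k + 2) × Bool × Bool → Pt (bx N M H))
    (fun ω : ZZ N M × (Fin (k + 2) × Bool × Bool → Pt (bx N M H)) =>
      ∏ i : {p // p ∈ S} × Bool, ν i.1.1.1 (ptR (sqd a i.1.1 i.2) ω))]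
  refine av_congr fun y => ?_
  have e1 : (av (fun z => sqF (H := H) ν a S y z)) ^ 2 =
      av (fun z : ((Fin (k + 2) → Pt (bx N M H)) × (Fin (k + 2) → Pt (bx N M H))) ×
        ((Fin (k + 2) → Pt (bx N M H)) × (Fin (k + 2) → Pt (bx N M H))) =>
        sqF (H := H) ν a S y z.1 * sqF (H := H) ν a S y z.2) := by
    rw [av_prod (fun z : ((Fin (k + 2) → Pt (bx N M H)) × (Fin (k + 2) → Pt (bx N M H))) ×
        ((Fin (k + 2) → Pt (bx N M H)) × (Fin (k + 2) → Pt (bx N M H))) =>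
        sqF (H := H) ν a S y z.1 * sqF (H := H) ν a S y z.2), sq, ← av_mul_const]
    refine av_congr fun z => ?_
    exact (av_const_mul (sqF (H := H) ν a S y z) (fun z => sqF (H := H) ν a S y z)).symm
  rw [e1, ← av_equiv (sqf k (Pt (bx N M H))) (fun z => sqF (H := H) ν a S y z.1 * sqF (H := H) ν a S y z.2)]
  refine av_congr fun x => ?_
  rw [Fintype.prod_prod_type]
  unfold sqF
  rw [← prod_mul_distrib, ← prod_coe_sort]
  refine prod_congr rfl fun p _ => ?_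
  rw [Fintype.prod_bool, mul_comm]
  unfold ptR
  dsimp only
  rw [sq_sum2, sq_sum2]
  have h2 := sq_sum (G := ZZ N M) a p.1 (fun l => x (l.1, l.2, true))
  have h3 := sq_sum (G := ZZ N M) a p.1 (fun l => x (l.1, l.2, false))
  rw [h2, h3]
  rfl

theorem lfav_rows (k t Bc cm q : ℕ) (ht : 2 * ((k + 2) * 2 ^ (k + 2)) ≤ t) (hq : 1 ≤ q) (η : ℝ) (hη : 0 < η) :
    ∃ w0 : ℕ, ∀ w ≥ w0, ∃ H0 N0 : ℕ, ∀ H ≥ H0, ∀ N ≥ N0, ∀ (M : ℕ) [NeZero N] [NeZero M],
      SizeOK t (4 * (k + 2)) Bc H N M →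
      ∀ (ρ : Fin (k + 2) → ℕ) (a : Fin (k + 2) → Fin (k + 2) → ℤ) (J : Finset (Fin (k + 2))),
      (∀ i, 1 ≤ ρ i ∧ ρ i ≤ cm) → (∀ i l, |a i l| ≤ (Bc : ℤ)) → (∀ i, a i i = 0) → (∀ i l, l ≠ i → a i l ≠ 0) →
        LFav η (affG (D := bx N M H) (fun i => nuR w (Rt t N) (q * Wp w) (ρ i) N M) a J) := by
  have hk : 1 ≤ (k + 2) * 2 ^ (k + 2) := Nat.one_le_iff_ne_zero.2 (by positivity)
  have ht1 : 1 ≤ t := by omega
  obtain ⟨w0, h0⟩ := lf_rows t Bc (4 * (k + 2)) cm q ht1 hq (η / 3) (by positivity)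
  refine ⟨w0, fun w hw => ?_⟩
  obtain ⟨H0, N0, h1⟩ := h0 w hw
  refine ⟨H0, N0, fun H hH N hN M _ _ hsz ρ a J hρ ha ha0 hne S hS => ?_⟩
  set ν : Fin (k + 2) → ZZ N M → ℝ := fun i => nuR w (Rt t N) (q * Wp w) (ρ i) N M with hν
  set S' := S.filter (fun p => p.1 ∈ J) with hS'
  have hS1 : ∀ p ∈ S', p.1 ∉ p.2 := fun p hp => hS p (mem_filter.1 hp).1
  have hcS : S'.card ≤ (k + 2) * 2 ^ (k + 2) := by
    refine (card_le_univ S').trans (le_of_eq ?_)
    rw [Fintype.card_prod, Fintype.card_finset, Fintype.card_fin]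
  have hprod : ∀ (y : ZZ N M) (z : (Fin (k + 2) → Pt (bx N M H)) × (Fin (k + 2) → Pt (bx N M H))),
      ∏ p ∈ S, affG ν a J y p.1 (mix p.2 z.1 z.2) = sqF ν a S' y z := by
    intro y z
    unfold sqF affG
    rw [hS', prod_filter]
  have hne2 : Nonempty (ZZ N M) := ⟨0⟩
  -- one copy
  have hA := h1 H hH N hN M hsz {p // p ∈ S'} (Fin (k + 2) × Bool)
    (by rw [Fintype.card_coe]; omega)
    (by rw [Fintype.card_prod, Fintype.card_fin, Fintype.card_bool]; omega)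
    (fun i => ρ i.1.1) (fun i => sqc a i.1) (fun i => hρ _) (fun i l => sqc_abs ha _ _)
    (fun i j hij => Or.inr fun h => hij (Subtype.ext (sqc_inj ha0 hne (hS1 _ i.2) (hS1 _ j.2) h)))
  -- two copies
  have hB := h1 H hH N hN M hsz ({p // p ∈ S'} × Bool) (Fin (k + 2) × Bool × Bool)
    (by rw [Fintype.card_prod, Fintype.card_coe, Fintype.card_bool]; omega)
    (by rw [Fintype.card_prod, Fintype.card_prod, Fintype.card_fin, Fintype.card_bool]; omega)
    (fun i => ρ i.1.1.1) (fun i => sqd a i.1.1 i.2) (fun i => hρ _) (fun i l => sqd_abs ha _ _ _)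
    (fun i j hij => Or.inr fun h => hij (by
      obtain ⟨e1, e2⟩ := sqd_inj ha0 hne (hS1 _ i.1.2) (hS1 _ j.1.2) h
      exact Prod.ext (Subtype.ext e1) e2))
  have hterm : av (fun y : ZZ N M => (av (fun z : (Fin (k + 2) → Pt (bx N M H)) × (Fin (k + 2) → Pt (bx N M H)) =>
        ∏ p ∈ S, affG ν a J y p.1 (mix p.2 z.1 z.2)) - 1) ^ 2) =
      av (fun ω : OmR N M H (Fin (k + 2) × Bool × Bool) =>
        ∏ i : {p // p ∈ S'} × Bool, ν i.1.1.1 (ptR (sqd a i.1.1 i.2) ω)) -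
      2 * av (fun ω : OmR N M H (Fin (k + 2) × Bool) =>
        ∏ i : {p // p ∈ S'}, ν i.1.1 (ptR (sqc a i.1) ω)) + 1 := by
    rw [← sq_two, ← sq_one, ← av_const_mul]
    have e1 : (1 : ℝ) = av (fun _ : ZZ N M => (1 : ℝ)) := (av_const 1).symm
    conv_rhs => rw [e1]
    rw [← av_sub, ← av_add]
    refine av_congr fun y => ?_
    rw [av_congr (hprod y)]
    ring
  rw [hterm]
  have a1 := (abs_le.1 hA).1
  have a2 := (abs_le.1 hB).2
  rw [hν]
  dsimp only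
  linarith

end Pool.CS
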