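import Pool.Agent.Lib.MP_c77da8_nt.CS.RSR
import Pool.Agent.Lib.MP_c77da8_nt.CS.SqR
import Pool.Agent.Lib.MP_c77da8_nt.CS.SecR
import Pool.Agent.Lib.MP_c77da8_nt.CS.FirstR
import Pool.Agent.Lib.MP_c77da8_nt.CS.PropR
import Pool.Agent.Lib.MP_c77da8_nt.CS.PropL
import Pool.Agent.Lib.MP_c77da8_nt.CS.ParL
import Pool.Agent.Lib.MP_c77da8_nt.CS.CntPH
import Pool.Agent.Lib.MP_c77da8_nt.CS.InvR
import Pool.Agent.Lib.MP_c77da8_nt.CS.OneH
import Pool.Agent.Lib.MP_c77da8_nt.CS.LfIn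

/-!
# CS-ScaleL: the rows theorem at the scale `N`, `h ≤ (log N)^L` (assembly)
-/

set_option autoImplicit false

namespace Pool.CS

open Finset Pool.CG Pool.CL

private theorem GR_mono {k N M H : ℕ} [NeZero N] [NeZero M] (f g : Fin (k + 2) → ZZ N M → ℝ) (ρ : Fin (k + 2) → ℕ)
    (h0 : ∀ a z, 0 ≤ f a z) (h : ∀ a z, f a z ≤ g a z) (z : ZZ N M) :
    0 ≤ GR (H := H) f ρ z ∧ GR (H := H) f ρ z ≤ GR (H := H) g ρ z := by
  unfold GR
  exact ⟨av_nonneg fun x => prod_nonneg fun a _ => h0 _ _,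
    av_mono fun x => prod_le_prod (fun a _ => h0 _ _) fun a _ => h _ _⟩

/-- the common multiple of the differences -/
private def BB (A : Finset ℕ) : ℕ := ∏ p ∈ (A ×ˢ A).filter (fun p => p.1 ≠ p.2), ((p.1 : ℤ) - (p.2 : ℤ)).natAbs

private theorem BB_pos (A : Finset ℕ) : 1 ≤ BB A := by
  unfold BB
  refine Nat.one_le_iff_ne_zero.2 (Finset.prod_ne_zero_iff.2 fun p hp => ?_)
  have h := (mem_filter.1 hp).2
  intro h0
  apply h
  have := Int.natAbs_eq_zero.1 h0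
  omega

private theorem BB_dvd (A : Finset ℕ) (i j : {a // a ∈ A}) (hij : i ≠ j) :
    ((i.1 : ℤ)) ≠ (j.1 : ℤ) ∧ ((i.1 : ℤ) - (j.1 : ℤ)) ∣ (BB A : ℤ) := by
  have h1 : i.1 ≠ j.1 := fun h => hij (Subtype.ext h)
  refine ⟨by exact_mod_cast h1, ?_⟩
  have h2 : (i.1, j.1) ∈ (A ×ˢ A).filter (fun p => p.1 ≠ p.2) :=
    mem_filter.2 ⟨mem_product.2 ⟨i.2, j.2⟩, h1⟩
  have h3 : ((i.1 : ℤ) - (j.1 : ℤ)).natAbs ∣ BB A := by
    unfold BB
    exact Finset.dvd_prod_of_mem (fun p : ℕ × ℕ => ((p.1 : ℤ) - (p.2 : ℤ)).natAbs) h2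
  exact Int.natAbs_dvd.1 (by exact_mod_cast Int.natCast_dvd_natCast.2 h3)

private theorem BB_abs (A : Finset ℕ) (i j : {a // a ∈ A}) : |(i.1 : ℤ) - (j.1 : ℤ)| ≤ (BB A : ℤ) := by
  have hB := BB_pos A
  by_cases hij : i = j
  · subst hij
    rw [sub_self, abs_zero]
    exact Int.natCast_nonneg _
  · have h := (BB_dvd A i j hij).2
    have h2 := Int.le_of_dvd (by exact_mod_cast hB) ((abs_dvd _ _).2 h)
    exact h2

theorem HPs_mono {k : ℕ} {q Y Y' : ℕ} (ρ : Fin (k + 2) → ℕ) (p : ℕ) (h : Y ≤ Y') : HPs q Y ρ p ⊆ HPs q Y' ρ p :=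
  fun _ hh => ⟨hh.1, hh.2.1.trans h, hh.2.2⟩

theorem rows_l (k : ℕ) : ∃ (δ : ℝ) (L0 : ℕ), 0 < δ ∧ ∀ A : Finset ℕ, (∀ a ∈ A, 1 ≤ a) → ∀ q : ℕ, 1 ≤ q →
    ∃ (c : ℝ) (K : ℕ), 0 < c ∧ 1 ≤ K ∧ ∀ L ≥ L0, ∃ N0 : ℕ, ∀ N ≥ N0, ∀ ω : ℕ → ℝ, (∀ a, 0 ≤ ω a) →
      ∃ A' ⊆ A, δ * ∑ a ∈ A, ω a ≤ ∑ a ∈ A', ω a ∧
      ∀ a : Fin (k + 2) → ℕ, Function.Injective a → (∀ j, a j ∈ A') →
        c * N / Real.log N ≤ (({p : ℕ | p ≤ K * N ∧ p.Prime ∧ c * (Real.log N ^ L / Real.log N ^ (k + 1)) ≤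
          (((HPs q ⌊Real.log N ^ L⌋₊ a p).ncard : ℕ) : ℝ)}.ncard : ℕ) : ℝ) ∧
        c * Real.log N ^ L ≤ (({h : ℕ | 1 ≤ h ∧ h ≤ ⌊Real.log N ^ L⌋₊ ∧ h ≡ 1 [MOD q] ∧
          c * N / Real.log N ^ (k + 2) ≤
            (({n : ℕ | n ≤ K * N ∧ ∀ j, (a j * n - h).Prime}.ncard : ℕ) : ℝ)}.ncard : ℕ) : ℝ) := by
  obtain ⟨t, htdef⟩ : ∃ t : ℕ, t = 2 * ((k + 2) * 2 ^ (k + 2)) := ⟨_, rfl⟩
  have hpow : 1 ≤ 2 ^ (k + 2) := Nat.one_le_two_pow
  have ht1 : 1 ≤ t := by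
    rw [htdef]
    have : 1 ≤ (k + 2) * 2 ^ (k + 2) := Nat.one_le_iff_ne_zero.2 (by positivity)
    omega
  have ht2 : 2 * (k + 2) ≤ t := by
    rw [htdef]
    exact Nat.mul_le_mul_left 2 (Nat.le_mul_of_pos_right _ (by positivity))
  have htr : (0 : ℝ) < t := by exact_mod_cast ht1
  obtain ⟨d, hddef⟩ : ∃ d : ℝ, d = 1 / (1000 * (t : ℝ)) := ⟨_, rfl⟩
  have hd : 0 < d := by rw [hddef]; positivity
  refine ⟨d / 8, 2 * (9 ^ t + t + 1) + 1, by linarith, ?_⟩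
  intro A hA q hq
  rcases A.eq_empty_or_nonempty with rfl | hAne
  · refine ⟨1, 1, one_pos, le_rfl, fun L _ => ⟨0, fun N _ ω _ => ⟨∅, subset_rfl, by simp, fun a _ ha => ?_⟩⟩⟩
    exact absurd (ha 0) (notMem_empty _)
  obtain ⟨cm, hcmdef⟩ : ∃ cm : ℕ, cm = A.sup id := ⟨_, rfl⟩
  have hcm : ∀ a ∈ A, a ≤ cm := fun a ha => by rw [hcmdef]; exact Finset.le_sup (f := id) ha
  have hcm1 : 1 ≤ cm := by
    obtain ⟨a, ha⟩ := hAne
    exact (hA a ha).trans (hcm a ha)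
  obtain ⟨B, hBdef⟩ : ∃ B : ℕ, B = BB A := ⟨_, rfl⟩
  have hB1 : 1 ≤ B := by rw [hBdef]; exact BB_pos A
  have hBd : ∀ i j : {a // a ∈ A}, i ≠ j → ((i.1 : ℕ) : ℤ) ≠ ((j.1 : ℕ) : ℤ) ∧ (((i.1 : ℕ) : ℤ) - ((j.1 : ℕ) : ℤ)) ∣ (B : ℤ) := by
    rw [hBdef]; exact BB_dvd A
  have hBa : ∀ i j : {a // a ∈ A}, |((i.1 : ℕ) : ℤ) - ((j.1 : ℕ) : ℤ)| ≤ (B : ℤ) := by
    rw [hBdef]; exact BB_abs A
  obtain ⟨κ, η, c0, hκ, hη, hc0, hRS⟩ := rs_rows k d hd {a // a ∈ A}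
  obtain ⟨w1, hw1⟩ := lfav_rows k t B cm q (by omega) hq η hη
  obtain ⟨w2, hw2⟩ := second_rows k t B cm q ht2 hq
  obtain ⟨w3, M3, hw3⟩ := first_rows t cm q ht1 hq
  obtain ⟨w4, hw4⟩ := lf_in k t B cm q (by omega) hq (c0 / 4) (by positivity)
  obtain ⟨w5, hw5⟩ := av_nu t B (4 * (k + 2)) cm q ht1 hq
  obtain ⟨w, hwdef⟩ : ∃ w : ℕ, w = max (max w1 w2) (max w3 (max w4 (max w5 1))) := ⟨_, rfl⟩
  have hww1 : w1 ≤ w := by rw [hwdef]; exact (le_max_left _ _).trans (le_max_left _ _)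
  have hww2 : w2 ≤ w := by rw [hwdef]; exact (le_max_right _ _).trans (le_max_left _ _)
  have hww3 : w3 ≤ w := by rw [hwdef]; exact (le_max_left _ _).trans (le_max_right _ _)
  have hww4 : w4 ≤ w := by rw [hwdef]; exact ((le_max_left _ _).trans (le_max_right _ _)).trans (le_max_right _ _)
  have hww5 : w5 ≤ w := by
    rw [hwdef]
    exact (((le_max_left _ _).trans (le_max_right _ _)).trans (le_max_right _ _)).trans (le_max_right _ _)
  have hw_1 : 1 ≤ w := by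
    rw [hwdef]
    exact (((le_max_right _ _).trans (le_max_right _ _)).trans (le_max_right _ _)).trans (le_max_right _ _)
  obtain ⟨W, hWdef⟩ : ∃ W : ℕ, W = q * Wp w := ⟨_, rfl⟩
  have hW1 : 1 ≤ W := by
    rw [hWdef]
    have h : 1 ≤ Wp w := by
      unfold Wp
      exact Nat.succ_le_of_lt (Finset.prod_pos fun p hp => (mem_filter.1 hp).2.pos)
    exact Nat.mul_pos hq h
  obtain ⟨H1, N1, hLF⟩ := hw1 w hww1
  obtain ⟨H2, N2, hSec⟩ := hw2 w hww2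
  obtain ⟨N3, hFirst⟩ := hw3 w hww3
  obtain ⟨H4, N9, hIn⟩ := hw4 w hww4
  obtain ⟨H5, N10, hNu⟩ := hw5 w hww5
  obtain ⟨C, N5, hC1, hCount⟩ := count_ph k t ht1
  have hC : 0 < C := by linarith
  obtain ⟨N6, hRt⟩ := Rt_facts t ht1
  obtain ⟨C', N8, hC', hOne⟩ := good_om k t ht1
  have hWr : (1 : ℝ) ≤ W := by exact_mod_cast hW1
  have hcmr : (1 : ℝ) ≤ cm := by exact_mod_cast hcm1
  obtain ⟨C0, hC0def⟩ : ∃ C0 : ℕ, C0 = 2 * W * (1 + cm) := ⟨_, rfl⟩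
  have hC01 : 1 ≤ C0 := by rw [hC0def]; exact Nat.mul_pos (Nat.mul_pos two_pos hW1) (by omega)
  have hC0r : (1 : ℝ) ≤ C0 := by exact_mod_cast hC01
  obtain ⟨ci, hci⟩ : ∃ ci : ℝ, ci = c0 ^ 2 / 8 / (16 * C * W * cm) * (c0 / 4) / ((k + 2) * C ^ (k + 1)) / (2 * C0) := ⟨_, rfl⟩
  have hci0 : 0 < ci := by rw [hci]; positivity
  obtain ⟨c, hcdef⟩ : ∃ c : ℝ, c = min (min (c0 ^ 2 / 8 / (2 * C)) (c0 / 2 / C')) (min (c0 / 4 / (2 * C0)) ci) := ⟨_, rfl⟩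
  have hc_1 : c ≤ c0 ^ 2 / 8 / (2 * C) := by rw [hcdef]; exact (min_le_left _ _).trans (min_le_left _ _)
  have hc_2 : c ≤ c0 / 2 / C' := by rw [hcdef]; exact (min_le_left _ _).trans (min_le_right _ _)
  have hc_3 : c ≤ c0 / 4 / (2 * C0) := by rw [hcdef]; exact (min_le_right _ _).trans (min_le_left _ _)
  have hc_4 : c ≤ ci := by rw [hcdef]; exact (min_le_right _ _).trans (min_le_right _ _)
  have hc_0 : 0 < c := by
    rw [hcdef]
    exact lt_min (lt_min (by positivity) (by positivity)) (lt_min (by positivity) hci0)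
  refine ⟨c, 3 * W * cm, hc_0, Nat.mul_pos (Nat.mul_pos (by norm_num) hW1) hcm1, fun L hL => ?_⟩
  obtain ⟨N4, hPar⟩ := par_l t (4 * (k + 2)) B (max (max H1 H2) (max H4 H5)) (max M3 3) C0 κ hκ hC01 L hL
  obtain ⟨N7, hlog⟩ : ∃ N7 : ℕ, ∀ N ≥ N7, ((2 * C0 : ℕ) : ℝ) ≤ Real.log N :=
    Filter.eventually_atTop.1 ((Real.tendsto_log_atTop.comp tendsto_natCast_atTop_atTop).eventually_ge_atTop _)
  refine ⟨max (max (max N1 N2) (max N3 N4)) (max (max N5 N6) (max (max N7 N9) (max N8 (max N10 1)))), fun N hN ω hω => ?_⟩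
  rcases (Finset.sum_nonneg fun a _ => hω a : 0 ≤ ∑ a ∈ A, ω a).eq_or_lt with hω0 | hω0
  · refine ⟨∅, empty_subset _, ?_, fun a _ ha => ?_⟩
    · rw [← hω0]
      simp
    · exact absurd (ha 0) (notMem_empty _)
  have hNN : N1 ≤ N ∧ N2 ≤ N ∧ N3 ≤ N ∧ N4 ≤ N ∧ N5 ≤ N ∧ N6 ≤ N ∧ N7 ≤ N ∧ 1 ≤ N ∧ N8 ≤ N ∧ N9 ≤ N ∧ N10 ≤ N := by
    simp only [ge_iff_le, max_le_iff] at hN
    tauto
  obtain ⟨g1, g2, g3, g4, g5, g6, g7, g8, g9, g10, g11⟩ := hNN
  obtain ⟨H', H, M, hMdef, hH0, hHH, hH1, hM0, hS', hS, hκB, hMw, h8, hM2⟩ := hPar N g4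
  have hH'1 : H1 ≤ H' := ((le_max_left _ _).trans (le_max_left _ _)).trans hH0
  have hHa : H1 ≤ H := hH'1.trans hHH
  have hHb : H2 ≤ H := (((le_max_right _ _).trans (le_max_left _ _)).trans hH0).trans hHH
  have hHd : H4 ≤ H := (((le_max_left _ _).trans (le_max_right _ _)).trans hH0).trans hHH
  have hHe : H5 ≤ H := (((le_max_right _ _).trans (le_max_right _ _)).trans hH0).trans hHH
  have hMa : M3 ≤ M := (le_max_left _ _).trans hM0
  have hMb : 3 ≤ M := (le_max_right _ _).trans hM0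
  have hMN : M ≤ N := hS.2.2.2
  have : NeZero N := ⟨by omega⟩
  have : NeZero M := ⟨by omega⟩
  obtain ⟨E, hEdef⟩ : ∃ E : ℕ, E = 4 * (k + 2) * B * H := ⟨_, rfl⟩
  have h8E : 8 * E ≤ M := by rw [hEdef]; exact h8
  obtain ⟨R, hRdef⟩ : ∃ R : ℕ, R = Rt t N := ⟨_, rfl⟩
  obtain ⟨r1, -, -, r4, -, -⟩ := hRt N g6
  have hRM : Rt t N + M + 2 ≤ N := by
    have : M * 3 ≤ M ^ 2 := by
      rw [pow_two]; exact Nat.mul_le_mul_left M hMb
    omega
  have hfν : ∀ (c : ℕ) (_ : 1 ≤ c) (z : ZZ N M), 0 ≤ fR w (Rt t N) (q * Wp w) c N M E z ∧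
      fR w (Rt t N) (q * Wp w) c N M E z ≤ nuR w (Rt t N) (q * Wp w) c N M z := by
    intro c hc z
    exact ⟨fR_nonneg _ _ _ _ _ _ _ z, fR_le w (Rt t N) (q * Wp w) c N M E (by omega) (by rw [← hWdef]; exact hW1) hc hRM z⟩
  have hH_M : H < M := by omega
  have hH'_M : H' < M := by omega
  obtain ⟨As, hAs1, hAs2⟩ := hRS (fun i => ω i.1) (fun i => hω i.1) (by
      rw [Finset.sum_coe_sort A ω]
      exact hω0) B (fun i => ((i.1 : ℕ) : ℤ)) hBd (ZZ N M) (bx N M H) (bx N M H')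
    (fun i => nuR w (Rt t N) (q * Wp w) i.1 N M) (fun i => fR w (Rt t N) (q * Wp w) i.1 N M E)
    (bx_nonempty N M H (hH1.trans hHH) hH_M) (bx_nonempty N M H' hH1 hH'_M)
    (fun i z => hfν i.1 (hA i.1 i.2) z)
    (fun i => by
      have := hFirst N g3 M hMa hM2 E h8E i.1 (hA i.1 i.2) (hcm i.1 i.2)
      rw [hddef]
      exact this)
    (inv_bx N M H H' B κ hκB hMw)
    (fun i => hLF H' hH'1 N g1 M hS' (fun _ => i.1) (cube k B) {0} (fun _ => ⟨hA i.1 i.2, hcm i.1 i.2⟩)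
      (fun a l => by unfold cube; split_ifs <;> simp)
      (fun a => by unfold cube; rw [if_pos rfl])
      (fun a l hl => by unfold cube; rw [if_neg hl]; exact_mod_cast (by omega : B ≠ 0)))
    (fun r hr => hLF H hHa N g1 M hS (fun a => (r a).1) (rowm fun a => (((r a).1 : ℕ) : ℤ)) univ
      (fun a => ⟨hA _ (r a).2, hcm _ (r a).2⟩) (fun a l => hBa (r l) (r a)) (fun a => sub_self _)
      (fun a l hl => sub_ne_zero.2 (hBd (r l) (r a) (fun h => hl (hr h))).1))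
  refine ⟨As.map ⟨Subtype.val, Subtype.val_injective⟩, ?_, ?_, ?_⟩
  · intro a ha
    obtain ⟨b, _, rfl⟩ := mem_map.1 ha
    exact b.2
  · rw [sum_map]
    rw [Finset.sum_coe_sort A ω] at hAs1
    exact hAs1
  intro a hainj haA
  have hr : ∀ j, ∃ h : a j ∈ A, (⟨a j, h⟩ : {a // a ∈ A}) ∈ As := by
    intro j
    obtain ⟨b, hb, hb2⟩ := mem_map.1 (haA j)
    have e : b.1 = a j := hb2
    exact ⟨e ▸ b.2, by
      have : (⟨a j, e ▸ b.2⟩ : {a // a ∈ A}) = b := Subtype.ext e.symm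
      rw [this]; exact hb⟩
  choose haA1 haA2 using hr
  have hmain := hAs2 (fun j => ⟨a j, haA1 j⟩) (fun i j h => hainj (congrArg Subtype.val h)) haA2
  have hmain2 : c0 ≤ av (fun z : ZZ N M => fR w (Rt t N) (q * Wp w) (a 0) N M E z *
      GR (H := H) (fun j => fR w (Rt t N) (q * Wp w) (a j) N M E) a z) := by
    rw [← sub_rows (fun j => fR w (Rt t N) (q * Wp w) (a j) N M E) a]
    exact hmain
  have ha1 : ∀ j, 1 ≤ a j ∧ a j ≤ cm := fun j => ⟨hA _ (haA1 j), hcm _ (haA1 j)⟩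
  have haB : ∀ i j, |((a i : ℕ) : ℤ) - ((a j : ℕ) : ℤ)| ≤ (B : ℤ) := fun i j => hBa ⟨a i, haA1 i⟩ ⟨a j, haA1 j⟩
  have hGR : ∀ z : ZZ N M, 0 ≤ GR (H := H) (fun j => fR w (Rt t N) (q * Wp w) (a j) N M E) a z ∧
      GR (H := H) (fun j => fR w (Rt t N) (q * Wp w) (a j) N M E) a z ≤
        GR (H := H) (fun j => nuR w (Rt t N) (q * Wp w) (a j) N M) a z := fun z =>
    GR_mono _ _ a (fun j z => (hfν _ (ha1 j).1 z).1) (fun j z => (hfν _ (ha1 j).1 z).2) z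
  have hsec := hSec H hHb N g2 M hS a ha1 hainj (fun j => haB 0 j)
  have hsec2 : av (fun z : ZZ N M => fR w (Rt t N) (q * Wp w) (a 0) N M E z *
      GR (H := H) (fun j => fR w (Rt t N) (q * Wp w) (a j) N M E) a z ^ 2) ≤ 2 := by
    refine (av_mono fun z => ?_).trans hsec
    obtain ⟨e1, e2⟩ := hGR z
    obtain ⟨e3, e4⟩ := hfν _ (ha1 0).1 z
    exact mul_le_mul e4 (pow_le_pow_left₀ e1 e2 2) (by positivity) (e3.trans e4)
  have hfav : av (fun z : ZZ N M => fR w (Rt t N) (q * Wp w) (a 0) N M E z) ≤ 2 :=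
    (av_mono fun z => (hfν _ (ha1 0).1 z).2).trans (hNu H hHe N g11 M hS (a 0) (ha1 0).1 (ha1 0).2)
  have hp := prop_cs2 (fun z : ZZ N M => fR w (Rt t N) (q * Wp w) (a 0) N M E z)
    (fun z => GR (H := H) (fun j => fR w (Rt t N) (q * Wp w) (a j) N M E) a z)
    (fun z => (hfν _ (ha1 0).1 z).1) c0 hc0 hfav hmain2 hsec2
  classical
  have hlogN := hlog N g7
  have hlog2 : (2 : ℝ) * C0 ≤ Real.log N := by exact_mod_cast hlogN
  have hlog1 : (1 : ℝ) ≤ Real.log N := by linarith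
  -- the size of `M`
  have hlL : Real.log N ≤ Real.log N ^ L := le_self_pow₀ hlog1 (by omega)
  have hMle : (M : ℝ) ≤ Real.log N ^ L / C0 := by
    rw [hMdef]
    exact Nat.floor_le (by positivity)
  have hMge : Real.log N ^ L / (2 * C0) ≤ M := by
    have h1 : Real.log N ^ L / C0 < M + 1 := by
      rw [hMdef]
      exact Nat.lt_floor_add_one _
    have h2 : (1 : ℝ) ≤ Real.log N ^ L / (2 * C0) := by
      rw [le_div_iff₀ (by positivity)]
      linarith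
    have h3 : Real.log N ^ L / C0 = 2 * (Real.log N ^ L / (2 * C0)) := by
      field_simp
    linarith
  have hH_nn : (k + 2) * H ≤ M := by
    have h1 : (k + 2) * H ≤ 8 * (4 * (k + 2) * B * H) := by
      calc (k + 2) * H = 1 * ((k + 2) * H) := (one_mul _).symm
        _ ≤ (32 * B) * ((k + 2) * H) := Nat.mul_le_mul_right _ (by omega)
        _ = 8 * (4 * (k + 2) * B * H) := by ring
    exact h1.trans h8
  have hY2 : 1 + W * (1 + cm) * M ≤ ⌊Real.log N ^ L⌋₊ := by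
    refine Nat.le_floor ?_
    have h1 : ((1 + W * (1 + cm) * M : ℕ) : ℝ) = 1 + C0 / 2 * M := by
      rw [hC0def]
      push_cast
      ring
    have h2 : (C0 : ℝ) / 2 * M ≤ C0 / 2 * (Real.log N ^ L / C0) := mul_le_mul_of_nonneg_left hMle (by positivity)
    have h3 : (C0 : ℝ) / 2 * (Real.log N ^ L / C0) = Real.log N ^ L / 2 := by
      field_simp
    rw [h1]
    linarith
  have hY : 1 + q * Wp w * (M + a 0 * ((k + 2) * H)) ≤ ⌊Real.log N ^ L⌋₊ := by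
    refine le_trans ?_ hY2
    rw [← hWdef, mul_assoc W]
    refine Nat.add_le_add_left (Nat.mul_le_mul_left _ ?_) _
    calc M + a 0 * ((k + 2) * H) ≤ M + cm * M :=
          Nat.add_le_add_left (Nat.mul_le_mul (ha1 0).2 hH_nn) _
      _ = (1 + cm) * M := by ring
  have hEE : ∀ j, |((a 0 : ℕ) : ℤ) - ((a j : ℕ) : ℤ)| * ((k + 2) * H : ℕ) ≤ (E : ℤ) := fun j => by
    have h2 := haB 0 j
    have h3 : |((a 0 : ℕ) : ℤ) - ((a j : ℕ) : ℤ)| * ((k + 2) * H : ℕ) ≤ (B : ℤ) * ((k + 2) * H : ℕ) :=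
      mul_le_mul_of_nonneg_right h2 (Int.natCast_nonneg _)
    refine h3.trans ?_
    have h4 : B * ((k + 2) * H) ≤ E := by
      rw [hEdef]
      calc B * ((k + 2) * H) = 1 * (B * ((k + 2) * H)) := (one_mul _).symm
        _ ≤ 4 * (B * ((k + 2) * H)) := Nat.mul_le_mul_right _ (by omega)
        _ = 4 * (k + 2) * B * H := by ring
    exact_mod_cast h4
  have hcnt := hCount N g5 w q cm M E H hw_1 hq hcm1 hMN (hH1.trans hHH) hH_M a ha1 hEE (c0 / 4) (c0 ^ 2 / 8)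
    (by positivity) (by positivity) hp
  refine ⟨?_, ?_⟩
  · refine le_trans ?_ (hcnt.trans ?_)
    · refine div_le_div_of_nonneg_right (mul_le_mul_of_nonneg_right hc_1 (Nat.cast_nonneg _)) ?_
      linarith
    have hsub : {p : ℕ | p ≤ 2 * (q * Wp w) * cm * N ∧ p.Prime ∧
        c0 ^ 2 / 8 / (16 * C * (q * Wp w : ℕ) * cm) * M * (c0 / 4) / ((k + 2) * (C * Real.log N) ^ (k + 1)) ≤
          (((HPs q (1 + q * Wp w * (M + a 0 * ((k + 2) * H))) a p).ncard : ℕ) : ℝ)} ⊆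
        {p : ℕ | p ≤ 3 * W * cm * N ∧ p.Prime ∧ c * (Real.log N ^ L / Real.log N ^ (k + 1)) ≤
          (((HPs q ⌊Real.log N ^ L⌋₊ a p).ncard : ℕ) : ℝ)} := by
      rintro p ⟨h1, h2, h3⟩
      refine ⟨h1.trans ?_, h2, ?_⟩
      · rw [← hWdef]
        exact Nat.mul_le_mul_right _ (Nat.mul_le_mul_right _ (Nat.mul_le_mul_right _ (by norm_num)))
      · have h4 : (((HPs q (1 + q * Wp w * (M + a 0 * ((k + 2) * H))) a p).ncard : ℕ) : ℝ) ≤
            (((HPs q ⌊Real.log N ^ L⌋₊ a p).ncard : ℕ) : ℝ) := by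
          exact_mod_cast Set.ncard_le_ncard (HPs_mono a p hY) (HPs_fin _ _ _ _)
        refine le_trans ?_ (h3.trans h4)
        rw [← hWdef]
        have hl0 : (0 : ℝ) < Real.log N := by linarith
        calc c * (Real.log N ^ L / Real.log N ^ (k + 1)) ≤ ci * (Real.log N ^ L / Real.log N ^ (k + 1)) :=
              mul_le_mul_of_nonneg_right hc_4 (by positivity)
          _ = c0 ^ 2 / 8 / (16 * C * W * cm) * (Real.log N ^ L / (2 * C0)) * (c0 / 4) /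
                ((k + 2) * (C * Real.log N) ^ (k + 1)) := by
              rw [hci, mul_pow]
              field_simp
          _ ≤ c0 ^ 2 / 8 / (16 * C * W * cm) * M * (c0 / 4) / ((k + 2) * (C * Real.log N) ^ (k + 1)) := by
              refine div_le_div_of_nonneg_right (mul_le_mul_of_nonneg_right
                (mul_le_mul_of_nonneg_left hMge (by positivity)) (by positivity)) (by positivity)
    have hfin : {p : ℕ | p ≤ 3 * W * cm * N ∧ p.Prime ∧ c * (Real.log N ^ L / Real.log N ^ (k + 1)) ≤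
          (((HPs q ⌊Real.log N ^ L⌋₊ a p).ncard : ℕ) : ℝ)}.Finite :=
      (Set.finite_Iic (3 * W * cm * N)).subset fun p hp => hp.1
    exact_mod_cast Set.ncard_le_ncard hsub hfin
  · obtain ⟨x, S, hS1, hS2⟩ := many_om w (Rt t N) q N M E H (bx_nonempty N M H (hH1.trans hHH) hH_M) a
      (fun j z => (hfν (a j) (ha1 j).1 z).2) c0 hmain2 hc0
      (hIn H hHd N g10 M hS a ha1 hainj (fun j => haB 0 j))
    have hs := sR_le x
    have hinj : Function.Injective fun z2 : ZMod M => 1 + q * Wp w * (z2.val + a 0 * sR x) := by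
      intro z z' hzz
      have h6 : z.val + a 0 * sR x = z'.val + a 0 * sR x :=
        Nat.eq_of_mul_eq_mul_left (by rw [← hWdef]; exact hW1) (Nat.add_left_cancel hzz)
      exact ZMod.val_injective M (by omega)
    have hsub : ((S.image fun z2 : ZMod M => 1 + q * Wp w * (z2.val + a 0 * sR x) : Finset ℕ) : Set ℕ) ⊆
        {h : ℕ | 1 ≤ h ∧ h ≤ ⌊Real.log N ^ L⌋₊ ∧ h ≡ 1 [MOD q] ∧
          c * N / Real.log N ^ (k + 2) ≤
            (({n : ℕ | n ≤ 3 * W * cm * N ∧ ∀ j, (a j * n - h).Prime}.ncard : ℕ) : ℝ)} := by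
      intro h hh
      rw [Finset.mem_coe, mem_image] at hh
      obtain ⟨z2, hz2, rfl⟩ := hh
      refine ⟨by omega, ?_, ?_, ?_⟩
      · refine le_trans ?_ hY
        exact Nat.add_le_add_left (Nat.mul_le_mul_left _ (Nat.add_le_add (ZMod.val_lt z2).le
          (Nat.mul_le_mul_left _ hs))) _
      · unfold Nat.ModEq
        rw [mul_assoc, Nat.add_mul_mod_self_left]
      · have h7 := hOne N g9 w q M E H hw_1 hq hMN a (fun j => (ha1 j).1) hEE (c0 / 2) z2 x (hS2 z2 hz2) (by positivity)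
        refine le_trans ?_ (h7.trans ?_)
        · refine div_le_div_of_nonneg_right (mul_le_mul_of_nonneg_right hc_2 (Nat.cast_nonneg _)) ?_
          positivity
        · have hsub : {n : ℕ | n ≤ q * Wp w * (2 * N + (k + 2) * H) ∧
              ∀ j, (a j * n - (1 + q * Wp w * (z2.val + a 0 * sR x))).Prime} ⊆
              {n : ℕ | n ≤ 3 * W * cm * N ∧ ∀ j, (a j * n - (1 + q * Wp w * (z2.val + a 0 * sR x))).Prime} := by
            rintro n ⟨h1, h2⟩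
            refine ⟨h1.trans ?_, h2⟩
            rw [← hWdef]
            calc W * (2 * N + (k + 2) * H) ≤ W * (3 * N) := Nat.mul_le_mul_left _ (by omega)
              _ = 3 * W * 1 * N := by ring
              _ ≤ 3 * W * cm * N := Nat.mul_le_mul_right _ (Nat.mul_le_mul_left _ hcm1)
          have hfin : {n : ℕ | n ≤ 3 * W * cm * N ∧
              ∀ j, (a j * n - (1 + q * Wp w * (z2.val + a 0 * sR x))).Prime}.Finite :=
            (Set.finite_Iic (3 * W * cm * N)).subset fun p hp => hp.1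
          exact_mod_cast Set.ncard_le_ncard hsub hfin
    have hfin : {h : ℕ | 1 ≤ h ∧ h ≤ ⌊Real.log N ^ L⌋₊ ∧ h ≡ 1 [MOD q] ∧
          c * N / Real.log N ^ (k + 2) ≤
            (({n : ℕ | n ≤ 3 * W * cm * N ∧ ∀ j, (a j * n - h).Prime}.ncard : ℕ) : ℝ)}.Finite :=
      (Set.finite_Iic ⌊Real.log N ^ L⌋₊).subset fun p hp => hp.2.1
    have h8 := Set.ncard_le_ncard hsub hfin
    rw [Set.ncard_coe_finset, card_image_of_injective _ hinj] at h8
    refine le_trans ?_ (hS1.trans (by exact_mod_cast h8))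
    calc c * Real.log N ^ L ≤ c0 / 4 / (2 * C0) * Real.log N ^ L := mul_le_mul_of_nonneg_right hc_3 (by positivity)
      _ = c0 / 4 * (Real.log N ^ L / (2 * C0)) := by ring
      _ ≤ c0 / 4 * M := mul_le_mul_of_nonneg_left hMge (by positivity)

end Pool.CS
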