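import Mathlib

/-!
# CS-UniR: elementary counting of the zeros of `x ↦ a x + b` modulo `p`

`uni_dvd`: if `p ∤ a` the integers `x` with `p ∣ a x + b` lie in one residue class modulo `p`; an interval of `H` integers contains at most
`H / p + 1` of them (`Int.Ico_filter_modEq_card`/`Nat.count_modEq_card` or: the quotients `x / p` are different and lie in an interval).
`uni_zero`: at most one `x` with `a x + b = 0` if `a ≠ 0`.
-/

set_option autoImplicit false

namespace Pool.CS

open Finset

theorem uni_dvd (p : ℕ) (hp : p.Prime) (a b : ℤ) (ha : ¬ (p : ℤ) ∣ a) (s H : ℕ) :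
    (((Finset.Ico s (s + H)).filter fun x : ℕ => (p : ℤ) ∣ a * (x : ℤ) + b).card : ℝ) ≤ (H : ℝ) / p + 1 := by
  have hp0 : (0 : ℝ) < (p : ℝ) := by exact_mod_cast hp.pos
  rcases ((Finset.Ico s (s + H)).filter fun x : ℕ => (p : ℤ) ∣ a * (x : ℤ) + b).eq_empty_or_nonempty
    with h0 | ⟨v, hv⟩
  · rw [h0, Finset.card_empty, Nat.cast_zero]
    positivity
  · have hv' := (Finset.mem_filter.1 hv).2
    have hsub : ((Finset.Ico s (s + H)).filter fun x : ℕ => (p : ℤ) ∣ a * (x : ℤ) + b) ⊆
        (Finset.Ico s (s + H)).filter fun x : ℕ => x ≡ v [MOD p] := by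
      intro x hx
      rw [Finset.mem_filter] at hx ⊢
      refine ⟨hx.1, ?_⟩
      have h1 : (p : ℤ) ∣ a * ((v : ℤ) - x) := by
        have h2 := dvd_sub hv' hx.2
        have h3 : a * (v : ℤ) + b - (a * (x : ℤ) + b) = a * ((v : ℤ) - x) := by ring
        rwa [h3] at h2
      have h4 : (p : ℤ) ∣ (v : ℤ) - x := by
        rcases (Nat.prime_iff_prime_int.1 hp).dvd_or_dvd h1 with h | h
        · exact absurd h ha
        · exact h
      exact (Nat.modEq_iff_dvd.2 h4)
    have h5 := Finset.card_le_card hsub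
    have h6 := Nat.Ico_filter_modEq_card s (s + H) hp.pos v
    have h7 : ((((Finset.Ico s (s + H)).filter fun x : ℕ => x ≡ v [MOD p]).card : ℤ) : ℚ) ≤
        (H : ℚ) / p + 1 := by
      rw [h6]
      have hpq : (0 : ℚ) < (p : ℚ) := by exact_mod_cast hp.pos
      push_cast
      refine max_le ?_ (by positivity)
      have h8 := Int.ceil_lt_add_one (((s + H : ℕ) - v : ℚ) / p)
      have h9 := Int.le_ceil (((s : ℕ) - v : ℚ) / p)
      have h10 : (((s + H : ℕ) - v : ℚ) / p) - (((s : ℕ) - v : ℚ) / p) = (H : ℚ) / p := by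
        push_cast
        ring
      push_cast at h8 h9 h10 ⊢
      linarith
    have h11 : ((((Finset.Ico s (s + H)).filter fun x : ℕ => x ≡ v [MOD p]).card : ℕ) : ℝ) ≤
        (H : ℝ) / p + 1 := by
      have h12 : ((((((Finset.Ico s (s + H)).filter fun x : ℕ => x ≡ v [MOD p]).card : ℤ) : ℚ) : ℚ) : ℝ) ≤
          (((H : ℚ) / p + 1 : ℚ) : ℝ) := by
        exact_mod_cast h7
      push_cast at h12
      exact h12
    exact le_trans (by exact_mod_cast h5) h11

theorem uni_zero (a b : ℤ) (ha : a ≠ 0) (s : Finset ℕ) : (s.filter fun x : ℕ => a * (x : ℤ) + b = 0).card ≤ 1 := by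
  rw [Finset.card_le_one]
  intro x hx y hy
  have h1 := (Finset.mem_filter.1 hx).2
  have h2 := (Finset.mem_filter.1 hy).2
  have h3 : a * ((x : ℤ) - y) = 0 := by linarith
  rcases mul_eq_zero.1 h3 with h | h
  · exact absurd h ha
  · omega

end Pool.CS
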