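import Pool.Agent.Lib.MP_c77da8_nt.CS.RowsL
import Pool.Agent.Lib.MP_c77da8_nt.SZ.Sz

/-!
# CS-WordsL: the rows theorem for words, with the density Hales-Jewett theorem

The row of the word `w` is `∏_x m x (w x)`; a combinatorial line with the variable coordinates `X` and the constant part `b` consists of the
rows `b ∏_(x ∈ X) m x j`, `j < k + 2`.  The weight of a row is the number of its words.  Chains: `m x j = (ρ x)^j`.
-/

set_option autoImplicit false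

namespace Pool.CS

open Finset Pool.CG Pool.CL

/-- the row of a word -/
def wm {k N : ℕ} (m : Fin N → Fin k → ℕ) (w : Fin N → Fin k) : ℕ := ∏ x, m x (w x)

theorem wm_line {k N : ℕ} (m : Fin N → Fin k → ℕ) (W : Fin N → Fin k ⊕ Unit) (y : Fin k) :
    wm m (Pool.SZ.ev W (fun _ => y)) =
      (∏ x, Sum.elim (m x) (fun _ => 1) (W x)) * ∏ x ∈ univ.filter (fun x => W x = Sum.inr ()), m x y := by
  unfold wm
  rw [Finset.prod_filter, ← Finset.prod_mul_distrib]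
  refine Finset.prod_congr rfl fun x _ => ?_
  unfold Pool.SZ.ev
  cases h : W x with
  | inl a => simp
  | inr u => simp

theorem words_l (k : ℕ) : ∃ N L0 : ℕ, ∀ q : ℕ, 1 ≤ q → ∀ m : Fin N → Fin (k + 2) → ℕ, (∀ x j, 1 ≤ m x j) →
    (∀ X : Finset (Fin N), X.Nonempty → Function.Injective fun j => ∏ i ∈ X, m i j) →
    ∃ c : ℝ, 0 < c ∧ ∀ L ≥ L0, ∃ x0 : ℕ, ∀ x ≥ x0, ∃ X : Finset (Fin N), X.Nonempty ∧
      c * x / Real.log x ≤ (({p : ℕ | p ≤ x ∧ p.Prime ∧ c * (Real.log x ^ L / Real.log x ^ (k + 1)) ≤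
        (({h : ℕ | 1 ≤ h ∧ (h : ℝ) ≤ Real.log x ^ L ∧ h ≡ 1 [MOD q] ∧
          ∃ n, p = (∏ i ∈ X, m i 0) * n - h ∧ ∀ j, ((∏ i ∈ X, m i j) * n - h).Prime}.ncard : ℕ) : ℝ)}.ncard : ℕ) : ℝ) ∧
      c * Real.log x ^ L ≤ (({h : ℕ | 1 ≤ h ∧ (h : ℝ) ≤ Real.log x ^ L ∧ h ≡ 1 [MOD q] ∧
        c * x / Real.log x ^ (k + 2) ≤
          (({n : ℕ | n ≤ x ∧ ∀ j, ((∏ i ∈ X, m i j) * n - h).Prime}.ncard : ℕ) : ℝ)}.ncard : ℕ) : ℝ) := by
  obtain ⟨δ, L0, hδ, H⟩ := rows_lx k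
  obtain ⟨N, hN⟩ := Pool.SZ.dhj_fin (k + 1) δ hδ
  refine ⟨N, L0, fun q hq m hm hinj => ?_⟩
  have hwm : ∀ w : Fin N → Fin (k + 2), 1 ≤ wm m w := fun w => Finset.one_le_prod' fun x _ => hm _ _
  obtain ⟨c, hc, H2⟩ := H (univ.image (wm m)) (fun a ha => by
    obtain ⟨w, _, rfl⟩ := mem_image.1 ha
    exact hwm w) q hq
  -- a bound for the constant parts
  obtain ⟨K, hKdef⟩ : ∃ K : ℕ, K = ∏ x : Fin N, ∏ j : Fin (k + 2), m x j := ⟨_, rfl⟩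
  have hK : 1 ≤ K := by
    rw [hKdef]
    exact Finset.one_le_prod' fun x _ => Finset.one_le_prod' fun j _ => hm _ _
  have hKr : (1 : ℝ) ≤ (K : ℝ) := by exact_mod_cast hK
  refine ⟨c / (2 * (K : ℝ)) / 2, by positivity, fun L hL => ?_⟩
  obtain ⟨x0, H2⟩ := H2 L hL
  obtain ⟨x1, hx1⟩ := scale_l c hc K x0 L hK
  refine ⟨x1, fun x hx => ?_⟩
  obtain ⟨y, hy0, hyx, hlog1, hlog, hlog3, hsc⟩ := hx1 x hx
  obtain ⟨A', hA', hcard, H3⟩ := H2 y hy0 (fun a => (((univ.filter fun w : Fin N → Fin (k + 2) => wm m w = a).card : ℕ) : ℝ))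
    (fun a => Nat.cast_nonneg _)
  obtain ⟨S, hS⟩ : ∃ S : Finset (Fin N → Fin (k + 2)), S = univ.filter fun w => wm m w ∈ A' := ⟨_, rfl⟩
  have hSd : δ ≤ Pool.SZ.dn S := by
    unfold Pool.SZ.dn Pool.SZ.nn
    have h1 : (0 : ℝ) < ((Fintype.card (Fin N → Fin (k + 2)) : ℕ) : ℝ) := by exact_mod_cast Fintype.card_pos
    rw [le_div_iff₀ h1]
    have h2 : ∑ a ∈ univ.image (wm m), (((univ.filter fun w : Fin N → Fin (k + 2) => wm m w = a).card : ℕ) : ℝ) =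
        ((Fintype.card (Fin N → Fin (k + 2)) : ℕ) : ℝ) := by
      rw [← Nat.cast_sum, ← Finset.card_univ,
        Finset.card_eq_sum_card_fiberwise (f := wm m) (s := univ) (t := univ.image (wm m))
          fun w _ => Finset.mem_coe.2 (mem_image_of_mem _ (mem_univ w))]
    have h3 : ∑ a ∈ A', (((univ.filter fun w : Fin N → Fin (k + 2) => wm m w = a).card : ℕ) : ℝ) = ((S.card : ℕ) : ℝ) := by
      rw [← Nat.cast_sum, Finset.card_eq_sum_card_fiberwise (f := wm m) (s := S) (t := A') (fun w hw => by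
        rw [hS] at hw
        exact (mem_filter.1 (Finset.mem_coe.1 hw)).2)]
      congr 1
      refine Finset.sum_congr rfl fun a ha => ?_
      congr 1
      ext w
      rw [hS, mem_filter, mem_filter, mem_filter]
      constructor
      · rintro ⟨h4, h5⟩
        exact ⟨⟨h4, by rw [h5]; exact ha⟩, h5⟩
      · rintro ⟨⟨h4, _⟩, h5⟩
        exact ⟨h4, h5⟩
    rw [h2, h3] at hcard
    exact hcard
  obtain ⟨W, hW, hWS⟩ := hN (Fin N) (by rw [Fintype.card_fin]) S hSd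
  obtain ⟨X, hXdef⟩ : ∃ X : Finset (Fin N), X = univ.filter (fun x => W x = Sum.inr ()) := ⟨_, rfl⟩
  have hX : X.Nonempty := by
    obtain ⟨x, hx⟩ := hW ()
    exact ⟨x, by rw [hXdef]; exact mem_filter.2 ⟨mem_univ _, hx⟩⟩
  obtain ⟨b, hb⟩ : ∃ b : ℕ, b = ∏ x, Sum.elim (m x) (fun _ => 1) (W x) := ⟨_, rfl⟩
  have hline : ∀ j, wm m (Pool.SZ.ev W (fun _ => j)) = b * ∏ i ∈ X, m i j := fun j => by
    rw [wm_line, ← hb, ← hXdef]
  have hb1 : 1 ≤ b := by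
    rw [hb]
    refine Finset.one_le_prod' fun x _ => ?_
    cases W x with
    | inl a => exact hm _ a
    | inr u => exact le_rfl
  have hbK : b ≤ K := by
    rw [hb, hKdef]
    refine Finset.prod_le_prod' fun x _ => ?_
    cases W x with
    | inl a =>
      exact Finset.single_le_prod' (f := fun j => m x j) (fun j _ => hm x j) (mem_univ a)
    | inr u => exact Finset.one_le_prod' fun j _ => hm x j
  obtain ⟨h1, h2⟩ := H3 (fun j => b * ∏ i ∈ X, m i j) (fun i j hij =>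
    hinj X hX (Nat.eq_of_mul_eq_mul_left (by omega) hij)) (fun j => by
      have h6 := hWS (fun _ => j)
      rw [hS, mem_filter, hline] at h6
      exact h6.2)
  obtain ⟨c', hc'⟩ : ∃ c' : ℝ, c' = c / (2 * (K : ℝ)) / 2 := ⟨_, rfl⟩
  rw [← hc']
  have hc'0 : 0 ≤ c' := by rw [hc']; positivity
  have hcK : c' ≤ c / (2 * K) := by rw [hc']; exact half_le_self (by positivity)
  have h2c : 2 * c' ≤ c := by
    rw [hc']
    have : c / (2 * K) ≤ c := div_le_self hc.le (by linarith)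
    linarith
  have hlx1 : 1 ≤ Real.log x := hlog1.trans hlog
  have hp : Real.log y ^ L ≤ Real.log x ^ L := pow_le_pow_left₀ (by linarith) hlog L
  have hfinh : ∀ P : ℕ → Prop, {h : ℕ | 1 ≤ h ∧ (h : ℝ) ≤ Real.log x ^ L ∧ P h}.Finite := fun P =>
    (Set.finite_Iic ⌊Real.log x ^ L⌋₊).subset fun h hh => Nat.le_floor hh.2.1
  have hsx : ∀ l : ℕ, c' * x / Real.log x ^ l ≤ c * y / Real.log y ^ l := by
    intro l
    refine le_trans ?_ (hsc l)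
    exact div_le_div_of_nonneg_right (mul_le_mul_of_nonneg_right hcK (Nat.cast_nonneg _)) (by positivity)
  have hyx' : y ≤ x := (Nat.le_mul_of_pos_left y (by omega)).trans hyx
  have hmul : ∀ (j : Fin (k + 2)) (n : ℕ), (∏ i ∈ X, m i j) * (b * n) = b * (∏ i ∈ X, m i j) * n := fun j n => by ring
  have hword : ∀ h : ℕ, (({n : ℕ | n ≤ y ∧ ∀ j, (b * (∏ i ∈ X, m i j) * n - h).Prime}.ncard : ℕ) : ℝ) ≤
      (({n : ℕ | n ≤ x ∧ ∀ j, ((∏ i ∈ X, m i j) * n - h).Prime}.ncard : ℕ) : ℝ) := by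
    intro h
    have hsub : (fun n => b * n) '' {n : ℕ | n ≤ y ∧ ∀ j, (b * (∏ i ∈ X, m i j) * n - h).Prime} ⊆
        {n : ℕ | n ≤ x ∧ ∀ j, ((∏ i ∈ X, m i j) * n - h).Prime} := by
      rintro _ ⟨n, ⟨g1, g2⟩, rfl⟩
      refine ⟨(Nat.mul_le_mul hbK g1).trans hyx, fun j => ?_⟩
      dsimp only
      rw [hmul]
      exact g2 j
    have hinj2 : Function.Injective fun n : ℕ => b * n := fun i j hij =>
      Nat.eq_of_mul_eq_mul_left (by omega) hij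
    rw [← Set.ncard_image_of_injective _ hinj2]
    exact_mod_cast Set.ncard_le_ncard hsub ((Set.finite_Iic x).subset fun p hp => hp.1)
  refine ⟨X, hX, ?_, ?_⟩
  · have h6 := hsx 1
    rw [pow_one, pow_one] at h6
    refine (h6.trans h1).trans ?_
    have hsub : {p : ℕ | p ≤ y ∧ p.Prime ∧ c * (Real.log y ^ L / Real.log y ^ (k + 1)) ≤
          (({h : ℕ | 1 ≤ h ∧ (h : ℝ) ≤ Real.log y ^ L ∧ h ≡ 1 [MOD q] ∧
            ∃ n, p = b * (∏ i ∈ X, m i 0) * n - h ∧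
              ∀ j, (b * (∏ i ∈ X, m i j) * n - h).Prime}.ncard : ℕ) : ℝ)} ⊆
        {p : ℕ | p ≤ x ∧ p.Prime ∧ c' * (Real.log x ^ L / Real.log x ^ (k + 1)) ≤
          (({h : ℕ | 1 ≤ h ∧ (h : ℝ) ≤ Real.log x ^ L ∧ h ≡ 1 [MOD q] ∧
            ∃ n, p = (∏ i ∈ X, m i 0) * n - h ∧ ∀ j, ((∏ i ∈ X, m i j) * n - h).Prime}.ncard : ℕ) : ℝ)} := by
      rintro p ⟨g1, g2, g3⟩
      refine ⟨g1.trans hyx', g2, (ratio_aux hlog1 hlog L (k + 1) hlog3 c c' hc'0 h2c).trans (g3.trans ?_)⟩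
      have hs : {h : ℕ | 1 ≤ h ∧ (h : ℝ) ≤ Real.log y ^ L ∧ h ≡ 1 [MOD q] ∧
            ∃ n, p = b * (∏ i ∈ X, m i 0) * n - h ∧ ∀ j, (b * (∏ i ∈ X, m i j) * n - h).Prime} ⊆
          {h : ℕ | 1 ≤ h ∧ (h : ℝ) ≤ Real.log x ^ L ∧ h ≡ 1 [MOD q] ∧
            ∃ n, p = (∏ i ∈ X, m i 0) * n - h ∧ ∀ j, ((∏ i ∈ X, m i j) * n - h).Prime} := by
        rintro h ⟨e1, e2, e3, n, e4, e5⟩
        refine ⟨e1, e2.trans hp, e3, b * n, ?_, fun j => ?_⟩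
        · rw [hmul]
          exact e4
        · rw [hmul]
          exact e5 j
      exact_mod_cast Set.ncard_le_ncard hs (hfinh _)
    exact_mod_cast Set.ncard_le_ncard hsub ((Set.finite_Iic x).subset fun p hp => hp.1)
  · have h5 : c' * Real.log x ^ L ≤ c * Real.log y ^ L := by
      have := ratio_aux hlog1 hlog L 0 hlog3 c c' hc'0 h2c
      simpa using this
    refine (h5.trans h2).trans ?_
    have hsub0 : {h : ℕ | 1 ≤ h ∧ (h : ℝ) ≤ Real.log y ^ L ∧ h ≡ 1 [MOD q] ∧ c * y / Real.log y ^ (k + 2) ≤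
          (({n : ℕ | n ≤ y ∧ ∀ j, (b * (∏ i ∈ X, m i j) * n - h).Prime}.ncard : ℕ) : ℝ)} ⊆
        {h : ℕ | 1 ≤ h ∧ (h : ℝ) ≤ Real.log x ^ L ∧ h ≡ 1 [MOD q] ∧ c' * x / Real.log x ^ (k + 2) ≤
          (({n : ℕ | n ≤ x ∧ ∀ j, ((∏ i ∈ X, m i j) * n - h).Prime}.ncard : ℕ) : ℝ)} := by
      rintro h ⟨g1, g2, g3, g4⟩
      exact ⟨g1, g2.trans hp, g3, ((hsx (k + 2)).trans g4).trans (hword h)⟩
    exact_mod_cast Set.ncard_le_ncard hsub0 (hfinh _)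

/-- chains with the ratio a subproduct of given numbers -/
theorem chains_l (k : ℕ) (hk : 2 ≤ k) : ∃ N L0 : ℕ, ∀ q : ℕ, 1 ≤ q → ∀ ρ : Fin N → ℕ, (∀ i, 2 ≤ ρ i) →
    ∃ c : ℝ, 0 < c ∧ ∀ L ≥ L0, ∃ x0 : ℕ, ∀ x ≥ x0, ∃ X : Finset (Fin N), X.Nonempty ∧
      c * x / Real.log x ≤ (({p : ℕ | p ≤ x ∧ p.Prime ∧ c * (Real.log x ^ L / Real.log x ^ (k - 1)) ≤
        (({h : ℕ | 1 ≤ h ∧ (h : ℝ) ≤ Real.log x ^ L ∧ h ≡ 1 [MOD q] ∧
          ∀ j < k, ((∏ i ∈ X, ρ i) ^ j * (p + h) - h).Prime}.ncard : ℕ) : ℝ)}.ncard : ℕ) : ℝ) ∧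
      c * Real.log x ^ L ≤ (({h : ℕ | 1 ≤ h ∧ (h : ℝ) ≤ Real.log x ^ L ∧ h ≡ 1 [MOD q] ∧
        c * x / Real.log x ^ k ≤
          (({n : ℕ | n ≤ x ∧ ∀ j < k, ((∏ i ∈ X, ρ i) ^ j * n - h).Prime}.ncard : ℕ) : ℝ)}.ncard : ℕ) : ℝ) := by
  obtain ⟨k, rfl⟩ : ∃ k', k = k' + 2 := ⟨k - 2, by omega⟩
  obtain ⟨N, L0, H⟩ := words_l k
  refine ⟨N, L0, fun q hq ρ hρ => ?_⟩
  have hpr : ∀ X : Finset (Fin N), X.Nonempty → 2 ≤ ∏ i ∈ X, ρ i := by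
    intro X hX
    obtain ⟨i, hi⟩ := hX
    exact (hρ i).trans (Finset.single_le_prod' (f := ρ) (fun j _ => by have := hρ j; omega) hi)
  have hmp : ∀ (X : Finset (Fin N)) (j : Fin (k + 2)), ∏ i ∈ X, ρ i ^ j.val = (∏ i ∈ X, ρ i) ^ j.val := fun X j =>
    Finset.prod_pow _ _ _
  obtain ⟨c, hc, H2⟩ := H q hq (fun i j => ρ i ^ j.val) (fun i j => Nat.one_le_pow _ _ (by have := hρ i; omega))
    (fun X hX i j hij => by
      simp only [hmp] at hij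
      exact Fin.ext (Nat.pow_right_injective (hpr X hX) hij))
  refine ⟨c, hc, fun L hL => ?_⟩
  obtain ⟨x0, H2⟩ := H2 L hL
  refine ⟨max x0 3, fun x hx => ?_⟩
  obtain ⟨X, hX, h1, h2⟩ := H2 x (le_trans (le_max_left _ _) hx)
  have hfinh : ∀ P : ℕ → Prop, {h : ℕ | 1 ≤ h ∧ (h : ℝ) ≤ Real.log x ^ L ∧ P h}.Finite := fun P =>
    (Set.finite_Iic ⌊Real.log x ^ L⌋₊).subset fun h hh => Nat.le_floor hh.2.1
  rw [show k + 2 - 1 = k + 1 by omega]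
  refine ⟨X, hX, h1.trans ?_, h2.trans ?_⟩
  · have hsub : {p : ℕ | p ≤ x ∧ p.Prime ∧ c * (Real.log x ^ L / Real.log x ^ (k + 1)) ≤
          (({h : ℕ | 1 ≤ h ∧ (h : ℝ) ≤ Real.log x ^ L ∧ h ≡ 1 [MOD q] ∧
            ∃ n, p = (∏ i ∈ X, ρ i ^ (0 : Fin (k + 2)).val) * n - h ∧
              ∀ j : Fin (k + 2), ((∏ i ∈ X, ρ i ^ j.val) * n - h).Prime}.ncard : ℕ) : ℝ)} ⊆
        {p : ℕ | p ≤ x ∧ p.Prime ∧ c * (Real.log x ^ L / Real.log x ^ (k + 1)) ≤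
          (({h : ℕ | 1 ≤ h ∧ (h : ℝ) ≤ Real.log x ^ L ∧ h ≡ 1 [MOD q] ∧
            ∀ j < k + 2, ((∏ i ∈ X, ρ i) ^ j * (p + h) - h).Prime}.ncard : ℕ) : ℝ)} := by
      rintro p ⟨g1, g2, g3⟩
      refine ⟨g1, g2, g3.trans ?_⟩
      have hs : {h : ℕ | 1 ≤ h ∧ (h : ℝ) ≤ Real.log x ^ L ∧ h ≡ 1 [MOD q] ∧
            ∃ n, p = (∏ i ∈ X, ρ i ^ (0 : Fin (k + 2)).val) * n - h ∧
              ∀ j : Fin (k + 2), ((∏ i ∈ X, ρ i ^ j.val) * n - h).Prime} ⊆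
          {h : ℕ | 1 ≤ h ∧ (h : ℝ) ≤ Real.log x ^ L ∧ h ≡ 1 [MOD q] ∧
            ∀ j < k + 2, ((∏ i ∈ X, ρ i) ^ j * (p + h) - h).Prime} := by
        rintro h ⟨e1, e2, e3, n, e5, e6⟩
        refine ⟨e1, e2, e3, fun j hj => ?_⟩
        have g7 := e6 0
        rw [← e5] at g7
        have g8 := g7.pos
        have g9 : p + h = n := by
          rw [hmp, Fin.val_zero, pow_zero, one_mul] at e5
          omega
        rw [g9]
        have g10 := e6 ⟨j, hj⟩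
        rw [hmp] at g10
        exact g10
      exact_mod_cast Set.ncard_le_ncard hs (hfinh _)
    exact_mod_cast Set.ncard_le_ncard hsub ((Set.finite_Iic x).subset fun p hp => hp.1)
  · have hsub : {h : ℕ | 1 ≤ h ∧ (h : ℝ) ≤ Real.log x ^ L ∧ h ≡ 1 [MOD q] ∧ c * x / Real.log x ^ (k + 2) ≤
          (({n : ℕ | n ≤ x ∧ ∀ j : Fin (k + 2), ((∏ i ∈ X, ρ i ^ j.val) * n - h).Prime}.ncard : ℕ) : ℝ)} ⊆
        {h : ℕ | 1 ≤ h ∧ (h : ℝ) ≤ Real.log x ^ L ∧ h ≡ 1 [MOD q] ∧ c * x / Real.log x ^ (k + 2) ≤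
          (({n : ℕ | n ≤ x ∧ ∀ j < k + 2, ((∏ i ∈ X, ρ i) ^ j * n - h).Prime}.ncard : ℕ) : ℝ)} := by
      rintro h ⟨g1, g2, g3, g4⟩
      refine ⟨g1, g2, g3, g4.trans ?_⟩
      have hsub2 : {n : ℕ | n ≤ x ∧ ∀ j : Fin (k + 2), ((∏ i ∈ X, ρ i ^ j.val) * n - h).Prime} ⊆
          {n : ℕ | n ≤ x ∧ ∀ j < k + 2, ((∏ i ∈ X, ρ i) ^ j * n - h).Prime} := by
        rintro n ⟨g1, g2⟩
        refine ⟨g1, fun j hj => ?_⟩
        have g10 := g2 ⟨j, hj⟩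
        rw [hmp] at g10
        exact g10
      exact_mod_cast Set.ncard_le_ncard hsub2 ((Set.finite_Iic x).subset fun p hp => hp.1)
    exact_mod_cast Set.ncard_le_ncard hsub (hfinh _)

end Pool.CS
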